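import Pool.Agent.Helper48.SW.ChartForm

set_option autoImplicit false
set_option linter.unusedSectionVars false

/-! # Monomial charts -/

namespace Pool.Agent.Helper48.SW

open Finset MvPolynomial Pool.Agent.H628R4.TP Pool.Agent.K3h38.SM Pool.Agent.Helper48.SN

variable {c : ℕ}

/-- the monomial map `x_j = ∏_i y_i ^ A_ij` -/
noncomputable def mono (A : Fin c → Fin c → ℕ) (j : Fin c) : MvPolynomial (Fin c) ℂ :=
  ∏ i, X i ^ A i j

theorem X_pderiv_mono (A : Fin c → Fin c → ℕ) (i j : Fin c) :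
    X i * pderiv i (mono A j) = C (A i j : ℂ) * mono A j := by
  classical
  have h1 : mono A j = X i ^ A i j * ∏ l ∈ Finset.univ.erase i, X l ^ A l j :=
    (Finset.mul_prod_erase Finset.univ (fun l => (X l : MvPolynomial (Fin c) ℂ) ^ A l j)
      (Finset.mem_univ i)).symm
  have h2 : pderiv i (∏ l ∈ Finset.univ.erase i, X l ^ A l j : MvPolynomial (Fin c) ℂ) = 0 := by
    rw [deriv_finset_prod]
    refine Finset.sum_eq_zero fun l hl => ?_
    rw [pderiv_pow, pderiv_X_of_ne (Finset.ne_of_mem_erase hl), mul_zero, zero_mul]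
  rw [h1, pderiv_mul, h2, mul_zero, add_zero, pderiv_pow, pderiv_X_self, mul_one]
  rcases Nat.eq_zero_or_pos (A i j) with h3 | h3
  · rw [h3]
    simp
  · have h4 : (X i : MvPolynomial (Fin c) ℂ) ^ A i j = X i * X i ^ (A i j - 1) := by
      rw [← pow_succ', Nat.sub_add_cancel h3]
    rw [h4, map_natCast]
    ring

theorem prod_mono (A : Fin c → Fin c → ℕ) :
    ∏ j, mono A j = ∏ i, (X i : MvPolynomial (Fin c) ℂ) ^ ∑ j, A i j := by
  simp only [mono]
  rw [Finset.prod_comm]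
  exact Finset.prod_congr rfl fun i _ => Finset.prod_pow_eq_pow_sum _ _ _

/-- the Jacobian determinant of a monomial map -/
theorem jac_mono (A : Fin c → Fin c → ℕ) (hA : ∀ i, 1 ≤ ∑ j, A i j) :
    (Matrix.of fun j i => pderiv i (mono A j)).det =
      C ((Matrix.of fun i j => (A i j : ℂ)).det) * ∏ i, X i ^ (∑ j, A i j - 1) := by
  classical
  have h1 : (Matrix.of fun j i => pderiv i (mono A j)) * Matrix.diagonal (fun i => X i) =
      Matrix.diagonal (mono A) * (Matrix.of fun j i => (C (A i j : ℂ) : MvPolynomial (Fin c) ℂ)) := by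
    ext1 j i
    rw [Matrix.mul_diagonal, Matrix.diagonal_mul, Matrix.of_apply, Matrix.of_apply, mul_comm,
      X_pderiv_mono, mul_comm]
  have h2 := congrArg Matrix.det h1
  rw [Matrix.det_mul, Matrix.det_mul, Matrix.det_diagonal, Matrix.det_diagonal, prod_mono] at h2
  have h3 : (Matrix.of fun j i => (C (A i j : ℂ) : MvPolynomial (Fin c) ℂ)).det =
      C ((Matrix.of fun i j => (A i j : ℂ)).det) := by
    rw [← Matrix.det_transpose, RingHom.map_det]
    rfl
  rw [h3] at h2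
  have h4 : ∏ i, (X i : MvPolynomial (Fin c) ℂ) ^ ∑ j, A i j =
      (∏ i, X i) * ∏ i, X i ^ (∑ j, A i j - 1) := by
    rw [← Finset.prod_mul_distrib]
    refine Finset.prod_congr rfl fun i _ => ?_
    rw [← pow_succ', Nat.sub_add_cancel (hA i)]
  rw [h4] at h2
  have h5 : (∏ i, (X i : MvPolynomial (Fin c) ℂ)) ≠ 0 :=
    Finset.prod_ne_zero_iff.2 fun i _ => X_ne_zero i
  apply mul_right_cancel₀ h5
  rw [h2]
  ring

theorem mono_hom (A : Fin c → Fin c → ℕ) (v w : Fin c → ℕ) (t : ℕ)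
    (hA : ∀ j, ∑ i, v i * A i j = t * w j) (j : Fin c) :
    IsWeightedHomogeneous v (mono A j) (t * w j) := by
  rw [← hA j, mono]
  refine IsWeightedHomogeneous.prod _ _ _ fun i _ => ?_
  have h := (isWeightedHomogeneous_X ℂ v i).pow (A i j)
  rwa [smul_eq_mul, mul_comm] at h

theorem aeval_mono_hom (A : Fin c → Fin c → ℕ) (v w : Fin c → ℕ) (t d : ℕ)
    (hA : ∀ j, ∑ i, v i * A i j = t * w j) (φ : MvPolynomial (Fin c) ℂ)
    (hφ : IsWeightedHomogeneous w φ d) : IsWeightedHomogeneous v (aeval (mono A) φ) (t * d) := by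
  rw [aeval_def, eval₂_eq']
  refine IsWeightedHomogeneous.sum _ _ _ fun m hm => ?_
  have h1 : Finsupp.weight w m = d := hφ (mem_support_iff.1 hm)
  have h2 : IsWeightedHomogeneous v (∏ j, mono A j ^ m j) (t * d) := by
    have h3 : t * d = ∑ j, m j * (t * w j) := by
      rw [← h1, Finsupp.weight_apply, Finsupp.sum_fintype _ _ (fun i => by simp), Finset.mul_sum]
      refine Finset.sum_congr rfl fun j _ => ?_
      rw [smul_eq_mul]
      ring
    rw [h3]
    refine IsWeightedHomogeneous.prod _ _ _ fun j _ => ?_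
    have h4 := (mono_hom A v w t hA j).pow (m j)
    rwa [smul_eq_mul] at h4
  exact h2.C_mul (coeff m φ)

/-- `φ` is the face polynomial of a simplicial facet -/
def FacetForm (w : Fin c → ℕ) (d : ℕ) (φ : MvPolynomial (Fin c) ℂ) : Prop :=
  2 ≤ c ∧ (∀ i, 0 < w i) ∧ 0 < d ∧ IsWeightedHomogeneous w φ d ∧
  ∃ (A : Fin c → Fin c → ℕ) (v : Fin c → ℕ) (t : ℕ) (m : Fin c → ℕ) (r : ℕ)
    (G : Fin r → MvPolynomial (Fin c) ℂ) (e n : Fin r → ℕ),
    (Matrix.of fun i j => (A i j : ℂ)).det ≠ 0 ∧ (∀ i, 0 < v i) ∧ 0 < t ∧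
    (∀ j, ∑ i, v i * A i j = t * w j) ∧
    (∀ k, IsWeightedHomogeneous v (G k) (e k)) ∧ (∀ k, 0 < e k) ∧ (∀ k, 1 ≤ n k) ∧
    aeval (fun j => ∏ i, X i ^ A i j : Fin c → MvPolynomial (Fin c) ℂ) φ =
      (∏ i, X i ^ m i) * ∏ k, G k ^ n k ∧
    SNC (Sum.elim (fun i : {i // 0 < m i} => (X i.1 : MvPolynomial (Fin c) ℂ)) G) ∧
    (¬ LinearIndependent ℂ fun (i : {i // 0 < m i} ⊕ Fin r) (j : Fin c) =>
      eval 0 (pderiv j (Sum.elim (fun i : {i // 0 < m i} => (X i.1 : MvPolynomial (Fin c) ℂ)) G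
        i))) ∧
    (∀ i, m i = 0 → ∑ j, A i j = 1) ∧
    ∀ i, 0 < m i → ∀ l : ℕ, 1 ≤ l → m i * ∑ j, w j + l * d ≠ (∑ j, A i j) * d

theorem prod_sub (p : Fin c → Prop) [DecidablePred p] (f : Fin c → MvPolynomial (Fin c) ℂ)
    (h : ∀ i, ¬ p i → f i = 1) : ∏ i : {i // p i}, f i.1 = ∏ i, f i := by
  rw [← Fintype.prod_subtype_mul_prod_subtype p f]
  rw [Finset.prod_eq_one (s := Finset.univ) (f := fun i : {i // ¬ p i} => f i.1)
    (fun i _ => h i.1 i.2), mul_one]

theorem sum_sub (p : Fin c → Prop) [DecidablePred p] (f : Fin c → ℕ)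
    (h : ∀ i, ¬ p i → f i = 0) : ∑ i : {i // p i}, f i.1 = ∑ i, f i := by
  rw [← Fintype.sum_subtype_add_sum_subtype p f]
  rw [Finset.sum_eq_zero (s := Finset.univ) (f := fun i : {i // ¬ p i} => f i.1)
    (fun i _ => h i.1 i.2), add_zero]

theorem FacetForm.chart {w : Fin c → ℕ} {d : ℕ} {φ : MvPolynomial (Fin c) ℂ}
    (hφ : FacetForm w d φ) : ChartForm φ := by
  classical
  obtain ⟨hc, hw, hd, hφh, A, v, t, m, r, G, e, n, hA, hv, ht, hvA, hG, he, hn, hψ, hS, hli, h1,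
    hres⟩ := hφ
  have hν : ∀ i, 1 ≤ ∑ j, A i j := by
    intro i
    by_contra h
    have h2 : ∀ j, A i j = 0 := by
      intro j
      have h3 : A i j ≤ ∑ j, A i j := Finset.single_le_sum (f := fun j => A i j)
        (fun _ _ => Nat.zero_le _) (Finset.mem_univ j)
      omega
    apply hA
    refine Matrix.det_eq_zero_of_row_eq_zero i fun j => ?_
    rw [Matrix.of_apply, h2 j, Nat.cast_zero]
  have hmono : aeval (mono A) φ = (∏ i, X i ^ m i) * ∏ k, G k ^ n k := hψ
  have hψ2 : aeval (mono A) φ = ∏ i : {i // 0 < m i} ⊕ Fin r,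
      Sum.elim (fun i : {i // 0 < m i} => (X i.1 : MvPolynomial (Fin c) ℂ)) G i ^
        Sum.elim (fun i : {i // 0 < m i} => m i.1) n i := by
    rw [Fintype.prod_sum_type, hmono]
    simp only [Sum.elim_inl, Sum.elim_inr]
    rw [prod_sub (fun i => 0 < m i) (fun i => (X i : MvPolynomial (Fin c) ℂ) ^ m i) (fun i hi => by
      have : m i = 0 := by omega
      rw [this, pow_zero])]
  have hhom : ∀ i : {i // 0 < m i} ⊕ Fin r, IsWeightedHomogeneous v
      (Sum.elim (fun i : {i // 0 < m i} => (X i.1 : MvPolynomial (Fin c) ℂ)) G i)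
      (Sum.elim (fun i : {i // 0 < m i} => v i.1) e i) := by
    rintro (i | k)
    · exact isWeightedHomogeneous_X ℂ v i.1
    · exact hG k
  have hNE : ∑ i : {i // 0 < m i} ⊕ Fin r, Sum.elim (fun i : {i // 0 < m i} => m i.1) n i *
      Sum.elim (fun i : {i // 0 < m i} => v i.1) e i = t * d := by
    have h2 := prod_hom_w v _ _ hhom (Sum.elim (fun i : {i // 0 < m i} => m i.1) n)
    rw [← hψ2] at h2
    refine IsWeightedHomogeneous.inj_right ?_ h2 (aeval_mono_hom A v w t d hvA φ hφh)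
    rw [hψ2]
    exact Finset.prod_ne_zero_iff.2 fun i _ => pow_ne_zero _ (F_ne (by omega) _ hS i)
  have hME : ∑ j, v j + ∑ i : {i // 0 < m i} ⊕ Fin r,
      Sum.elim (fun i : {i // 0 < m i} => ∑ j, A i.1 j - 1) (fun _ => 0) i *
      Sum.elim (fun i : {i // 0 < m i} => v i.1) e i = t * ∑ j, w j := by
    rw [Fintype.sum_sum_type]
    simp only [Sum.elim_inl, Sum.elim_inr, zero_mul, Finset.sum_const_zero, add_zero]
    rw [sum_sub (fun i => 0 < m i) (fun i => (∑ j, A i j - 1) * v i) (fun i hi => by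
      have h2 : m i = 0 := by omega
      rw [h1 i h2, Nat.sub_self, zero_mul]), ← Finset.sum_add_distrib, Finset.mul_sum]
    have h2 : ∀ i, v i + (∑ j, A i j - 1) * v i = ∑ j, v i * A i j := by
      intro i
      rw [← Finset.mul_sum]
      obtain ⟨q, hq⟩ : ∃ q, ∑ j, A i j = q + 1 := ⟨∑ j, A i j - 1, (Nat.sub_add_cancel (hν i)).symm⟩
      rw [hq, Nat.add_sub_cancel]
      ring
    rw [Finset.sum_congr rfl fun i _ => h2 i, Finset.sum_comm]
    exact Finset.sum_congr rfl fun j _ => hvA j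
  refine ⟨hc, v, mono A, (Matrix.of fun i j => (A i j : ℂ)).det, {i // 0 < m i} ⊕ Fin r,
    inferInstance, Sum.elim (fun i : {i // 0 < m i} => (X i.1 : MvPolynomial (Fin c) ℂ)) G,
    Sum.elim (fun i : {i // 0 < m i} => v i.1) e, Sum.elim (fun i : {i // 0 < m i} => m i.1) n,
    Sum.elim (fun i : {i // 0 < m i} => ∑ j, A i.1 j - 1) (fun _ => 0), hv, hhom, ?_, ?_, hS, hli,
    hA, ?_, hψ2, ?_⟩
  · rintro (i | k)
    · exact hv i.1
    · exact he k
  · rintro (i | k)
    · exact i.2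
    · exact hn k
  · rw [jac_mono A hν, Fintype.prod_sum_type]
    simp only [Sum.elim_inl, Sum.elim_inr, pow_zero, Finset.prod_const_one, mul_one]
    rw [prod_sub (fun i => 0 < m i)
      (fun i => (X i : MvPolynomial (Fin c) ℂ) ^ (∑ j, A i j - 1)) (fun i hi => by
      have h2 : m i = 0 := by omega
      rw [h1 i h2, Nat.sub_self, pow_zero])]
  · intro i l
    rw [hNE, hME]
    rcases i with i | k
    · simp only [Sum.elim_inl]
      intro h2
      apply hres i.1 i.2 (l + 1) (by omega)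
      obtain ⟨q, hq⟩ : ∃ q, ∑ j, A i.1 j = q + 1 :=
        ⟨∑ j, A i.1 j - 1, (Nat.sub_add_cancel (hν i.1)).symm⟩
      rw [hq] at h2 ⊢
      rw [Nat.add_sub_cancel] at h2
      have h3 : t * (m i.1 * ∑ j, w j + (l + 1) * d) = t * ((q + 1) * d) := by
        calc t * (m i.1 * ∑ j, w j + (l + 1) * d) =
            (m i.1 * (t * ∑ j, w j) + l * (t * d)) + t * d := by ring
          _ = q * (t * d) + t * d := by rw [h2]
          _ = _ := by ring
      exact Nat.eq_of_mul_eq_mul_left ht h3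
    · simp only [Sum.elim_inr, zero_mul]
      have h2 : 0 < ∑ j, w j := Finset.sum_pos (fun j _ => hw j) ⟨⟨0, by omega⟩, Finset.mem_univ _⟩
      have h3 : 0 < n k * (t * ∑ j, w j) := Nat.mul_pos (hn k) (Nat.mul_pos ht h2)
      omega

end Pool.Agent.Helper48.SW
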