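import Pool.Agent.Helper48.SW.InitW

set_option autoImplicit false
set_option linter.unusedSectionVars false

/-! # The starting equation with a Jacobian -/

namespace Pool.Agent.Helper48.SW

open Finset MvPolynomial Pool.Agent.H119.LSS Pool.Agent.Helper48.SN

variable {N : ℕ} {ι : Type} [DecidableEq ι] [Fintype ι]

/-- The starting equation for a vector field `Θ` with `Θ ∏ F_i ^ n_i = 0` and
`div Θ = ∏ F_i ^ (m_i + n_i k)`. -/
theorem init_PWG (hN : 2 ≤ N) (wt : Fin N → ℕ) (hwt : ∀ i, 0 < wt i)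
    (F : ι → MvPolynomial (Fin N) ℂ) (e : ι → ℕ)
    (hF : ∀ k, IsWeightedHomogeneous wt (F k) (e k)) (he : ∀ k, 0 < e k) (hS : SNC F)
    (hC : CompW wt F) (n m : ι → ℕ) (hn : ∀ i, 1 ≤ n i) (d : ℕ) (hd : d = ∑ i, n i * e i)
    (hd0 : 0 < d) (k : ℕ) (Θ : Fin N → MvPolynomial (Fin N) ℂ)
    (hΘ : ∀ i, IsWeightedHomogeneous wt (Θ i) (∑ l, (m l + n l * k) * e l + wt i))
    (h1 : ∑ i, Θ i * pderiv i (∏ i, F i ^ n i) = 0)
    (h2 : ∑ i, pderiv i (Θ i) = ∏ i, F i ^ (m i + n i * k)) :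
    PW wt F (fun i => ((∑ j, wt j + ∑ l, m l * e l : ℕ) : ℂ) * n i / d - m i)
      (fun i => m i + n i * k) := by
  have hne : ∀ k, F k ≠ 0 := F_ne (by omega) F hS
  set D : Derivation ℂ (MvPolynomial (Fin N) ℂ) (MvPolynomial (Fin N) ℂ) :=
    ∑ i, Θ i • pderiv i with hD
  have hDa : ∀ p, D p = ∑ i, Θ i * pderiv i p := by
    intro p
    have h := map_sum (Derivation.coeFnAddMonoidHom (R := ℂ) (A := MvPolynomial (Fin N) ℂ)
      (M := MvPolynomial (Fin N) ℂ)) (fun i => Θ i • pderiv i) Finset.univ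
    have h' := congrFun h p
    rw [Finset.sum_apply] at h'
    exact h'
  have h3 := deriv_prod D F n hn Finset.univ
  rw [hDa, h1] at h3
  have h4 : ∑ i, ((n i : ℕ) : MvPolynomial (Fin N) ℂ) * (D (F i) * ∏ l ∈ Finset.univ.erase i, F l)
      = 0 := by
    rcases mul_eq_zero.1 h3.symm with h5 | h5
    · rw [Finset.prod_eq_zero_iff] at h5
      obtain ⟨i, _, hi⟩ := h5
      exact absurd (eq_zero_of_pow_eq_zero hi) (hne i)
    · exact h5
  -- divisibility
  have h5 : ∀ i, F i ∣ D (F i) := by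
    intro i
    have h6 : F i ∣ (∏ l ∈ Finset.univ.erase i, F l) *
        (((n i : ℕ) : MvPolynomial (Fin N) ℂ) * D (F i)) := by
      have h7 := h4
      rw [← Finset.add_sum_erase Finset.univ _ (Finset.mem_univ i)] at h7
      have h8 : F i ∣ ∑ x ∈ Finset.univ.erase i, ((n x : ℕ) : MvPolynomial (Fin N) ℂ) *
          (D (F x) * ∏ l ∈ Finset.univ.erase x, F l) := by
        refine Finset.dvd_sum fun x hx => ?_
        refine Dvd.dvd.mul_left (Dvd.dvd.mul_left (Finset.dvd_prod_of_mem _ ?_) _) _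
        rw [Finset.mem_erase]
        exact ⟨Ne.symm (Finset.ne_of_mem_erase hx), Finset.mem_univ i⟩
      have h9 := (Dvd.dvd.neg_right h8)
      rw [← eq_neg_iff_add_eq_zero.2 h7] at h9
      convert h9 using 1
      ring
    have h7 := copr_prod_w hN wt hwt F e hF he hC i _ (Finset.notMem_erase i _) _ h6
    obtain ⟨c, hc⟩ := h7
    refine ⟨C ((n i : ℂ)⁻¹) * c, ?_⟩
    have h8 : (n i : ℂ) ≠ 0 := by
      have := hn i
      exact_mod_cast (by omega : n i ≠ 0)
    have h9 : (C ((n i : ℂ)⁻¹) : MvPolynomial (Fin N) ℂ) * ((n i : ℕ) : MvPolynomial (Fin N) ℂ) = 1 := by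
      rw [← map_natCast (C : ℂ →+* MvPolynomial (Fin N) ℂ), ← map_mul, inv_mul_cancel₀ h8, map_one]
    calc D (F i) = (C ((n i : ℂ)⁻¹) * ((n i : ℕ) : MvPolynomial (Fin N) ℂ)) * D (F i) := by
          rw [h9, one_mul]
      _ = C ((n i : ℂ)⁻¹) * (((n i : ℕ) : MvPolynomial (Fin N) ℂ) * D (F i)) := by ring
      _ = _ := by rw [hc]; ring
  choose θ hθ using h5
  have h6 : ∑ i, ((n i : ℕ) : MvPolynomial (Fin N) ℂ) * θ i = 0 := by
    have h7 : (∏ l, F l) * ∑ i, ((n i : ℕ) : MvPolynomial (Fin N) ℂ) * θ i = 0 := by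
      rw [← h4, Finset.mul_sum]
      refine Finset.sum_congr rfl fun i _ => ?_
      rw [hθ i, ← Finset.mul_prod_erase Finset.univ F (Finset.mem_univ i)]
      ring
    rcases mul_eq_zero.1 h7 with h8 | h8
    · rw [Finset.prod_eq_zero_iff] at h8
      obtain ⟨i, _, hi⟩ := h8
      exact absurd hi (hne i)
    · exact h8
  set Q : ℕ := ∑ l, (m l + n l * k) * e l with hQ
  set η := ii Θ (vol : Om (Fin N) (MvPolynomial (Fin N) ℂ)) with hη
  have hηq : IsTot wt (Q + ∑ i, wt i) η := tot_ii_vol wt Q Θ hΘ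
  have hdη : dd η = (∏ i, F i ^ (m i + n i * k)) • vol := by
    rw [hη, dd_ii_vol, h2]
  have h7 := euler_tot wt _ η hηq
  rw [hdη, map_smul] at h7
  refine PW_of wt F _ _ (ii (EE wt) η) (fun i => ((e i : ℕ) : ℂ) • η - θ i • OmW wt)
    (fun i => ?_) ?_
  · change ee (grad (F i)) _ = _
    have h8 := ii_ee (EE wt) (grad (F i)) η
    rw [hη, ee_ii_vol, ← hη] at h8
    have h9 : ∑ j, Θ j * grad (F i) j = F i * θ i := by
      rw [← hθ i, hDa]
      rfl
    have h10 : ∑ j, EE wt j * grad (F i) j = C (e i : ℂ) * F i := euler_w wt (F i) (e i) (hF i)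
    rw [h9, h10, map_smul] at h8
    have h11 : ee (grad (F i)) (ii (EE wt) η) =
        (C (e i : ℂ) * F i) • η - (F i * θ i) • ii (EE wt) vol := by
      rw [h8]
      abel
    rw [h11, smul_sub, mul_smul]
    congr 1
    · rw [smul_comm]
      congr 1
      funext S
      rw [Pi.smul_apply, Pi.smul_apply, smul_eq_mul, C_mul']
    · rw [mul_smul]
      rfl
  · have hd1 : (d : ℂ) ≠ 0 := by exact_mod_cast hd0.ne'
    set W : ℂ := ((∑ j, wt j + ∑ l, m l * e l : ℕ) : ℂ) with hW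
    have h12 : ∑ i, (n i : ℂ) * (e i : ℂ) = d := by
      rw [hd]
      push_cast
      rfl
    have h8 : ∑ i, (W * n i / d - m i + ((m i + n i * k : ℕ) : ℂ)) •
        (((e i : ℕ) : ℂ) • η - θ i • OmW wt) = (W + d * k) • η := by
      have h9 : ∀ i, (W * n i / d - m i + ((m i + n i * k : ℕ) : ℂ)) •
          (((e i : ℕ) : ℂ) • η - θ i • OmW wt) =
          ((W / d + k) * (n i * e i)) • η - (W / d + k) • ((n i : ℂ) • θ i • OmW wt) := by
        intro i
        rw [smul_sub, smul_smul, smul_smul]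
        congr 2
        · push_cast
          ring
        · push_cast
          ring
      rw [Finset.sum_congr rfl fun i _ => h9 i, Finset.sum_sub_distrib, ← Finset.sum_smul,
        ← Finset.mul_sum, ← Finset.smul_sum]
      have h10 : ∑ i, (n i : ℂ) • θ i • OmW wt = 0 := by
        have h11 : ∑ i, (n i : ℂ) • θ i • OmW wt =
            (∑ i, ((n i : ℕ) : MvPolynomial (Fin N) ℂ) * θ i) • OmW wt := by
          rw [Finset.sum_smul]
          refine Finset.sum_congr rfl fun i _ => ?_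
          rw [mul_smul, Nat.cast_smul_eq_nsmul, Nat.cast_smul_eq_nsmul]
        rw [h11, h6, zero_smul]
      rw [h10, smul_zero, sub_zero]
      congr 1
      rw [h12, add_mul, div_mul_cancel₀ _ hd1]
      ring
    rw [h8]
    have h9 : ((Q + ∑ i, wt i : ℕ) : ℂ) = W + d * k := by
      rw [hQ, hW, hd]
      push_cast
      simp only [add_mul, Finset.sum_add_distrib, Finset.sum_mul]
      have h13 : ∑ i, (n i : ℂ) * k * e i = ∑ i, (n i : ℂ) * e i * k :=
        Finset.sum_congr rfl fun i _ => by ring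
      rw [h13]
      ring
    rw [h9] at h7
    rw [← h7, OmW]
    abel

end Pool.Agent.Helper48.SW
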