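import Pool.Agent.Helper48.SW.Expl
import Pool.Agent.Helper48.SW.InitG

set_option autoImplicit false
set_option linter.unusedSectionVars false

/-! # Forms which have normal crossings in a chart -/

namespace Pool.Agent.Helper48.SW

open Finset MvPolynomial Pool.Agent.H628R4.TP Pool.Agent.K3h38.SM Pool.Agent.Helper48.SN

section Det

variable {N : ℕ} {R : Type} [CommRing R] [Algebra ℂ R]

theorem deriv_finset_prod {κ : Type} [DecidableEq κ] (D : Derivation ℂ R R) (f : κ → R)
    (s : Finset κ) : D (∏ i ∈ s, f i) = ∑ i ∈ s, D (f i) * ∏ j ∈ s.erase i, f j := by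
  induction s using Finset.induction_on with
  | empty => rw [prod_empty, sum_empty, D.map_one_eq_zero]
  | insert a s ha ih =>
    rw [prod_insert ha, D.leibniz, ih, sum_insert ha, erase_insert ha, smul_eq_mul, smul_eq_mul,
      add_comm, mul_comm (∏ i ∈ s, f i), mul_sum]
    congr 1
    refine Finset.sum_congr rfl fun i hi => ?_
    have h1 : a ≠ i := fun h => ha (h ▸ hi)
    rw [erase_insert_of_ne h1, prod_insert (fun h => ha (mem_of_mem_erase h))]
    ring

/-- Jacobi's formula -/
theorem deriv_det (D : Derivation ℂ R R) (M : Matrix (Fin N) (Fin N) R) :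
    D M.det = ∑ i, ∑ j, M.adjugate i j * D (M j i) := by
  classical
  have h1 : ∀ i, ∑ j, M.adjugate i j * D (M j i) =
      (M.updateCol i (fun j => D (M j i))).det := by
    intro i
    rw [← Matrix.cramer_apply, Matrix.cramer_eq_adjugate_mulVec]
    rfl
  rw [Finset.sum_congr rfl fun i _ => h1 i, Matrix.det_apply, map_sum]
  have h2 : ∀ i, (M.updateCol i (fun j => D (M j i))).det = ∑ σ : Equiv.Perm (Fin N),
      Equiv.Perm.sign σ • (D (M (σ i) i) * ∏ j ∈ Finset.univ.erase i, M (σ j) j) := by
    intro i
    rw [Matrix.det_apply]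
    refine Finset.sum_congr rfl fun σ _ => ?_
    rw [← Finset.mul_prod_erase Finset.univ _ (Finset.mem_univ i), Matrix.updateCol_self]
    congr 2
    refine Finset.prod_congr rfl fun j hj => ?_
    rw [Matrix.updateCol_ne (Finset.ne_of_mem_erase hj)]
  rw [Finset.sum_congr rfl fun i _ => h2 i, Finset.sum_comm]
  refine Finset.sum_congr rfl fun σ _ => ?_
  rw [← Finset.smul_sum, ← deriv_finset_prod]
  rcases Int.units_eq_one_or (Equiv.Perm.sign σ) with h | h
  · rw [h, one_smul, one_smul]
  · rw [h, Units.neg_smul, one_smul, Units.neg_smul, one_smul, map_neg]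

end Det

section Pull

variable {N : ℕ} (h : Fin N → MvPolynomial (Fin N) ℂ)

/-- the Jacobian matrix: rows are the components of `h`, columns are the variables -/
noncomputable def jac : Matrix (Fin N) (Fin N) (MvPolynomial (Fin N) ℂ) :=
  Matrix.of fun j i => pderiv i (h j)

theorem pderiv_aeval (i : Fin N) (p : MvPolynomial (Fin N) ℂ) :
    pderiv i (aeval h p) = ∑ j, aeval h (pderiv j p) * pderiv i (h j) := by
  induction p using MvPolynomial.induction_on with
  | C a =>
    have h1 : aeval h (C a : MvPolynomial (Fin N) ℂ) = C a := aeval_C _ _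
    rw [h1, pderiv_C]
    symm
    refine Finset.sum_eq_zero fun j _ => ?_
    rw [pderiv_C, map_zero, zero_mul]
  | add p q hp hq =>
    rw [map_add, map_add, hp, hq, ← Finset.sum_add_distrib]
    refine Finset.sum_congr rfl fun j _ => ?_
    rw [map_add, map_add, add_mul]
  | mul_X p n hp =>
    rw [map_mul, pderiv_mul, hp, aeval_X]
    have h1 : ∀ j, aeval h (pderiv j (p * X n)) * pderiv i (h j) =
        aeval h (pderiv j p) * pderiv i (h j) * h n +
          if n = j then aeval h p * pderiv i (h j) else 0 := by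
      intro j
      rw [pderiv_mul, pderiv_X, map_add, map_mul, map_mul, aeval_X]
      split_ifs with hj
      · rw [hj, Pi.single_eq_same, map_one]
        ring
      · rw [Pi.single_eq_of_ne hj, map_zero]
        ring
    rw [Finset.sum_congr rfl fun j _ => h1 j, Finset.sum_add_distrib, Finset.sum_mul,
      Finset.sum_ite_eq, if_pos (Finset.mem_univ n)]

/-- Piola's identity -/
theorem piola (hJ : (jac h).det ≠ 0) (j : Fin N) :
    ∑ i, pderiv i ((jac h).adjugate i j) = 0 := by
  classical
  set M := jac h with hM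
  set T : Fin N → MvPolynomial (Fin N) ℂ := fun j => ∑ i, pderiv i (M.adjugate i j) with hT
  have h1 : ∀ p, ∑ j, T j * M j p = 0 := by
    intro p
    have h2 : ∀ i, ∑ j, M.adjugate i j * M j p = if i = p then M.det else 0 := by
      intro i
      have h3 := congrFun (congrFun (Matrix.adjugate_mul M) i) p
      rw [Matrix.mul_apply, Matrix.smul_apply, Matrix.one_apply, smul_eq_mul] at h3
      rw [h3]
      split_ifs
      · rw [mul_one]
      · rw [mul_zero]
    have h3 : ∑ i, pderiv i (∑ j, M.adjugate i j * M j p) = pderiv p M.det := by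
      rw [Finset.sum_congr rfl fun i _ => by rw [h2 i]]
      rw [Finset.sum_eq_single p]
      · rw [if_pos rfl]
      · intro i _ hi
        rw [if_neg hi, map_zero]
      · intro h4
        exact absurd (Finset.mem_univ p) h4
    have h4 : ∑ i, pderiv i (∑ j, M.adjugate i j * M j p) =
        ∑ j, T j * M j p + ∑ i, ∑ j, M.adjugate i j * pderiv p (M j i) := by
      have h5 : ∀ i, pderiv i (∑ j, M.adjugate i j * M j p) =
          ∑ j, pderiv i (M.adjugate i j) * M j p + ∑ j, M.adjugate i j * pderiv p (M j i) := by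
        intro i
        rw [map_sum, ← Finset.sum_add_distrib]
        refine Finset.sum_congr rfl fun j _ => ?_
        have h6 : pderiv i (M j p) = pderiv p (M j i) := pderiv_comm i p (h j)
        rw [pderiv_mul, h6]
      rw [Finset.sum_congr rfl fun i _ => h5 i, Finset.sum_add_distrib]
      congr 1
      rw [Finset.sum_comm]
      refine Finset.sum_congr rfl fun j _ => ?_
      rw [hT, Finset.sum_mul]
    rw [h3, deriv_det] at h4
    exact (right_eq_add.1 h4)
  have h2 : ∀ l, M.det * T l = 0 := by
    intro l
    have h3 : ∑ p, (∑ j, T j * M j p) * M.adjugate p l = M.det * T l := by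
      simp only [Finset.sum_mul]
      rw [Finset.sum_comm]
      have h4 : ∀ j, ∑ p, T j * M j p * M.adjugate p l = T j * (M * M.adjugate) j l := by
        intro j
        rw [Matrix.mul_apply, Finset.mul_sum]
        exact Finset.sum_congr rfl fun p _ => by ring
      rw [Finset.sum_congr rfl fun j _ => h4 j, Matrix.mul_adjugate]
      rw [Finset.sum_eq_single l]
      · rw [Matrix.smul_apply, Matrix.one_apply_eq, smul_eq_mul, mul_one, mul_comm]
      · intro j _ hj
        rw [Matrix.smul_apply, Matrix.one_apply_ne hj, smul_zero, mul_zero]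
      · intro h5
        exact absurd (Finset.mem_univ l) h5
    rw [← h3]
    exact Finset.sum_eq_zero fun p _ => by rw [h1, zero_mul]
  exact (mul_eq_zero.1 (h2 j)).resolve_left hJ

/-- the pull-back of a vector field, times the Jacobian determinant -/
noncomputable def pull (Θ : Fin N → MvPolynomial (Fin N) ℂ) (i : Fin N) :
    MvPolynomial (Fin N) ℂ := ∑ j, (jac h).adjugate i j * aeval h (Θ j)

theorem adj_col (l j : Fin N) : ∑ i, (jac h).adjugate i j * pderiv i (h l) =
    if l = j then (jac h).det else 0 := by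
  have h3 := congrFun (congrFun (Matrix.mul_adjugate (jac h)) l) j
  rw [Matrix.mul_apply, Matrix.smul_apply, Matrix.one_apply, smul_eq_mul] at h3
  have h4 : ∑ i, (jac h).adjugate i j * pderiv i (h l) = ∑ i, jac h l i * (jac h).adjugate i j := by
    refine Finset.sum_congr rfl fun i _ => ?_
    rw [mul_comm]
    rfl
  rw [h4, h3]
  split_ifs
  · rw [mul_one]
  · rw [mul_zero]

theorem pull_apply (Θ : Fin N → MvPolynomial (Fin N) ℂ) (p : MvPolynomial (Fin N) ℂ) :
    ∑ i, pull h Θ i * pderiv i (aeval h p) = (jac h).det * aeval h (∑ j, Θ j * pderiv j p) := by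
  classical
  have h1 : ∀ i, pull h Θ i * pderiv i (aeval h p) = ∑ j, ∑ l,
      aeval h (Θ j) * aeval h (pderiv l p) * ((jac h).adjugate i j * pderiv i (h l)) := by
    intro i
    rw [pull, pderiv_aeval, Finset.sum_mul]
    refine Finset.sum_congr rfl fun j _ => ?_
    rw [Finset.mul_sum]
    exact Finset.sum_congr rfl fun l _ => by ring
  rw [Finset.sum_congr rfl fun i _ => h1 i, Finset.sum_comm, map_sum, Finset.mul_sum]
  refine Finset.sum_congr rfl fun j _ => ?_
  rw [Finset.sum_comm]
  have h2 : ∀ l, ∑ i, aeval h (Θ j) * aeval h (pderiv l p) *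
      ((jac h).adjugate i j * pderiv i (h l)) =
      if l = j then aeval h (Θ j) * aeval h (pderiv l p) * (jac h).det else 0 := by
    intro l
    rw [← Finset.mul_sum, adj_col]
    split_ifs
    · rfl
    · rw [mul_zero]
  rw [Finset.sum_congr rfl fun l _ => h2 l, Finset.sum_ite_eq', if_pos (Finset.mem_univ j), map_mul]
  ring

theorem pull_div (hJ : (jac h).det ≠ 0) (Θ : Fin N → MvPolynomial (Fin N) ℂ) :
    ∑ i, pderiv i (pull h Θ i) = (jac h).det * aeval h (∑ j, pderiv j (Θ j)) := by
  classical
  have h1 : ∀ i, pderiv i (pull h Θ i) = ∑ j, pderiv i ((jac h).adjugate i j) * aeval h (Θ j) +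
      ∑ j, ∑ l, aeval h (pderiv l (Θ j)) * ((jac h).adjugate i j * pderiv i (h l)) := by
    intro i
    rw [pull, map_sum, ← Finset.sum_add_distrib]
    refine Finset.sum_congr rfl fun j _ => ?_
    have h5 : (jac h).adjugate i j * pderiv i (aeval h (Θ j)) =
        ∑ l, aeval h (pderiv l (Θ j)) * ((jac h).adjugate i j * pderiv i (h l)) := by
      rw [pderiv_aeval, Finset.mul_sum]
      exact Finset.sum_congr rfl fun l _ => by ring
    rw [pderiv_mul, h5]
  rw [Finset.sum_congr rfl fun i _ => h1 i, Finset.sum_add_distrib, Finset.sum_comm]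
  have h2 : ∑ j, ∑ i, pderiv i ((jac h).adjugate i j) * aeval h (Θ j) = 0 := by
    refine Finset.sum_eq_zero fun j _ => ?_
    rw [← Finset.sum_mul, piola h hJ, zero_mul]
  rw [h2, zero_add, Finset.sum_comm, map_sum, Finset.mul_sum]
  refine Finset.sum_congr rfl fun j _ => ?_
  rw [Finset.sum_comm]
  have h3 : ∀ l, ∑ i, aeval h (pderiv l (Θ j)) * ((jac h).adjugate i j * pderiv i (h l)) =
      if l = j then aeval h (pderiv l (Θ j)) * (jac h).det else 0 := by
    intro l
    rw [← Finset.mul_sum, adj_col]
    split_ifs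
    · rfl
    · rw [mul_zero]
  rw [Finset.sum_congr rfl fun l _ => h3 l, Finset.sum_ite_eq', if_pos (Finset.mem_univ j)]
  ring

end Pull

end Pool.Agent.Helper48.SW
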