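import Pool.Agent.Helper48.SW.Chart

set_option autoImplicit false
set_option linter.unusedSectionVars false

/-! # Forms which have normal crossings in a chart: non-exactness -/

namespace Pool.Agent.Helper48.SW

open Finset MvPolynomial Pool.Agent.H628R4.TP Pool.Agent.K3h38.SM Pool.Agent.Helper48.SN

/-- `φ` has normal crossings in a chart -/
def ChartForm {c : ℕ} (φ : MvPolynomial (Fin c) ℂ) : Prop :=
  2 ≤ c ∧ ∃ (v : Fin c → ℕ) (h : Fin c → MvPolynomial (Fin c) ℂ) (a : ℂ) (ι : Type)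
    (_ : Fintype ι) (F : ι → MvPolynomial (Fin c) ℂ) (e n m : ι → ℕ),
    (∀ i, 0 < v i) ∧ (∀ i, IsWeightedHomogeneous v (F i) (e i)) ∧ (∀ i, 0 < e i) ∧
    (∀ i, 1 ≤ n i) ∧ SNC F ∧
    (¬ LinearIndependent ℂ fun (i : ι) (j : Fin c) => eval 0 (pderiv j (F i))) ∧ a ≠ 0 ∧
    (Matrix.of fun j i => pderiv i (h j)).det = C a * ∏ i, F i ^ m i ∧
    aeval h φ = ∏ i, F i ^ n i ∧
    ∀ (i : ι) (l : ℕ), n i * (∑ j, v j + ∑ j, m j * e j) + l * ∑ j, n j * e j ≠
      m i * ∑ j, n j * e j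

theorem hom_pderiv_w {N : ℕ} (v : Fin N → ℕ) (p : MvPolynomial (Fin N) ℂ) (n : ℕ)
    (hp : IsWeightedHomogeneous v p n) (i : Fin N) :
    pderiv i p = 0 ∨ ∃ b, b + v i = n ∧ IsWeightedHomogeneous v (pderiv i p) b := by
  by_cases h : pderiv i p = 0
  · exact Or.inl h
  · right
    have h1 : v i ≤ n := by
      by_contra h2
      exact h (pderiv_zero_of_lt' v n p hp i (by omega))
    refine ⟨n - v i, by omega, fun m hm => ?_⟩
    rw [coeff_pderiv] at hm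
    have h2 : coeff (m + Finsupp.single i 1) p ≠ 0 := fun h3 => hm (by rw [h3, zero_mul])
    have h3 := hp h2
    rw [map_add, Finsupp.weight_single, one_smul] at h3
    omega

theorem comp_field {N : ℕ} (v : Fin N → ℕ) (ψ P : MvPolynomial (Fin N) ℂ) (d Q : ℕ) (a : ℂ)
    (ha : a ≠ 0) (hψ : IsWeightedHomogeneous v ψ d) (hP : IsWeightedHomogeneous v P Q)
    (Θ : Fin N → MvPolynomial (Fin N) ℂ) (h1 : ∑ i, Θ i * pderiv i ψ = 0)
    (h2 : ∑ i, pderiv i (Θ i) = C a * P) :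
    ∃ Θ' : Fin N → MvPolynomial (Fin N) ℂ, (∀ i, IsWeightedHomogeneous v (Θ' i) (Q + v i)) ∧
      ∑ i, Θ' i * pderiv i ψ = 0 ∧ ∑ i, pderiv i (Θ' i) = P := by
  refine ⟨fun i => C a⁻¹ * pc v (Q + v i) (Θ i), fun i => ?_, ?_, ?_⟩
  · exact IsWeightedHomogeneous.C_mul
      (weightedHomogeneousComponent_isWeightedHomogeneous (Q + v i) (Θ i)) a⁻¹
  · have h7 : ∀ i, C a⁻¹ * pc v (Q + v i) (Θ i) * pderiv i ψ =
        C a⁻¹ * pc v (d + Q) (Θ i * pderiv i ψ) := by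
      intro i
      rcases hom_pderiv_w v ψ d hψ i with h8 | ⟨b, hb, h8⟩
      · rw [h8, mul_zero, mul_zero, map_zero, mul_zero]
      · have h9 := pc_mul v (pderiv i ψ) b h8 (Q + v i) (Θ i)
        rw [show b + (Q + v i) = d + Q by omega] at h9
        rw [mul_comm (Θ i), h9]
        ring
    rw [Finset.sum_congr rfl fun i _ => h7 i, ← Finset.mul_sum, ← map_sum, h1, map_zero, mul_zero]
  · have h8 : ∀ i, pderiv i (C a⁻¹ * pc v (Q + v i) (Θ i)) =
        C a⁻¹ * pc v Q (pderiv i (Θ i)) := by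
      intro i
      rw [pderiv_C_mul, pc_pderiv]
    rw [Finset.sum_congr rfl fun i _ => h8 i, ← Finset.mul_sum, ← map_sum, h2,
      pc_self v Q _ (IsWeightedHomogeneous.C_mul hP a), ← mul_assoc, ← C_mul, inv_mul_cancel₀ ha,
      C_1, one_mul]

theorem prod_hom_w {N : ℕ} {ι : Type} [Fintype ι] (v : Fin N → ℕ)
    (F : ι → MvPolynomial (Fin N) ℂ) (e : ι → ℕ)
    (hF : ∀ i, IsWeightedHomogeneous v (F i) (e i)) (n : ι → ℕ) :
    IsWeightedHomogeneous v (∏ i, F i ^ n i) (∑ i, n i * e i) := by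
  refine IsWeightedHomogeneous.prod _ _ _ fun i _ => ?_
  have h5 := (hF i).pow (n i)
  rwa [smul_eq_mul] at h5

theorem ChartForm.not_exact {c : ℕ} {φ : MvPolynomial (Fin c) ℂ} (hφ : ChartForm φ) (k : ℕ)
    (Θ : Fin c → MvPolynomial (Fin c) ℂ) (h1 : ∑ i, Θ i * pderiv i φ = 0)
    (h2 : ∑ i, pderiv i (Θ i) = φ ^ k) : False := by
  classical
  obtain ⟨hc, v, h, a, ι, _, F, e, n, m, hv, hF, he, hn, hS, hli, ha, hJ, hψ, hlam⟩ := hφ
  have hne : ∀ k, F k ≠ 0 := F_ne (by omega) F hS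
  have hr : Nonempty ι := by
    by_contra hcon
    rw [not_nonempty_iff] at hcon
    exact hli linearIndependent_empty_type
  have hd0 : 0 < ∑ j, n j * e j := by
    obtain ⟨i⟩ := hr
    exact Finset.sum_pos (fun i _ => Nat.mul_pos (hn i) (he i)) ⟨i, Finset.mem_univ i⟩
  have hdet : (jac h).det = C a * ∏ i, F i ^ m i := hJ
  have hdet0 : (jac h).det ≠ 0 := by
    rw [hdet]
    refine mul_ne_zero ?_ (Finset.prod_ne_zero_iff.2 fun i _ => pow_ne_zero _ (hne i))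
    rwa [Ne, C_eq_zero]
  have h3 : ∑ i, pull h Θ i * pderiv i (∏ i, F i ^ n i) = 0 := by
    rw [← hψ, pull_apply, h1, map_zero, mul_zero]
  have h9 : (C a * ∏ i, F i ^ m i) * (∏ i, F i ^ n i) ^ k = C a * ∏ i, F i ^ (m i + n i * k) := by
    rw [← Finset.prod_pow, mul_assoc, ← Finset.prod_mul_distrib]
    have h10 : ∀ i, F i ^ m i * (F i ^ n i) ^ k = F i ^ (m i + n i * k) := fun i => by
      rw [pow_add, pow_mul]
    rw [Finset.prod_congr rfl fun i _ => h10 i]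
  have h4 : ∑ i, pderiv i (pull h Θ i) = C a * ∏ i, F i ^ (m i + n i * k) := by
    rw [pull_div h hdet0, h2, map_pow, hψ, hdet, h9]
  obtain ⟨Θ', h5, h6, h7⟩ := comp_field v _ _ _ _ a ha (prod_hom_w v F e hF n)
    (prod_hom_w v F e hF fun i => m i + n i * k) _ h3 h4
  have hC := compW_of_snc v hv F e hF hS
  have h8 := init_PWG hc v hv F e hF he hS hC n m hn _ rfl hd0 k Θ' h5 h6 h7
  refine no_PW hc v hv F e hF he hS hli _ (reduce_all_w hc v hv F e hF he hS hC _ ?_ _ _ rfl h8)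
  intro i l h9
  apply hlam i l
  have hdC : ((∑ j, n j * e j : ℕ) : ℂ) ≠ 0 := by exact_mod_cast hd0.ne'
  have h10 : ((∑ j, v j + ∑ l, m l * e l : ℕ) : ℂ) * n i + l * ((∑ j, n j * e j : ℕ) : ℂ) =
      m i * ((∑ j, n j * e j : ℕ) : ℂ) := by
    have h11 := congrArg (fun z => z * ((∑ j, n j * e j : ℕ) : ℂ)) h9
    simp only [zero_mul, add_mul, sub_mul, div_mul_cancel₀ _ hdC] at h11
    linear_combination h11
  have h12 : (∑ j, v j + ∑ l, m l * e l) * n i + l * (∑ j, n j * e j) = m i * ∑ j, n j * e j := by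
    exact_mod_cast h10
  rw [← h12]
  ring

end Pool.Agent.Helper48.SW
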