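import Pool.Agent.Helper48.SW.KoszulW
import Pool.Agent.Helper48.SN.Divi
import Pool.Agent.Helper48.SN.Near

set_option autoImplicit false
set_option linter.unusedSectionVars false

/-! # The division lemma for weighted homogeneous hypersurfaces with normal crossings -/

namespace Pool.Agent.Helper48.SW

open Finset MvPolynomial Pool.Agent.H119.LSS Pool.Agent.Helper48.SN

variable {N : ℕ} {ι : Type} [DecidableEq ι]

/-- the forms in the list can be completed by weighted homogeneous ones to a system without zeros -/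
def CompW (w : Fin N → ℕ) (F : ι → MvPolynomial (Fin N) ℂ) : Prop :=
  ∀ l : List ι, l.Nodup → l.length ≤ N → ∃ G : ℕ → MvPolynomial (Fin N) ℂ,
    (∀ i, ∃ k, 0 < k ∧ IsWeightedHomogeneous w (G i) k) ∧
      ∀ x : Fin N → ℂ, (∀ k ∈ l, eval x (F k) = 0) →
      (∀ i < N - l.length, eval x (G i) = 0) → x = 0

theorem seq_reg_w (w : Fin N → ℕ) (hw : ∀ i, 0 < w i) (F : ι → MvPolynomial (Fin N) ℂ)
    (e : ι → ℕ) (hF : ∀ k, IsWeightedHomogeneous w (F k) (e k))
    (he : ∀ k, 0 < e k) (l : List ι) (hl : l.length ≤ N) (G : ℕ → MvPolynomial (Fin N) ℂ)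
    (hG : ∀ i, ∃ k, 0 < k ∧ IsWeightedHomogeneous w (G i) k)
    (hz : ∀ x : Fin N → ℂ, (∀ k ∈ l, eval x (F k) = 0) →
      (∀ i < N - l.length, eval x (G i) = 0) → x = 0) (M : ℕ) (hM : 0 < M) :
    RegPart fun i : Fin N => seq F l G M i := by
  refine reg_of_zero_w w hw _ (fun i => ?_) (fun x hx => ?_)
  · rw [seq]
    split_ifs with h
    · exact ⟨_, he _, hF _⟩
    · obtain ⟨k, hk, hk'⟩ := hG (i - l.length)
      exact ⟨M * k, Nat.mul_pos hM hk, by simpa using hk'.pow M⟩
  · refine hz x (fun k hk => ?_) (fun i hi => ?_)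
    · obtain ⟨i, hi, rfl⟩ := List.getElem_of_mem hk
      have := hx ⟨i, by omega⟩
      rwa [seq, dif_pos hi] at this
    · have := hx ⟨i + l.length, by omega⟩
      rw [seq, dif_neg (by simp), Nat.add_sub_cancel, map_pow] at this
      exact pow_eq_zero_iff (by omega) |>.1 this

/-- the multipliers -/
def CCg (F : ι → MvPolynomial (Fin N) ℂ) (l l0 : List ι) : Ideal (MvPolynomial (Fin N) ℂ) where
  carrier := {a | ∀ l', l' <:+ l → ∀ J : Ideal (MvPolynomial (Fin N) ℂ), FI F l0 ≤ J →
    ∀ ω, WW (TT F) l' ω ∈ cf J → a • ω ∈ IM (TT F) l' ⊔ cf J}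
  add_mem' h1 h2 l' hl' J hJ ω hω := by
    rw [add_smul]
    exact Submodule.add_mem _ (h1 l' hl' J hJ ω hω) (h2 l' hl' J hJ ω hω)
  zero_mem' l' hl' J hJ ω hω := by
    rw [zero_smul]
    exact Submodule.zero_mem _
  smul_mem' c a h l' hl' J hJ ω hω := by
    rw [smul_eq_mul, mul_smul]
    exact Submodule.smul_mem _ c (h l' hl' J hJ ω hω)

/-- vector fields dual to the differentials, up to a factor which does not vanish at the point -/
theorem dual_fields (F : ι → MvPolynomial (Fin N) ℂ) (l : List ι) (x : Fin N → ℂ)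
    (hli : LinearIndependent ℂ fun (i : l.toFinset) (j : Fin N) => eval x (pderiv j (F i))) :
    ∃ (c : MvPolynomial (Fin N) ℂ) (v : ι → Fin N → MvPolynomial (Fin N) ℂ), eval x c = 1 ∧
      ∀ k ∈ l, ∀ m ∈ l, ∑ j, v k j * grad (F m) j = if k = m then c else 0 := by
  classical
  obtain ⟨V, hVd⟩ := dual_vectors _ hli
  set M : Matrix l.toFinset l.toFinset (MvPolynomial (Fin N) ℂ) :=
    Matrix.of fun k m => ∑ j, C (V k j) * grad (F m) j with hM
  set c := M.det with hc
  have hcx : eval x c = 1 := by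
    rw [hc, RingHom.map_det]
    have : (eval x).mapMatrix M = 1 := by
      ext k m
      rw [RingHom.mapMatrix_apply, Matrix.map_apply, hM, Matrix.of_apply, map_sum,
        Matrix.one_apply, ← hVd k m]
      refine Finset.sum_congr rfl fun j _ => ?_
      rw [map_mul, eval_C, grad]
    rw [this, Matrix.det_one]
  set v : ι → Fin N → MvPolynomial (Fin N) ℂ := fun k j =>
    if h : k ∈ l.toFinset then ∑ k', M.adjugate ⟨k, h⟩ k' * C (V k' j) else 0 with hv
  refine ⟨c, v, hcx, ?_⟩
  intro k hk m hm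
  have hk' := List.mem_toFinset.2 hk
  have hm' := List.mem_toFinset.2 hm
  have h6 := congrFun (congrFun (Matrix.adjugate_mul M) ⟨k, hk'⟩) ⟨m, hm'⟩
  rw [Matrix.mul_apply, Matrix.smul_apply, Matrix.one_apply] at h6
  have h7 : ∑ j, v k j * grad (F m) j =
      ∑ k', M.adjugate ⟨k, hk'⟩ k' * M k' ⟨m, hm'⟩ := by
    simp only [hv, dif_pos hk', hM, Matrix.of_apply, Finset.mul_sum, Finset.sum_mul]
    rw [Finset.sum_comm]
    refine Finset.sum_congr rfl fun k' _ => Finset.sum_congr rfl fun j _ => ?_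
    ring
  rw [h7, h6, ← hc]
  by_cases hkm : k = m
  · subst hkm
    simp
  · rw [if_neg hkm, if_neg (by simpa using hkm), smul_zero]

theorem CCg_zero (F : ι → MvPolynomial (Fin N) ℂ) (l l0 : List ι) (hl : l.Nodup)
    (hli : ∀ x : Fin N → ℂ, x ≠ 0 → (∀ k ∈ l0, eval x (F k) = 0) →
      LinearIndependent ℂ fun (i : l.toFinset) (j : Fin N) => eval x (pderiv j (F i)))
    (x : Fin N → ℂ) (hx : ∀ p ∈ CCg F l l0, eval x p = 0) : x = 0 := by
  classical
  by_contra hx0
  by_cases h1 : ∃ k ∈ l0, eval x (F k) ≠ 0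
  · obtain ⟨k, hk, h2⟩ := h1
    apply h2
    apply hx
    intro l' _ J hJ ω _
    refine Submodule.mem_sup_right fun S => ?_
    rw [Pi.smul_apply, smul_eq_mul]
    exact Ideal.mul_mem_right _ _ (hJ (FI_mem F hk))
  push Not at h1
  obtain ⟨c, v, hcx, hvd⟩ := dual_fields F l x (hli x hx0 h1)
  have hmem : c ^ l.length ∈ CCg F l l0 := by
    intro l' hl' J hJ ω hω
    have h8 := good F v c J l' (hl.sublist hl'.sublist) (fun k hk m hm => hvd k (hl'.subset hk) m
      (hl'.subset hm)) ω hω
    have h9 : l'.length ≤ l.length := hl'.length_le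
    obtain ⟨q, hq⟩ := Nat.exists_eq_add_of_le' h9
    rw [hq, pow_add, mul_smul]
    exact Submodule.smul_mem _ _ h8
  have h10 := hx _ hmem
  rw [map_pow, hcx, one_pow] at h10
  exact one_ne_zero h10

/-- **The division lemma**, modulo the ideal of a second system. -/
theorem divisionG (w : Fin N → ℕ) (hw : ∀ i, 0 < w i) (F : ι → MvPolynomial (Fin N) ℂ) (e : ι → ℕ)
    (hF : ∀ k, IsWeightedHomogeneous w (F k) (e k)) (he : ∀ k, 0 < e k) (hC : CompW w F)
    (l l0 : List ι) (hl : l.Nodup) (hl0 : l0.Nodup) (hlN : l0.length ≤ N)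
    (hli : ∀ x : Fin N → ℂ, x ≠ 0 → (∀ k ∈ l0, eval x (F k) = 0) →
      LinearIndependent ℂ fun (i : l.toFinset) (j : Fin N) => eval x (pderiv j (F i)))
    (p : ℤ) (hp : p < (N : ℤ) - l0.length)
    (ω : Om (Fin N) (MvPolynomial (Fin N) ℂ)) (hω : pr p ω = ω)
    (hW : WW (TT F) l ω ∈ cf (FI F l0)) : ω ∈ IM (TT F) l ⊔ cf (FI F l0) := by
  classical
  rcases lt_or_ge p 0 with hp0 | hp0
  · rw [← hω, pr_neg p hp0]
    exact Submodule.zero_mem _
  obtain ⟨G, hG, hz⟩ := hC l0 hl0 hlN
  have h1 : ∀ i, ∃ M, G i ^ M ∈ CCg F l l0 := by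
    intro i
    refine pow_mem_of_zero (CCg F l l0) (fun x hx => CCg_zero F l l0 hl hli x hx) (G i) ?_
    by_contra h0
    obtain ⟨k, hk, hk'⟩ := hG i
    have h2 : coeff 0 (G i) ≠ 0 := by rwa [← constantCoeff_eq, ← eval_zero]
    have h3 := hk' h2
    rw [map_zero] at h3
    omega
  choose M hM using h1
  set MM := 1 + ∑ i ∈ Finset.range N, M i with hMM
  have hGM : ∀ i < N, G i ^ MM ∈ CCg F l l0 := by
    intro i hi
    have h2 : M i ≤ ∑ i ∈ Finset.range N, M i :=
      Finset.single_le_sum (fun _ _ => Nat.zero_le _) (Finset.mem_range.2 hi)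
    obtain ⟨k, hk⟩ := Nat.exists_eq_add_of_le h2
    rw [hMM, hk, show 1 + (M i + k) = M i + (1 + k) by ring, pow_add]
    exact Ideal.mul_mem_right _ _ (hM i)
  have hreg := seq_reg_w w hw F e hF he l0 hlN G hG hz MM (by omega)
  set J : ℕ → Ideal (MvPolynomial (Fin N) ℂ) := fun j =>
    Ideal.span ((fun i : Fin N => seq F l0 G MM i) '' {i | i.val < l0.length + j}) with hJ
  have hJ0 : J 0 = FI F l0 := by
    rw [hJ, FI]
    apply le_antisymm
    · rw [Ideal.span_le]
      rintro _ ⟨i, hi, rfl⟩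
      have hi' : i.val < l0.length := by simpa using hi
      simp only [seq, dif_pos hi']
      exact Ideal.subset_span ⟨_, List.getElem_mem hi', rfl⟩
    · rw [Ideal.span_le]
      rintro _ ⟨k, hk, rfl⟩
      obtain ⟨i, hi, rfl⟩ := List.getElem_of_mem hk
      refine Ideal.subset_span ⟨⟨i, by omega⟩, by simpa using hi, ?_⟩
      simp only [seq, dif_pos hi]
  have hJle : ∀ j, J j ≤ J (j + 1) := by
    intro j
    refine Ideal.span_mono (Set.image_mono ?_)
    intro i hi
    have : i.val < l0.length + j := hi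
    show i.val < l0.length + (j + 1)
    omega
  have hFJ : ∀ j, FI F l0 ≤ J j := by
    intro j
    induction j with
    | zero => exact hJ0.ge
    | succ j ih => exact ih.trans (hJle j)
  set a : ℕ → MvPolynomial (Fin N) ℂ := fun j =>
    if j < N - l0.length then G j ^ MM else 0 with ha
  have haseq : ∀ j, ∀ h : j < N - l0.length,
      a j = (fun i : Fin N => seq F l0 G MM i) ⟨l0.length + j, by omega⟩ := by
    intro j h
    simp only [ha, if_pos h, seq]
    rw [dif_neg (by omega), Nat.add_sub_cancel_left]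
  have haJ : ∀ j, a j ∈ J (j + 1) := by
    intro j
    by_cases h : j < N - l0.length
    · rw [haseq j h]
      exact Ideal.subset_span ⟨_, by show l0.length + j < l0.length + (j + 1); omega, rfl⟩
    · simp only [ha, if_neg h]
      exact Ideal.zero_mem _
  have hstep : ∀ j < N - l0.length, J (j + 1) ≤ J j ⊔ Ideal.span {a j} := by
    intro j hj
    rw [hJ]
    simp only
    rw [Ideal.span_le]
    rintro _ ⟨i, hi, rfl⟩
    have hi' : i.val < l0.length + (j + 1) := hi
    rcases lt_or_ge i.val (l0.length + j) with h | h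
    · exact Submodule.mem_sup_left (Ideal.subset_span ⟨i, h, rfl⟩)
    · refine Submodule.mem_sup_right (Ideal.subset_span ?_)
      rw [Set.mem_singleton_iff, haseq j hj]
      congr 1
      exact Fin.ext (by simp only; omega)
  have key := saito (TT F) (TT_anti F) (TT_self F) (fun p => pr p)
    (fun p k x => pr_ee p _ x) (fun p x => pr_pr p x) (fun p hp x => pr_neg p hp x)
    (N - l0.length) (fun j => cf (J j)) a (fun j k x hx => ee_cf _ hx) (fun j p x hx => pr_cf p hx)
    (fun j x hx S => hJle j (hx S)) (fun j x S => by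
      rw [Pi.smul_apply, smul_eq_mul]
      exact Ideal.mul_mem_right _ _ (haJ j))
    (fun j hj x hx => by
      have h4 : ∀ S, ∃ y, x S - a j * y ∈ J j := by
        intro S
        obtain ⟨u, hu, v, hv, huv⟩ := Submodule.mem_sup.1 (hstep j hj (hx S))
        obtain ⟨q, rfl⟩ := Ideal.mem_span_singleton'.1 hv
        exact ⟨q, by rw [← huv, mul_comm q, add_sub_cancel_right]; exact hu⟩
      choose y hy using h4
      exact ⟨y, fun S => hy S⟩)
    (fun j hj x hx S => by
      have h5 := hx S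
      rw [Pi.smul_apply, smul_eq_mul, haseq j hj, mul_comm] at h5
      exact hreg ⟨l0.length + j, by omega⟩ (x S) h5)
    l (by
      intro l' hl' j hj x hx
      have h6 : a j ∈ CCg F l l0 := by
        simp only [ha, if_pos hj]
        exact hGM j (by omega)
      exact h6 l' hl' (J j) (hFJ j) x hx)
    (p.toNat + 1) p (by push_cast; omega) 0 (by push_cast; omega) ω hω (by
      simp only [hJ0]
      exact hW)
  simp only [hJ0] at key
  exact key

/-- the division lemma for a system -/
theorem division_w (w : Fin N → ℕ) (hw : ∀ i, 0 < w i) (F : ι → MvPolynomial (Fin N) ℂ)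
    (e : ι → ℕ) (hF : ∀ k, IsWeightedHomogeneous w (F k) (e k)) (he : ∀ k, 0 < e k)
    (hS : SNC F) (hC : CompW w F) (l : List ι) (hl : l.Nodup)
    (hlN : l.length ≤ N) (p : ℤ) (hp : p < (N : ℤ) - l.length)
    (ω : Om (Fin N) (MvPolynomial (Fin N) ℂ)) (hω : pr p ω = ω)
    (hW : WW (TT F) l ω ∈ cf (FI F l)) : ω ∈ IM (TT F) l ⊔ cf (FI F l) :=
  divisionG w hw F e hF he hC l l hl hl hlN (fun x hx0 hx => hS l.toFinset x hx0
    fun i hi => hx i (List.mem_toFinset.1 hi)) p hp ω hω hW

/-- a form of the system is a nonzerodivisor modulo others -/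
theorem nzd_w (w : Fin N → ℕ) (hw : ∀ i, 0 < w i) (F : ι → MvPolynomial (Fin N) ℂ) (e : ι → ℕ)
    (hF : ∀ k, IsWeightedHomogeneous w (F k) (e k))
    (he : ∀ k, 0 < e k) (hC : CompW w F) (l : List ι) (b : ι) (hl : (b :: l).Nodup)
    (hlN : l.length + 1 ≤ N) (p : MvPolynomial (Fin N) ℂ) (h : F b * p ∈ FI F l) :
    p ∈ FI F l := by
  have hl2 : (l ++ [b]).Nodup := by
    rw [List.nodup_cons] at hl
    rw [List.nodup_append]
    refine ⟨hl.2, List.nodup_singleton b, ?_⟩
    intro x hx y hy hxy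
    rw [List.mem_singleton] at hy
    subst hxy
    subst hy
    exact hl.1 hx
  obtain ⟨G, hG, hz⟩ := hC (l ++ [b]) hl2 (by simpa using hlN)
  have hreg := seq_reg_w w hw F e hF he (l ++ [b]) (by simpa using hlN) G hG hz 1 one_pos
  have h1 : Ideal.span ((fun i : Fin N => seq F (l ++ [b]) G 1 i) ''
      {j | j < (⟨l.length, by omega⟩ : Fin N)}) = FI F l := by
    rw [FI]
    apply le_antisymm
    · rw [Ideal.span_le]
      rintro _ ⟨i, hi, rfl⟩
      have hi' : i.val < l.length := hi
      simp only [seq]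
      rw [dif_pos (by rw [List.length_append]; omega), List.getElem_append_left hi']
      exact Ideal.subset_span ⟨_, List.getElem_mem hi', rfl⟩
    · rw [Ideal.span_le]
      rintro _ ⟨k, hk, rfl⟩
      obtain ⟨i, hi, rfl⟩ := List.getElem_of_mem hk
      refine Ideal.subset_span ⟨⟨i, by omega⟩, hi, ?_⟩
      simp only [seq]
      rw [dif_pos (by rw [List.length_append]; omega), List.getElem_append_left hi]
  have h2 := hreg ⟨l.length, by omega⟩ p
  rw [h1] at h2
  apply h2
  simp only [seq]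
  rw [dif_pos (by rw [List.length_append]; simp), List.getElem_append_right (le_refl _)]
  simp only [Nat.sub_self, List.getElem_cons_zero]
  rwa [mul_comm]

end Pool.Agent.Helper48.SW
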