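import Pool.Agent.Helper48.SN.Dim
import Pool.Agent.Helper48.SW.DiviW

set_option autoImplicit false
set_option linter.unusedSectionVars false

/-! # Weighted homogeneous hypersurfaces with normal crossings are complete intersections -/

namespace Pool.Agent.Helper48.SW

open Finset MvPolynomial Pool.Agent.Helper48.SN

variable {N : ℕ} {ι : Type} [DecidableEq ι]

theorem exists_wlin (wt : Fin N → ℕ) (hwt : ∀ i, 0 < wt i)
    (I : Ideal (MvPolynomial (Fin N) ℂ)) :
    ∃ g : MvPolynomial (Fin N) ℂ, (∃ k, 0 < k ∧ IsWeightedHomogeneous wt g k) ∧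
      ∀ Q ∈ I.minimalPrimes, (∃ i, (X i : MvPolynomial (Fin N) ℂ) ∉ Q) → g ∉ Q := by
  classical
  set W : ℕ := ∏ i, wt i with hWd
  have hW0 : 0 < W := Finset.prod_pos fun i _ => hwt i
  have hWi : ∀ i, 0 < W / wt i := fun i => Nat.div_pos
    (Nat.le_of_dvd hW0 (Finset.dvd_prod_of_mem wt (Finset.mem_univ i))) (hwt i)
  set Λ : (Fin N → ℂ) →ₗ[ℂ] MvPolynomial (Fin N) ℂ :=
    Fintype.linearCombination ℂ (fun i => (X i ^ (W / wt i) : MvPolynomial (Fin N) ℂ)) with hΛ
  have hfin := Ideal.finite_minimalPrimes_of_isNoetherianRing (MvPolynomial (Fin N) ℂ) I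
  set V : Ideal (MvPolynomial (Fin N) ℂ) → Subspace ℂ (Fin N → ℂ) := fun Q =>
    (Q.restrictScalars ℂ).comap Λ with hV
  have htop : (⊤ : Subspace ℂ (Fin N → ℂ)) ∉
      ((hfin.toFinset.filter fun Q => ∃ i, (X i : MvPolynomial (Fin N) ℂ) ∉ Q).image V) := by
    intro h
    obtain ⟨Q, hQ, hQW⟩ := Finset.mem_image.1 h
    rw [Finset.mem_filter] at hQ
    obtain ⟨hQm, i, hi⟩ := hQ
    have hQp : Q.IsPrime := (hfin.mem_toFinset.1 hQm).1.1
    apply hi
    have h1 : (Pi.single i (1 : ℂ) : Fin N → ℂ) ∈ V Q := by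
      rw [hQW]
      exact Submodule.mem_top
    have h2 : Λ (Pi.single i (1 : ℂ)) ∈ Q := h1
    rw [hΛ, Fintype.linearCombination_apply_single, one_smul] at h2
    exact hQp.mem_of_pow_mem _ h2
  have h1 := Subspace.biUnion_ne_univ_of_top_notMem htop
  obtain ⟨a, ha⟩ := (Set.ne_univ_iff_exists_notMem _).1 h1
  refine ⟨Λ a, ⟨W, hW0, ?_⟩, fun Q hQ hi hg => ha ?_⟩
  · rw [hΛ, Fintype.linearCombination_apply]
    refine IsWeightedHomogeneous.sum _ _ _ fun i _ => ?_
    rw [smul_eq_C_mul]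
    refine IsWeightedHomogeneous.C_mul ?_ _
    have h2 := (isWeightedHomogeneous_X ℂ wt i).pow (W / wt i)
    have h3 : (W / wt i) • wt i = W := by
      rw [smul_eq_mul]
      exact Nat.div_mul_cancel (Finset.dvd_prod_of_mem wt (Finset.mem_univ i))
    rwa [h3] at h2
  · simp only [Set.mem_iUnion]
    exact ⟨V Q, Finset.mem_image_of_mem _ (Finset.mem_filter.2 ⟨hfin.mem_toFinset.2 hQ, hi⟩), hg⟩

theorem exists_seq_w (wt : Fin N → ℕ) (hwt : ∀ i, 0 < wt i)
    (I : Ideal (MvPolynomial (Fin N) ℂ)) (t : ℕ) (h : Big I t) (k : ℕ) :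
    ∃ G : ℕ → MvPolynomial (Fin N) ℂ, (∀ i, ∃ k, 0 < k ∧ IsWeightedHomogeneous wt (G i) k) ∧
      Big (I ⊔ Ideal.span (G '' {i | i < k})) (t + k) := by
  classical
  induction k with
  | zero =>
    refine ⟨fun _ => 0, fun _ => ⟨1, one_pos, isWeightedHomogeneous_zero _ _ _⟩, ?_⟩
    rw [add_zero]
    exact h.mono le_sup_left
  | succ k ih =>
    obtain ⟨G, hG, hbig⟩ := ih
    obtain ⟨g, hg, hgQ⟩ := exists_wlin wt hwt (I ⊔ Ideal.span (G '' {i | i < k}))
    refine ⟨Function.update G k g, fun i => ?_, ?_⟩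
    · by_cases hi : i = k
      · subst hi
        rwa [Function.update_self]
      · rw [Function.update_of_ne hi]
        exact hG i
    · rw [← add_assoc]
      refine hbig.step g hgQ _ ?_ ?_
      · refine sup_le_sup_left (Ideal.span_mono ?_) _
        rintro _ ⟨i, hi, rfl⟩
        have hi' : i < k := hi
        exact ⟨i, Nat.lt_succ_of_lt hi', Function.update_of_ne hi'.ne _ _⟩
      · exact Submodule.mem_sup_right (Ideal.subset_span ⟨k, Nat.lt_succ_self k,
          Function.update_self ..⟩)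

/-- the restriction to the orbit of `x` -/
noncomputable def orbHom (wt : Fin N → ℕ) (x : Fin N → ℂ) :
    MvPolynomial (Fin N) ℂ →ₐ[ℂ] Polynomial ℂ :=
  aeval fun i => Polynomial.C (x i) * Polynomial.X ^ wt i

theorem eval_orbHom (wt : Fin N → ℕ) (x : Fin N → ℂ) (p : MvPolynomial (Fin N) ℂ) (t : ℂ) :
    Polynomial.eval t (orbHom wt x p) = eval (fun i => t ^ wt i * x i) p := by
  induction p using MvPolynomial.induction_on with
  | C a =>
    have h : orbHom wt x (C a) = Polynomial.C a := aeval_C _ _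
    rw [h, eval_C, Polynomial.eval_C]
  | add p q hp hq => rw [map_add, map_add, Polynomial.eval_add, hp, hq]
  | mul_X p n hp =>
    rw [map_mul, map_mul, Polynomial.eval_mul, hp]
    congr 1
    rw [orbHom, aeval_X, eval_X, Polynomial.eval_mul, Polynomial.eval_C, Polynomial.eval_pow,
      Polynomial.eval_X, mul_comm]

theorem eval_orb_hom (wt : Fin N → ℕ) (p : MvPolynomial (Fin N) ℂ) (k : ℕ)
    (hp : IsWeightedHomogeneous wt p k)
    (x : Fin N → ℂ) (t : ℂ) : eval (fun i => t ^ wt i * x i) p = t ^ k * eval x p := by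
  rw [eval_eq', eval_eq', Finset.mul_sum]
  refine Finset.sum_congr rfl fun m hm => ?_
  have h1 := hp (mem_support_iff.1 hm)
  have h2 : ∏ i, (t ^ wt i * x i) ^ m i = t ^ k * ∏ i, x i ^ m i := by
    rw [← h1]
    have h3 : t ^ (Finsupp.weight wt m) = ∏ i, (t ^ wt i) ^ m i := by
      rw [Finsupp.weight_apply, Finsupp.sum_fintype _ _ (fun i => by simp),
        ← Finset.prod_pow_eq_pow_sum]
      exact Finset.prod_congr rfl fun i _ => by rw [← pow_mul, smul_eq_mul, mul_comm]
    rw [h3, ← Finset.prod_mul_distrib]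
    exact Finset.prod_congr rfl fun i _ => by rw [mul_pow]
  rw [h2]
  ring

theorem big_zero_w (wt : Fin N → ℕ) (hwt : ∀ i, 0 < wt i)
    (I : Ideal (MvPolynomial (Fin N) ℂ)) (h : Big I N) (S : Set (MvPolynomial (Fin N) ℂ))
    (hI : I = Ideal.span S) (hS : ∀ p ∈ S, ∃ k, IsWeightedHomogeneous wt p k) (x : Fin N → ℂ)
    (hx : ∀ p ∈ S, eval x p = 0) : x = 0 := by
  classical
  by_contra hx0
  obtain ⟨i, hi⟩ : ∃ i, x i ≠ 0 := by
    by_contra hcon
    push Not at hcon
    exact hx0 (funext hcon)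
  set P : Ideal (MvPolynomial (Fin N) ℂ) := RingHom.ker (orbHom wt x) with hP
  have hPp : P.IsPrime := RingHom.ker_isPrime _
  have hIP : I ≤ P := by
    rw [hI, Ideal.span_le]
    intro p hp
    obtain ⟨k, hk⟩ := hS p hp
    rw [SetLike.mem_coe, hP, RingHom.mem_ker]
    refine Polynomial.funext fun t => ?_
    rw [eval_orbHom, eval_orb_hom wt p k hk, hx p hp, mul_zero, Polynomial.eval_zero]
  have hXP : (X i : MvPolynomial (Fin N) ℂ) ∉ P := by
    rw [hP, RingHom.mem_ker]
    intro h1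
    have h2 := eval_orbHom wt x (X i) 1
    rw [h1, Polynomial.eval_zero, eval_X, one_pow, one_mul] at h2
    exact hi h2.symm
  have h1 := h P hPp hIP ⟨i, hXP⟩
  set M : Ideal (MvPolynomial (Fin N) ℂ) := RingHom.ker (eval (0 : Fin N → ℂ)) with hM
  have hMp : M.IsPrime := RingHom.ker_isPrime _
  have hPM : P < M := by
    refine lt_of_le_of_ne ?_ ?_
    · intro p hp
      rw [hP, RingHom.mem_ker] at hp
      have h2 := eval_orbHom wt x p 0
      have h3 : (fun i => (0 : ℂ) ^ wt i * x i) = 0 := by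
        funext i
        rw [zero_pow (hwt i).ne', zero_mul]
        rfl
      rw [hp, Polynomial.eval_zero, h3] at h2
      rw [hM, RingHom.mem_ker]
      exact h2.symm
    · intro h2
      apply hXP
      rw [h2, hM, RingHom.mem_ker, eval_X]
      rfl
  have h2 := Ideal.height_add_one_le_of_lt_of_isPrime hPM
  have h3 : M ∈ (Ideal.span ((Finset.univ.image fun i : Fin N =>
      (X i : MvPolynomial (Fin N) ℂ) : Finset (MvPolynomial (Fin N) ℂ)) :
      Set (MvPolynomial (Fin N) ℂ))).minimalPrimes := by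
    rw [Finset.coe_image, Finset.coe_univ]
    refine ⟨⟨hMp, ?_⟩, ?_⟩
    · rw [Ideal.span_le]
      rintro _ ⟨j, _, rfl⟩
      rw [SetLike.mem_coe, hM, RingHom.mem_ker, eval_X]
      rfl
    · rintro Q ⟨_, hQ⟩ _ p hp
      apply hQ
      rw [mem_ideal_span_X_image]
      intro m hm
      rw [hM, RingHom.mem_ker] at hp
      by_contra hcon
      push Not at hcon
      have h4 : m = 0 := by
        ext j
        exact hcon j (Set.mem_univ j)
      rw [h4, mem_support_iff] at hm
      apply hm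
      rw [← constantCoeff_eq, ← eval_zero]
      exact hp
  have h4 := Ideal.height_le_card_of_mem_minimalPrimes_span_finset h3
  have h5 : ((Finset.univ.image fun i : Fin N => (X i : MvPolynomial (Fin N) ℂ)).card : ℕ∞) ≤ N := by
    have h6 := Finset.card_image_le (s := (Finset.univ : Finset (Fin N)))
      (f := fun i : Fin N => (X i : MvPolynomial (Fin N) ℂ))
    rw [Finset.card_univ, Fintype.card_fin] at h6
    exact_mod_cast h6
  have h6 : (N : ℕ∞) + 1 ≤ N := ((add_le_add_left h1 1).trans h2).trans (h4.trans h5)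
  have h7 : N + 1 ≤ N := by exact_mod_cast h6
  omega

/-- **The completion by weighted homogeneous forms.** -/
theorem compW_of_snc (wt : Fin N → ℕ) (hwt : ∀ i, 0 < wt i)
    (F : ι → MvPolynomial (Fin N) ℂ) (e : ι → ℕ)
    (hF : ∀ k, IsWeightedHomogeneous wt (F k) (e k)) (hS : SNC F) : CompW wt F := by
  intro l hl hlN
  obtain ⟨G, hG, hbig⟩ := exists_seq_w wt hwt (FI F l) l.length (big_list F hS l hl)
    (N - l.length)
  refine ⟨G, hG, fun x hx hGx => ?_⟩
  rw [Nat.add_sub_cancel' hlN] at hbig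
  refine big_zero_w wt hwt _ hbig (F '' {k | k ∈ l} ∪ G '' {i | i < N - l.length}) ?_ ?_ x ?_
  · rw [FI, ← Ideal.span_union]
  · rintro p (⟨k, _, rfl⟩ | ⟨i, _, rfl⟩)
    · exact ⟨_, hF k⟩
    · obtain ⟨k, _, hk⟩ := hG i
      exact ⟨k, hk⟩
  · rintro p (⟨k, hk, rfl⟩ | ⟨i, hi, rfl⟩)
    · exact hx k hk
    · exact hGx i hi

end Pool.Agent.Helper48.SW
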