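import Pool.Agent.Helper48.SW.LinW
import Pool.Agent.Helper48.SW.DimW
import Pool.Agent.Helper48.SW.PoleW
import Pool.Agent.Helper48.SN.End

set_option autoImplicit false
set_option linter.unusedSectionVars false

/-! # Vector fields of weight zero tangent to the hypersurfaces -/

namespace Pool.Agent.Helper48.SW

open Finset MvPolynomial Pool.Agent.H119.LSS Pool.Agent.Helper48.SN

variable {N : ℕ} {ι : Type} [DecidableEq ι]

theorem T_WW (F : ι → MvPolynomial (Fin N) ℂ) (b : ι) (l : List ι) :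
    ∀ x : Om (Fin N) (MvPolynomial (Fin N) ℂ),
      TT F b (WW (TT F) l x) = WW (TT F) l (TT F b ((-1 : ℤ) ^ l.length • x)) := by
  induction l with
  | nil => intro x; simp [WW]
  | cons m l ih =>
    intro x
    change TT F b (WW (TT F) l (TT F m x)) = WW (TT F) l (TT F m (TT F b _))
    rw [ih, ← map_zsmul (TT F m), TT_anti F b m, ← map_neg (TT F m), ← map_neg (TT F b),
      List.length_cons, pow_succ, mul_neg_one, neg_smul]

theorem T_WW_zero (F : ι → MvPolynomial (Fin N) ℂ) (b : ι) (l : List ι) (hb : b ∈ l)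
    (x : Om (Fin N) (MvPolynomial (Fin N) ℂ)) : TT F b (WW (TT F) l x) = 0 := by
  rw [T_WW, WW_kill (TT F) (TT_anti F) (TT_self F) l b hb]

theorem dd_WW (F : ι → MvPolynomial (Fin N) ℂ) (l : List ι) :
    ∀ x : Om (Fin N) (MvPolynomial (Fin N) ℂ), ∃ y, dd (WW (TT F) l x) = WW (TT F) l y ∧
      (y = dd x ∨ y = - dd x) := by
  induction l with
  | nil => intro x; exact ⟨dd x, rfl, Or.inl rfl⟩
  | cons m l ih =>
    intro x
    obtain ⟨y, hy, h⟩ := ih (TT F m x)
    have h1 : dd (TT F m x) = - TT F m (dd x) := dd_ee (F m) x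
    rcases h with h | h
    · refine ⟨- dd x, ?_, Or.inr rfl⟩
      change dd (WW (TT F) l (TT F m x)) = WW (TT F) l (TT F m (- dd x))
      rw [hy, h, h1, map_neg (TT F m)]
    · refine ⟨dd x, ?_, Or.inl rfl⟩
      change dd (WW (TT F) l (TT F m x)) = WW (TT F) l (TT F m (dd x))
      rw [hy, h, h1, neg_neg]

theorem peel (F : ι → MvPolynomial (Fin N) ℂ) (v : ι → Fin N → MvPolynomial (Fin N) ℂ)
    (c : MvPolynomial (Fin N) ℂ) (J : Ideal (MvPolynomial (Fin N) ℂ)) (l : List ι) (hl : l.Nodup)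
    (hv : ∀ k ∈ l, ∀ m ∈ l, ∑ j, v k j * grad (F m) j = if k = m then c else 0) :
    ∀ (p : ℤ) (α : Om (Fin N) (MvPolynomial (Fin N) ℂ)), pr p α = α →
      (∀ k ∈ l, TT F k α ∈ cf J) →
      ∃ β, pr (p - l.length) β = β ∧ c ^ l.length • α - WW (TT F) l β ∈ cf J := by
  induction l with
  | nil =>
    intro p α hα _
    refine ⟨α, by simpa using hα, ?_⟩
    have : c ^ ([] : List ι).length • α - WW (TT F) [] α = 0 := by
      simp [WW]
    rw [this]
    exact Submodule.zero_mem _
  | cons b l ih =>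
    intro p α hα hT
    rw [List.nodup_cons] at hl
    obtain ⟨β, hβ, h1⟩ := ih hl.2 (fun k hk m hm => hv k (List.mem_cons_of_mem _ hk) m
      (List.mem_cons_of_mem _ hm)) (p - 1) (ii (v b) α) (by
        rw [pr_ii, sub_add_cancel, hα]) (by
        intro m hm
        have h2 := ii_ee (v b) (grad (F m)) α
        have hbm : b ≠ m := by
          rintro rfl
          exact hl.1 hm
        rw [hv b (List.mem_cons_self ..) m (List.mem_cons_of_mem _ hm), if_neg hbm, zero_smul,
          zero_sub] at h2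
        have h3 : TT F m (ii (v b) α) = - ii (v b) (TT F m α) := by
          rw [h2, neg_neg]
        rw [h3]
        exact Submodule.neg_mem _ (ii_cf _ (hT m (List.mem_cons_of_mem _ hm))))
    refine ⟨(-1 : ℤ) ^ l.length • β, ?_, ?_⟩
    · rw [map_zsmul, List.length_cons]
      congr 1
      have h2 : p - ((l.length + 1 : ℕ) : ℤ) = p - 1 - l.length := by
        push_cast
        ring
      rw [h2, hβ]
    · have h2 : TT F b (c ^ l.length • ii (v b) α - WW (TT F) l β) ∈ cf J := ee_cf _ h1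
      have h3 := ii_ee (v b) (grad (F b)) α
      rw [hv b (List.mem_cons_self ..) b (List.mem_cons_self ..), if_pos rfl] at h3
      have h4 : TT F b (ii (v b) α) = c • α - ii (v b) (TT F b α) := by
        rw [h3]
        abel
      rw [map_sub, map_smul, h4, T_WW, smul_sub, smul_smul, ← pow_succ] at h2
      have h5 : c ^ (b :: l).length • α - WW (TT F) (b :: l) ((-1 : ℤ) ^ l.length • β) =
          (c ^ (l.length + 1) • α - c ^ l.length • ii (v b) (TT F b α) -
            WW (TT F) l (TT F b ((-1 : ℤ) ^ l.length • β))) +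
            c ^ l.length • ii (v b) (TT F b α) := by
        rw [List.length_cons]
        change _ - WW (TT F) l (TT F b _) = _
        abel
      rw [h5]
      exact Submodule.add_mem _ h2 (Submodule.smul_mem _ _ (ii_cf _ (hT b (List.mem_cons_self ..))))

/-- the relation between the divergence and the eigenvalues of a field tangent to `F_k` -/
theorem star (wt : Fin N → ℕ) (hwt : ∀ i, 0 < wt i) (F : ι → MvPolynomial (Fin N) ℂ) (e : ι → ℕ)
    (hF : ∀ k, IsWeightedHomogeneous wt (F k) (e k)) (he : ∀ k, 0 < e k) (hS : SNC F)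
    (hC : CompW wt F) (B : List ι) (hB : B.Nodup) (k : ι) (hk : k ∉ B)
    (hli : LinearIndependent ℂ fun (i : B.toFinset) (j : Fin N) => eval 0 (pderiv j (F i)))
    (γ : ι → ℂ) (hγ : ∀ j, eval 0 (pderiv j (F k)) =
      ∑ b ∈ B.toFinset, γ b * eval 0 (pderiv j (F b)))
    (A : Fin N → MvPolynomial (Fin N) ℂ) (hA0 : ∀ j, eval 0 (A j) = 0)
    (δ : ℂ) (hdiv : ∑ j, pderiv j (A j) = C δ) (ν : ι → ℂ)
    (hAk : ∑ j, A j * pderiv j (F k) = 0)
    (hAB : ∀ b ∈ B, ∑ j, A j * pderiv j (F b) = C (ν b) * F b) :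
    δ = ∑ b ∈ B.toFinset, ν b := by
  classical
  have hBN : B.length ≤ N := by
    have h1 := hli.fintype_card_le_finrank
    rwa [Module.finrank_fin_fun, Fintype.card_coe, List.toFinset_card_of_nodup hB] at h1
  have hF0 : ∀ i, eval 0 (F i) = 0 := by
    intro i
    by_contra h0
    have h2 : coeff 0 (F i) ≠ 0 := by rwa [← constantCoeff_eq, ← eval_zero]
    have h3 := hF i h2
    rw [map_zero] at h3
    exact absurd h3 (he i).ne
  obtain ⟨c, v, hc, hv⟩ := dual_fields F B 0 hli
  set α : Om (Fin N) (MvPolynomial (Fin N) ℂ) := ii A vol with hα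
  have hαp : pr ((N : ℤ) - 1) α = α := by
    have h1 : pr (N : ℤ) (vol : Om (Fin N) (MvPolynomial (Fin N) ℂ)) = vol := by
      have h2 := pr_vol (σ := Fin N)
      rwa [Fintype.card_fin] at h2
    rw [hα, pr_ii, sub_add_cancel, h1]
  have hTα : ∀ i, TT F i α = (∑ j, A j * pderiv j (F i)) • vol := fun i => ee_ii_vol A _
  have hTk : TT F k α = 0 := by rw [hTα, hAk, zero_smul]
  have hTb : ∀ b ∈ B, TT F b α = (C (ν b) * F b) • vol := fun b hb => by rw [hTα, hAB b hb]
  obtain ⟨β, hβ, h1⟩ := peel F v c (FI F B) B hB hv ((N : ℤ) - 1) α hαp (by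
    intro b hb
    rw [hTb b hb]
    intro S
    rw [Pi.smul_apply, smul_eq_mul]
    exact Ideal.mul_mem_right _ _ (Ideal.mul_mem_left _ _ (FI_mem F hb)))
  have h2 : WW (TT F) (k :: B) β ∈ cf (FI F B) := by
    have h3 : TT F k (c ^ B.length • α - WW (TT F) B β) ∈ cf (FI F B) := ee_cf _ h1
    rw [map_sub, map_smul, hTk, smul_zero, zero_sub, T_WW] at h3
    have h4 : WW (TT F) (k :: B) β = (-1 : ℤ) ^ B.length •
        WW (TT F) B (TT F k ((-1 : ℤ) ^ B.length • β)) := by
      rw [← map_zsmul, ← map_zsmul, smul_smul, ← mul_pow, neg_one_mul, neg_neg, one_pow, one_smul]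
      rfl
    rw [h4]
    exact Submodule.smul_of_tower_mem _ _ ((Submodule.neg_mem_iff _).1 h3)
  have h3 := divisionG wt hwt F e hF he hC (k :: B) B (List.nodup_cons.2 ⟨hk, hB⟩) hB hBN (by
    intro x hx0 hx
    by_cases hkx : eval x (F k) = 0
    · refine hS (k :: B).toFinset x hx0 fun i hi => ?_
      rw [List.mem_toFinset, List.mem_cons] at hi
      rcases hi with rfl | hi
      · exact hkx
      · exact hx i hi
    · have h4 : LinearIndependent ℂ fun (i : B.toFinset) (j : Fin N) => eval x (pderiv j (F i)) :=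
        hS B.toFinset x hx0 fun i hi => hx i (List.mem_toFinset.1 hi)
      rw [Fintype.linearIndependent_iff] at h4 ⊢
      intro g hg
      set g' : ι → ℂ := fun i => if h : i ∈ (k :: B).toFinset then g ⟨i, h⟩ else 0 with hg'
      have h5 : ∀ j, ∑ i ∈ (k :: B).toFinset, g' i * eval x (pderiv j (F i)) = 0 := by
        intro j
        have h6 := congrFun hg j
        rw [Finset.sum_apply, Pi.zero_apply] at h6
        have h7 := Finset.sum_coe_sort (k :: B).toFinset
          (fun i => g' i * eval x (pderiv j (F i)))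
        rw [← h6, ← h7]
        refine Finset.sum_congr rfl fun i _ => ?_
        rw [hg']
        simp only [dif_pos i.2, Pi.smul_apply, smul_eq_mul]
      have h7 : k ∉ B.toFinset := by rwa [List.mem_toFinset]
      rw [List.toFinset_cons] at h5
      simp only [Finset.sum_insert h7] at h5
      have hE : ∀ i, ∑ j, (wt j : ℂ) * x j * eval x (pderiv j (F i)) = e i * eval x (F i) := by
        intro i
        have h8 := congrArg (eval x) (euler_w wt (F i) (e i) (hF i))
        rw [map_sum, map_mul, eval_C] at h8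
        rw [← h8]
        refine Finset.sum_congr rfl fun j _ => ?_
        rw [map_mul, EE, map_mul, eval_C, eval_X]
      have h8 : g' k = 0 := by
        have h9 : ∑ j, (wt j : ℂ) * x j * (g' k * eval x (pderiv j (F k)) +
            ∑ i ∈ B.toFinset, g' i * eval x (pderiv j (F i))) = 0 :=
          Finset.sum_eq_zero fun j _ => by rw [h5 j, mul_zero]
        have h10 : ∑ j, (wt j : ℂ) * x j * (g' k * eval x (pderiv j (F k)) +
            ∑ i ∈ B.toFinset, g' i * eval x (pderiv j (F i))) =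
            g' k * (e k * eval x (F k)) := by
          have h11 : ∀ j, (wt j : ℂ) * x j * (g' k * eval x (pderiv j (F k)) +
              ∑ i ∈ B.toFinset, g' i * eval x (pderiv j (F i))) =
              g' k * ((wt j : ℂ) * x j * eval x (pderiv j (F k))) +
              ∑ i ∈ B.toFinset, g' i * ((wt j : ℂ) * x j * eval x (pderiv j (F i))) := by
            intro j
            rw [mul_add, Finset.mul_sum]
            congr 1
            · ring
            · exact Finset.sum_congr rfl fun i _ => by ring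
          rw [Finset.sum_congr rfl fun j _ => h11 j, Finset.sum_add_distrib, ← Finset.mul_sum,
            hE k, Finset.sum_comm, Finset.sum_eq_zero (s := B.toFinset) fun i hi => by
              rw [← Finset.mul_sum, hE i, hx i (List.mem_toFinset.1 hi), mul_zero, mul_zero],
            add_zero]
        rw [h10] at h9
        rcases mul_eq_zero.1 h9 with h11 | h11
        · exact h11
        · rcases mul_eq_zero.1 h11 with h12 | h12
          · exact absurd (by exact_mod_cast h12) (he k).ne'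
          · exact absurd h12 hkx
      have h9 := h4 (fun i => g' i) (by
        funext j
        rw [Finset.sum_apply, Pi.zero_apply]
        have h10 := h5 j
        rw [h8, zero_mul, zero_add] at h10
        have h11 := Finset.sum_coe_sort B.toFinset
          (fun i => g' i * eval x (pderiv j (F i)))
        rw [← h10, ← h11]
        exact Finset.sum_congr rfl fun i _ => rfl)
      intro i
      have h10 : g i = g' i := by
        rw [hg']
        simp only [dif_pos i.2]
      rw [h10]
      have h11 : (i : ι) ∈ insert k B.toFinset := by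
        rw [← List.toFinset_cons]
        exact i.2
      rw [Finset.mem_insert] at h11
      rcases h11 with h11 | h11
      · rw [h11, h8]
      · exact h9 ⟨i, h11⟩) ((N : ℤ) - 1 - B.length) (by omega) β hβ h2
  rw [IM] at h3
  obtain ⟨u, hu, z, hz, hsum⟩ := Submodule.mem_sup.1 h3
  obtain ⟨_, ⟨η, rfl⟩, y, hy, rfl⟩ := Submodule.mem_sup.1 hu
  have hJW : ∀ (J : Ideal (MvPolynomial (Fin N) ℂ)) (l : List ι), ∀ x ∈ cf J,
      WW (TT F) l x ∈ cf J := by
    intro J l
    induction l with
    | nil => intro x hx; exact hx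
    | cons b l ih => intro x hx; exact ih _ (ee_cf _ hx)
  have h4 : c ^ B.length • α - WW (TT F) B (TT F k η) ∈ cf (FI F B) := by
    have h5 : WW (TT F) B β = WW (TT F) B (TT F k η) + WW (TT F) B z := by
      rw [← hsum, map_add, map_add, WW_IM (TT F) (TT_anti F) (TT_self F) B B (fun k hk => hk) y hy,
        add_zero]
    rw [h5] at h1
    have h6 : c ^ B.length • α - WW (TT F) B (TT F k η) =
        (c ^ B.length • α - (WW (TT F) B (TT F k η) + WW (TT F) B z)) + WW (TT F) B z := by abel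
    rw [h6]
    exact Submodule.add_mem _ h1 (hJW _ B z hz)
  -- coefficients
  have h5 : ∀ S, ∃ g : ι → MvPolynomial (Fin N) ℂ,
      (c ^ B.length • α - WW (TT F) B (TT F k η)) S = ∑ b ∈ B.toFinset, g b * F b := by
    intro S
    have h6 := h4 S
    rw [FI] at h6
    have h7 : F '' {k | k ∈ B} = F '' (B.toFinset : Set ι) := by
      congr 1
      ext b
      simp
    rw [h7, Ideal.span, Submodule.mem_span_image_finset_iff_exists_fun] at h6
    obtain ⟨g, hg⟩ := h6
    refine ⟨fun b => if h : b ∈ B.toFinset then g ⟨b, h⟩ else 0, ?_⟩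
    have h8 := Finset.sum_coe_sort B.toFinset
      (fun b => (if h : b ∈ B.toFinset then g ⟨b, h⟩ else 0) * F b)
    rw [← hg, ← h8]
    refine Finset.sum_congr rfl fun b _ => ?_
    rw [dif_pos b.2, smul_eq_mul]
  choose g hg using h5
  set ε : ι → Om (Fin N) (MvPolynomial (Fin N) ℂ) := fun b S => g S b with hε
  have h6 : c ^ B.length • α = WW (TT F) B (TT F k η) + ∑ b ∈ B.toFinset, F b • ε b := by
    rw [← sub_eq_iff_eq_add']
    funext S
    rw [hg S, Finset.sum_apply]
    refine Finset.sum_congr rfl fun b _ => ?_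
    rw [Pi.smul_apply, hε, smul_eq_mul, mul_comm]
  have hvu : (vol : Om (Fin N) (MvPolynomial (Fin N) ℂ)) Finset.univ = 1 := if_pos rfl
  -- the matrix of the coefficients
  set U : ι → ι → ℂ := fun b b' => eval 0 (TT F b (ε b') Finset.univ) with hU
  have h7 : ∀ b ∈ B, U b b = ν b := by
    intro b hb
    have h8 := congrArg (fun ω => TT F b ω Finset.univ) h6
    rw [map_smul, map_add, T_WW_zero F b B hb, zero_add, hTb b hb, map_sum, Finset.sum_apply,
      Pi.smul_apply, Pi.smul_apply, hvu, smul_eq_mul, smul_eq_mul, mul_one] at h8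
    have h9 : ∀ j, ν b * eval 0 (pderiv j (F b)) =
        ∑ b' ∈ B.toFinset, U b b' * eval 0 (pderiv j (F b')) := by
      intro j
      have h10 := congrArg (fun p => eval 0 (pderiv j p)) h8
      rw [pderiv_mul, map_add, map_mul, map_mul, map_mul, hF0, mul_zero, mul_zero, zero_add,
        pderiv_C_mul, map_mul, eval_C, map_pow, hc, one_pow, one_mul, map_sum, map_sum] at h10
      rw [h10]
      refine Finset.sum_congr rfl fun b' _ => ?_
      rw [map_smul, Pi.smul_apply, smul_eq_mul, pderiv_mul, map_add, map_mul, map_mul, hF0,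
        zero_mul, add_zero, mul_comm]
    have h10 := (Fintype.linearIndependent_iff.1 hli) (fun b' => (if b'.1 = b then ν b else 0) -
      U b b') (by
        funext j
        rw [Finset.sum_apply, Pi.zero_apply]
        have h11 := Finset.sum_coe_sort B.toFinset (fun b' =>
          ((if b' = b then ν b else 0) - U b b') * eval 0 (pderiv j (F b')))
        refine Eq.trans (Finset.sum_congr rfl fun b' _ => ?_) (h11.trans ?_)
        · rfl
        · rw [Finset.sum_congr rfl fun b' _ => sub_mul _ _ _, Finset.sum_sub_distrib, ← h9 j,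
            Finset.sum_congr rfl fun b' _ => ite_mul _ _ _ _]
          rw [Finset.sum_congr rfl fun b' _ => by rw [zero_mul], Finset.sum_ite_eq',
            if_pos (List.mem_toFinset.2 hb), sub_self]) ⟨b, List.mem_toFinset.2 hb⟩
    rw [if_pos rfl, sub_eq_zero] at h10
    exact h10.symm
  -- the divergence
  have h8 : eval 0 (dd (c ^ B.length • α) Finset.univ) = δ := by
    rw [dd_smul, hα, dd_ii_vol, hdiv, ee_ii_vol, Pi.add_apply, Pi.smul_apply, Pi.smul_apply,
      Pi.smul_apply, hvu, smul_eq_mul, smul_eq_mul, smul_eq_mul, mul_one, mul_one, map_add,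
      map_mul, map_pow, hc, one_pow, one_mul, eval_C, map_sum,
      Finset.sum_eq_zero fun j _ => by rw [map_mul, hA0, zero_mul], zero_add]
  have h9 : eval 0 (dd (WW (TT F) B (TT F k η)) Finset.univ) = 0 := by
    set m : Ideal (MvPolynomial (Fin N) ℂ) := RingHom.ker (eval (0 : Fin N → ℂ)) with hm
    have h10 : ∀ ξ : Om (Fin N) (MvPolynomial (Fin N) ℂ), WW (TT F) B (TT F k ξ) ∈ cf m := by
      intro ξ
      have h11 : WW (TT F) B (TT F k ξ) =
          WW (TT F) B (TT F k ξ - ∑ b ∈ B.toFinset, (C (γ b) : MvPolynomial (Fin N) ℂ) • TT F b ξ) := by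
        rw [map_sub, map_sum, Finset.sum_eq_zero fun b hb => by
          rw [map_smul, WW_kill (TT F) (TT_anti F) (TT_self F) B b (List.mem_toFinset.1 hb),
            smul_zero], sub_zero]
      rw [h11]
      refine hJW m B _ ?_
      have h12 : TT F k ξ - ∑ b ∈ B.toFinset, (C (γ b) : MvPolynomial (Fin N) ℂ) • TT F b ξ =
          ee (fun j => pderiv j (F k) - ∑ b ∈ B.toFinset, C (γ b) * pderiv j (F b)) ξ := by
        simp only [ee_apply, TT, grad, sub_smul, Finset.sum_sub_distrib, Finset.smul_sum,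
          Finset.sum_smul, mul_smul]
        congr 1
        rw [Finset.sum_comm]
      rw [h12, ee_apply]
      refine Submodule.sum_mem _ fun j _ S => ?_
      rw [Pi.smul_apply, smul_eq_mul]
      refine Ideal.mul_mem_right _ _ ?_
      rw [hm, RingHom.mem_ker, map_sub, hγ j, map_sum, sub_eq_zero]
      refine Finset.sum_congr rfl fun b _ => ?_
      rw [map_mul, eval_C]
    obtain ⟨y', hy', hy''⟩ := dd_WW F B (TT F k η)
    rw [hy']
    have h11 : dd (TT F k η) = - TT F k (dd η) := dd_ee (F k) η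
    have h12 : WW (TT F) B y' ∈ cf m := by
      rcases hy'' with h | h
      · rw [h, h11, map_neg]
        exact Submodule.neg_mem _ (h10 _)
      · rw [h, h11, neg_neg]
        exact h10 _
    exact h12 Finset.univ
  have h10 := congrArg (fun ω => eval 0 (dd ω Finset.univ)) h6
  rw [h8, map_add, Pi.add_apply, map_add, h9, zero_add, map_sum, Finset.sum_apply, map_sum] at h10
  rw [h10]
  refine Finset.sum_congr rfl fun b hb => ?_
  rw [dd_smul, Pi.add_apply, map_add, Pi.smul_apply, smul_eq_mul, map_mul, hF0, zero_mul,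
    add_zero, ← h7 b (List.mem_toFinset.1 hb)]

/-- the linear parts are eigenvectors -/
theorem eigen (F : ι → MvPolynomial (Fin N) ℂ) (hF0 : ∀ i, eval 0 (F i) = 0) (B : Finset ι)
    (k : ι) (hli : LinearIndependent ℂ fun (i : B) (j : Fin N) => eval 0 (pderiv j (F i)))
    (γ : ι → ℂ) (hγ : ∀ j, eval 0 (pderiv j (F k)) = ∑ b ∈ B, γ b * eval 0 (pderiv j (F b)))
    (A : Fin N → MvPolynomial (Fin N) ℂ) (hA0 : ∀ j, eval 0 (A j) = 0) (μ : ι → ℂ)
    (hA : ∀ i, ∑ j, A j * pderiv j (F i) = C (μ i) * F i) (b : ι) (hb : b ∈ B) (hγb : γ b ≠ 0) :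
    μ b = μ k := by
  have h1 : ∀ i m, ∑ j, eval 0 (pderiv m (A j)) * eval 0 (pderiv j (F i)) =
      μ i * eval 0 (pderiv m (F i)) := by
    intro i m
    have h2 := congrArg (fun p => eval 0 (pderiv m p)) (hA i)
    rw [pderiv_C_mul, map_mul, eval_C, map_sum, map_sum] at h2
    rw [← h2]
    refine Finset.sum_congr rfl fun j _ => ?_
    rw [pderiv_mul, map_add, map_mul, map_mul, hA0, zero_mul, add_zero]
  have h2 : ∀ m, ∑ b ∈ B, (γ b * (μ b - μ k)) * eval 0 (pderiv m (F b)) = 0 := by
    intro m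
    have h3 := h1 k m
    simp only [hγ, Finset.mul_sum] at h3
    rw [Finset.sum_comm] at h3
    have h4 : ∀ b ∈ B, ∑ j, eval 0 (pderiv m (A j)) * (γ b * eval 0 (pderiv j (F b))) =
        γ b * (μ b * eval 0 (pderiv m (F b))) := by
      intro b _
      rw [← h1 b m, Finset.mul_sum]
      exact Finset.sum_congr rfl fun j _ => by ring
    rw [Finset.sum_congr rfl h4, ← sub_eq_zero, ← Finset.sum_sub_distrib] at h3
    rw [← h3]
    exact Finset.sum_congr rfl fun b _ => by ring
  have h3 := (Fintype.linearIndependent_iff.1 hli) (fun b => γ b * (μ b - μ k)) (by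
    funext m
    rw [Finset.sum_apply, Pi.zero_apply, ← h2 m]
    have h4 := Finset.sum_coe_sort B (fun b => (γ b * (μ b - μ k)) * eval 0 (pderiv m (F b)))
    rw [← h4]
    rfl) ⟨b, hb⟩
  rcases mul_eq_zero.1 h3 with h4 | h4
  · exact absurd h4 hγb
  · exact sub_eq_zero.1 h4

section

variable (wt : Fin N → ℕ) (hwt : ∀ i, 0 < wt i) (F : ι → MvPolynomial (Fin N) ℂ) (e : ι → ℕ)
    (hF : ∀ k, IsWeightedHomogeneous wt (F k) (e k)) (he : ∀ k, 0 < e k) (hS : SNC F)
    (hC : CompW wt F) (A : Fin N → MvPolynomial (Fin N) ℂ) (hA0 : ∀ j, eval 0 (A j) = 0)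
    (hdiv : ∑ j, pderiv j (A j) = 0) (μ : ι → ℂ)
    (hA : ∀ i, ∑ j, A j * pderiv j (F i) = C (μ i) * F i)

include hwt hF he hS hC hA0 hdiv hA

theorem star2 (B : Finset ι) (k : ι) (hk : k ∉ B)
    (hli : LinearIndependent ℂ fun (i : B) (j : Fin N) => eval 0 (pderiv j (F i)))
    (γ : ι → ℂ) (hγ : ∀ j, eval 0 (pderiv j (F k)) = ∑ b ∈ B, γ b * eval 0 (pderiv j (F b))) :
    ∑ b ∈ B, μ b = μ k / e k * (∑ b ∈ B, (e b : ℂ) - ((∑ j, wt j : ℕ) : ℂ)) := by
  have hek : (e k : ℂ) ≠ 0 := by
    have := he k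
    exact_mod_cast this.ne'
  set r : ℂ := μ k / e k with hr
  have h1 : ∀ i, ∑ j, (A j - C r * EE wt j) * pderiv j (F i) = C (μ i - r * e i) * F i := by
    intro i
    have h2 : ∑ j, (A j - C r * EE wt j) * pderiv j (F i) =
        ∑ j, A j * pderiv j (F i) - C r * ∑ j, EE wt j * pderiv j (F i) := by
      rw [Finset.mul_sum, ← Finset.sum_sub_distrib]
      exact Finset.sum_congr rfl fun j _ => by ring
    rw [h2, hA, euler_w wt (F i) (e i) (hF i), map_sub, map_mul]
    ring
  have h2 := star wt hwt F e hF he hS hC B.toList B.nodup_toList k (by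
    rwa [Finset.mem_toList]) (by
      rw [Finset.toList_toFinset]
      exact hli) γ (by
      rw [Finset.toList_toFinset]
      exact hγ) (fun j => A j - C r * EE wt j) (fun j => by
      rw [map_sub, hA0, map_mul, EE, map_mul, eval_X, Pi.zero_apply, mul_zero, mul_zero, sub_zero])
    (- (r * ((∑ j, wt j : ℕ) : ℂ))) (by
      have h3 : ∀ j : Fin N, pderiv j (A j - C r * EE wt j) = pderiv j (A j) - C (r * wt j) := by
        intro j
        rw [map_sub, pderiv_C_mul, EE, pderiv_C_mul, pderiv_X_self, mul_one, map_mul]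
      rw [Finset.sum_congr rfl fun j _ => h3 j, Finset.sum_sub_distrib, hdiv, zero_sub,
        ← map_sum, ← Finset.mul_sum, map_neg]
      push_cast
      rfl) (fun i => μ i - r * e i) (by
      rw [h1 k, hr, div_mul_cancel₀ _ hek, sub_self, map_zero, zero_mul]) (fun b _ => h1 b)
  rw [Finset.toList_toFinset, Finset.sum_sub_distrib, ← Finset.mul_sum] at h2
  linear_combination - h2

theorem zed (hN : 0 < N) (B : Finset ι) (k : ι) (hk : k ∉ B)
    (hli : LinearIndependent ℂ fun (i : B) (j : Fin N) => eval 0 (pderiv j (F i)))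
    (γ : ι → ℂ) (hγ : ∀ j, eval 0 (pderiv j (F k)) = ∑ b ∈ B, γ b * eval 0 (pderiv j (F b))) :
    μ k = 0 ∧ ∑ b ∈ B, μ b = 0 := by
  classical
  have hF0 : ∀ i, eval 0 (F i) = 0 := by
    intro i
    by_contra h0
    have h2 : coeff 0 (F i) ≠ 0 := by rwa [← constantCoeff_eq, ← eval_zero]
    have h3 := hF i h2
    rw [map_zero] at h3
    exact absurd h3 (he i).ne
  have hek : (e k : ℂ) ≠ 0 := by
    have := he k
    exact_mod_cast this.ne'
  have hW : ((∑ j, wt j : ℕ) : ℂ) ≠ 0 := by
    have h1 : 0 < ∑ j, wt j := Finset.sum_pos (fun j _ => hwt j) ⟨⟨0, hN⟩, Finset.mem_univ _⟩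
    exact_mod_cast h1.ne'
  set B' := B.filter (fun b => γ b ≠ 0) with hB'
  have hli' : LinearIndependent ℂ fun (i : B') (j : Fin N) => eval 0 (pderiv j (F i)) :=
    hli.comp (fun i : B' => (⟨i.1, (Finset.mem_filter.1 i.2).1⟩ : B)) (by
      intro a b h
      exact Subtype.ext (congrArg (fun z : B => z.1) h))
  have hγ' : ∀ j, eval 0 (pderiv j (F k)) = ∑ b ∈ B', γ b * eval 0 (pderiv j (F b)) := by
    intro j
    rw [hγ j, hB', Finset.sum_filter_of_ne]
    intro b _ h1 h2
    exact h1 (by rw [h2, zero_mul])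
  have h1 := star2 wt hwt F e hF he hS hC A hA0 hdiv μ hA B' k
    (fun h => hk (Finset.mem_filter.1 h).1) hli' γ hγ'
  have h2 : ∀ b ∈ B', μ b = μ k := fun b hb =>
    eigen F hF0 B' k hli' γ hγ' A hA0 μ hA b hb (Finset.mem_filter.1 hb).2
  have h3 : ∀ b ∈ B', (e b : ℂ) = e k := fun b hb =>
    eigen F hF0 B' k hli' γ hγ' (EE wt) (fun j => by
      rw [EE, map_mul, eval_X, Pi.zero_apply, mul_zero]) (fun i => (e i : ℂ))
      (fun i => euler_w wt (F i) (e i) (hF i)) b hb (Finset.mem_filter.1 hb).2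
  rw [Finset.sum_congr rfl h2, Finset.sum_congr rfl h3, Finset.sum_const, Finset.sum_const,
    nsmul_eq_mul, nsmul_eq_mul, mul_sub] at h1
  have h4 : μ k / e k * ((∑ j, wt j : ℕ) : ℂ) = 0 := by
    have h5 : μ k / e k * ((B'.card : ℂ) * e k) = (B'.card : ℂ) * μ k := by
      field_simp
    rw [h5] at h1
    linear_combination h1
  have h5 : μ k / e k = 0 := (mul_eq_zero.1 h4).resolve_right hW
  refine ⟨?_, ?_⟩
  · rcases div_eq_zero_iff.1 h5 with h6 | h6
    · exact h6
    · exact absurd h6 hek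
  · rw [star2 wt hwt F e hF he hS hC A hA0 hdiv μ hA B k hk hli γ hγ, h5, zero_mul]

theorem mu_zero [Fintype ι] (hN : 0 < N)
    (hnl : ¬ LinearIndependent ℂ fun (i : ι) (j : Fin N) => eval 0 (pderiv j (F i))) (i : ι) :
    μ i = 0 := by
  classical
  set L : ι → Fin N → ℂ := fun i j => eval 0 (pderiv j (F i)) with hL
  rw [linearIndependent_iff_notMem_span] at hnl
  push Not at hnl
  obtain ⟨k, hk⟩ := hnl
  obtain ⟨b, hbk, -, hspan, hbli⟩ := exists_linearIndepOn_extension (K := ℂ) (v := L)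
    (s := ∅) (t := Set.univ \ {k}) (linearIndepOn_empty ℂ L) (Set.empty_subset _)
  have hfin : b.Finite := Set.toFinite b
  obtain ⟨B, rfl⟩ : ∃ B : Finset ι, (B : Set ι) = b := ⟨hfin.toFinset, hfin.coe_toFinset⟩
  have hkB : k ∉ B := fun h => (hbk h).2 rfl
  have hli : LinearIndependent ℂ fun (i : B) (j : Fin N) => eval 0 (pderiv j (F i)) := hbli
  have hall : ∀ i, L i ∈ Submodule.span ℂ (L '' (B : Set ι)) := by
    intro i
    by_cases h : i = k
    · subst h
      exact (Submodule.span_le.2 hspan) hk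
    · exact hspan ⟨i, ⟨Set.mem_univ i, h⟩, rfl⟩
  have hcomb : ∀ i, ∃ γ : ι → ℂ, ∀ j, eval 0 (pderiv j (F i)) =
      ∑ b ∈ B, γ b * eval 0 (pderiv j (F b)) := by
    intro i
    have h1 := hall i
    rw [Submodule.mem_span_image_finset_iff_exists_fun] at h1
    obtain ⟨g, hg⟩ := h1
    refine ⟨fun b => if h : b ∈ B then g ⟨b, h⟩ else 0, fun j => ?_⟩
    have h2 := congrFun hg j
    have h3 := Finset.sum_coe_sort B
      (fun b => (if h : b ∈ B then g ⟨b, h⟩ else 0) * eval 0 (pderiv j (F b)))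
    rw [Finset.sum_apply] at h2
    rw [← h3]
    refine h2.symm.trans (Finset.sum_congr rfl fun b _ => ?_)
    rw [dif_pos b.2, Pi.smul_apply, smul_eq_mul]
  obtain ⟨γ, hγ⟩ := hcomb k
  have hz := zed wt hwt F e hF he hS hC A hA0 hdiv μ hA hN B k hkB hli γ hγ
  have hF0 : ∀ i, eval 0 (F i) = 0 := by
    intro i
    by_contra h0
    have h2 : coeff 0 (F i) ≠ 0 := by rwa [← constantCoeff_eq, ← eval_zero]
    have h3 := hF i h2
    rw [map_zero] at h3
    exact absurd h3 (he i).ne
  by_cases hi : i ∈ B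
  · by_cases hγi : γ i = 0
    · have h1 := zed wt hwt F e hF he hS hC A hA0 hdiv μ hA hN (B.erase i) k
        (fun h => hkB (Finset.mem_of_mem_erase h)) (hli.comp
          (fun x : B.erase i => (⟨x.1, Finset.mem_of_mem_erase x.2⟩ : B)) (by
            intro a b h
            exact Subtype.ext (congrArg (fun z : B => z.1) h))) γ (fun j => by
          rw [hγ j, Finset.sum_erase]
          rw [hγi, zero_mul])
      have h2 := Finset.add_sum_erase B μ hi
      rw [h1.2, add_zero, hz.2] at h2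
      exact h2
    · rw [eigen F hF0 B k hli γ hγ A hA0 μ hA i hi hγi]
      exact hz.1
  · obtain ⟨γ', hγ'⟩ := hcomb i
    exact (zed wt hwt F e hF he hS hC A hA0 hdiv μ hA hN B i hi hli γ' hγ').1

end

/-- there is no primitive without poles -/
theorem no_PW [Fintype ι] (hN : 2 ≤ N) (wt : Fin N → ℕ) (hwt : ∀ i, 0 < wt i)
    (F : ι → MvPolynomial (Fin N) ℂ) (e : ι → ℕ)
    (hF : ∀ k, IsWeightedHomogeneous wt (F k) (e k)) (he : ∀ k, 0 < e k) (hS : SNC F)
    (hnl : ¬ LinearIndependent ℂ fun (i : ι) (j : Fin N) => eval 0 (pderiv j (F i)))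
    (lam : ι → ℂ) : ¬ PW wt F lam 0 := by
  intro h
  obtain ⟨A, μ, hA1, hdiv, hμ, hsum⟩ := PW_linear hN wt hwt F e hF hS lam h
  have hC := compW_of_snc wt hwt F e hF hS
  have hA0 : ∀ j, eval 0 (A j) = 0 := by
    intro j
    by_contra h0
    have h2 : coeff 0 (A j) ≠ 0 := by rwa [← constantCoeff_eq, ← eval_zero]
    have h3 := hA1 j h2
    rw [map_zero] at h3
    exact absurd h3 (hwt j).ne
  have h1 := mu_zero wt hwt F e hF he hS hC A hA0 hdiv μ hμ (by omega) hnl
  rw [Finset.sum_eq_zero fun i _ => by rw [h1 i, mul_zero]] at hsum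
  have h2 : 0 < ∑ j, wt j := Finset.sum_pos (fun j _ => hwt j) ⟨⟨0, by omega⟩, Finset.mem_univ _⟩
  have h3 : ((∑ j, wt j : ℕ) : ℂ) = 0 := by
    rw [← neg_eq_zero, ← hsum]
  have h4 : ∑ j, wt j = 0 := by exact_mod_cast h3
  omega

/-- the conclusion of the step with the functional equation -/
def ExactW (N : ℕ) (wt : Fin N → ℕ) (d : ℕ) (f : MvPolynomial (Fin N) ℂ) : Prop :=
  ∃ (k : ℕ) (Θ : Fin N → MvPolynomial (Fin N) ℂ),
    (∀ i, IsWeightedHomogeneous wt (Θ i) (d * k + wt i)) ∧
      ∑ i, Θ i * pderiv i f = 0 ∧ ∑ i, pderiv i (Θ i) = f ^ k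

/-- **The form `f ^ (-|w|/d) Ω` is not exact** if the components have normal crossings. -/
theorem not_exact_w [Fintype ι] (hN : 2 ≤ N) (wt : Fin N → ℕ) (hwt : ∀ i, 0 < wt i)
    (F : ι → MvPolynomial (Fin N) ℂ) (e : ι → ℕ)
    (hF : ∀ k, IsWeightedHomogeneous wt (F k) (e k)) (he : ∀ k, 0 < e k) (hS : SNC F)
    (hnl : ¬ LinearIndependent ℂ fun (i : ι) (j : Fin N) => eval 0 (pderiv j (F i)))
    (n : ι → ℕ) (hn : ∀ i, 1 ≤ n i) (d : ℕ) (hd : d = ∑ i, n i * e i) :
    ¬ ExactW N wt d (∏ i, F i ^ n i) := by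
  rintro ⟨k, Θ, hΘ, h1, h2⟩
  have hne : Nonempty ι := by
    by_contra hcon
    rw [not_nonempty_iff] at hcon
    exact hnl (linearIndependent_empty_type)
  have hd0 : 0 < d := by
    obtain ⟨i⟩ := hne
    rw [hd]
    exact Finset.sum_pos (fun i _ => Nat.mul_pos (hn i) (he i)) ⟨i, Finset.mem_univ i⟩
  have hC := compW_of_snc wt hwt F e hF hS
  have h3 := init_PW hN wt hwt F e hF he hS hC n hn d hd hd0 k Θ hΘ h1 h2
  have hdc : (0 : ℝ) < d := by exact_mod_cast hd0
  have hW : 0 < ∑ j, wt j := Finset.sum_pos (fun j _ => hwt j) ⟨⟨0, by omega⟩, Finset.mem_univ _⟩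
  have hlam : ∀ (i : ι) (m : ℕ), ((∑ j, wt j : ℕ) : ℂ) * n i / d + m ≠ 0 := by
    intro i m h
    have h4 : ((∑ j, wt j : ℕ) : ℝ) * n i / d + m = 0 := by
      have := congrArg Complex.re h
      have h5 : (((∑ j, wt j : ℕ) : ℂ) * n i / d + m) =
          ((((∑ j, wt j : ℕ) : ℝ) * n i / d + m : ℝ) : ℂ) := by
        rw [Complex.ofReal_add, Complex.ofReal_div, Complex.ofReal_mul, Complex.ofReal_natCast,
          Complex.ofReal_natCast, Complex.ofReal_natCast, Complex.ofReal_natCast]
      rw [h5, Complex.ofReal_re, Complex.zero_re] at this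
      exact this
    have h5 : (0 : ℝ) < ((∑ j, wt j : ℕ) : ℝ) * n i / d := by
      have h6 : (0 : ℝ) < n i := by
        have := hn i
        exact_mod_cast (by omega : 0 < n i)
      have h7 : (0 : ℝ) < ((∑ j, wt j : ℕ) : ℝ) := by exact_mod_cast hW
      positivity
    have h6 : (0 : ℝ) ≤ m := Nat.cast_nonneg m
    linarith
  exact no_PW hN wt hwt F e hF he hS hnl _
    (reduce_all_w hN wt hwt F e hF he hS hC _ hlam _ _ rfl h3)

end Pool.Agent.Helper48.SW
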