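import Pool.Agent.Helper48.SW.Mot

set_option autoImplicit false
set_option linter.unusedSectionVars false

/-! # Polynomials whose weighted initial forms at the origin cross normally -/

namespace Pool.Agent.Helper48.SW

open Finset MvPolynomial Pool.Agent.H628R4.TP Pool.Agent.K3h38.SM Pool.Agent.Helper48.SN
  Pool.Agent.W574.MO

variable {N : ℕ}

/-- `F` is the initial form of `f` at the origin, and its weight is `e`: `F` is weighted homogeneous
of weight `e`, and `f - F` has only monomials of weight `> e`. -/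
def HasInit (w : Fin N → ℕ) (f : MvPolynomial (Fin N) ℂ) (e : ℕ)
    (F : MvPolynomial (Fin N) ℂ) : Prop :=
  IsWeightedHomogeneous w F e ∧
    ∀ α : Fin N →₀ ℕ, Finsupp.weight w α ≤ e → coeff α f = coeff α F

theorem HasInit.mul {w : Fin N → ℕ} {f g F G : MvPolynomial (Fin N) ℂ} {e e' : ℕ}
    (hf : HasInit w f e F) (hg : HasInit w g e' G) : HasInit w (f * g) (e + e') (F * G) := by
  classical
  refine ⟨hf.1.mul hg.1, fun α hα => ?_⟩
  rw [coeff_mul, coeff_mul]
  refine Finset.sum_congr rfl fun x hx => ?_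
  rw [Finset.HasAntidiagonal.mem_antidiagonal] at hx
  rw [← hx, map_add] at hα
  rcases Nat.lt_or_ge e (Finsupp.weight w x.1) with h | h
  · have h1 : Finsupp.weight w x.2 < e' := by omega
    rw [hg.2 x.2 (by omega), hg.1.coeff_eq_zero x.2 (by omega), mul_zero, mul_zero]
  · rcases Nat.lt_or_ge e' (Finsupp.weight w x.2) with h' | h'
    · have h1 : Finsupp.weight w x.1 < e := by omega
      rw [hf.2 x.1 (by omega), hf.1.coeff_eq_zero x.1 (by omega), zero_mul, zero_mul]
    · rw [hf.2 x.1 h, hg.2 x.2 h']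

theorem hasInit_unit (w : Fin N → ℕ) (hw : ∀ i, 0 < w i) (u : MvPolynomial (Fin N) ℂ) :
    HasInit w u 0 (C (eval 0 u)) := by
  classical
  refine ⟨isWeightedHomogeneous_C w _, fun α hα => ?_⟩
  have h : α = 0 := by
    by_contra h
    obtain ⟨i, hi⟩ := Finsupp.ne_iff.1 h
    rw [Finsupp.coe_zero, Pi.zero_apply] at hi
    have h1 : w i * 1 ≤ Finsupp.weight w α := by
      rw [Finsupp.weight_apply, Finsupp.sum]
      calc w i * 1 ≤ α i • w i := by
            rw [smul_eq_mul, mul_comm]
            exact Nat.mul_le_mul_right _ (Nat.pos_of_ne_zero hi)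
        _ ≤ _ := Finset.single_le_sum (f := fun j => α j • w j) (fun _ _ => Nat.zero_le _)
            (Finsupp.mem_support_iff.2 hi)
    have := hw i
    omega
  subst h
  rw [coeff_zero_C, eval_zero]
  rfl

theorem HasInit.one (w : Fin N → ℕ) : HasInit w 1 0 1 :=
  ⟨isWeightedHomogeneous_one ℂ w, fun _ _ => rfl⟩

theorem HasInit.pow {w : Fin N → ℕ} {f F : MvPolynomial (Fin N) ℂ} {e : ℕ}
    (hf : HasInit w f e F) (n : ℕ) : HasInit w (f ^ n) (n * e) (F ^ n) := by
  induction n with
  | zero => rw [pow_zero, pow_zero, zero_mul]; exact HasInit.one w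
  | succ n ih => rw [pow_succ, pow_succ, add_mul, one_mul]; exact ih.mul hf

theorem HasInit.prod {w : Fin N → ℕ} {ι : Type} (s : Finset ι) (f F : ι → MvPolynomial (Fin N) ℂ)
    (e : ι → ℕ) (h : ∀ i ∈ s, HasInit w (f i) (e i) (F i)) :
    HasInit w (∏ i ∈ s, f i) (∑ i ∈ s, e i) (∏ i ∈ s, F i) := by
  classical
  induction s using Finset.induction_on with
  | empty => rw [prod_empty, prod_empty, sum_empty]; exact HasInit.one w
  | insert a s ha ih =>
    rw [prod_insert ha, prod_insert ha, sum_insert ha]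
    exact (h a (mem_insert_self a s)).mul (ih fun i hi => h i (mem_insert_of_mem hi))

theorem exists_init (w : Fin N → ℕ) (p : MvPolynomial (Fin N) ℂ) (hp : p ≠ 0) :
    ∃ e P, P ≠ 0 ∧ HasInit w p e P := by
  classical
  have hne : p.support.Nonempty := by
    rwa [MvPolynomial.support_nonempty]
  obtain ⟨α, hα, hmin⟩ := Finset.exists_min_image p.support (fun α => Finsupp.weight w α) hne
  refine ⟨Finsupp.weight w α, weightedHomogeneousComponent w (Finsupp.weight w α) p, ?_,
    weightedHomogeneousComponent_isWeightedHomogeneous _ _, fun β hβ => ?_⟩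
  · intro h
    have h1 := congrArg (coeff α) h
    rw [coeff_weightedHomogeneousComponent, if_pos rfl, coeff_zero] at h1
    exact (mem_support_iff.1 hα) h1
  · rw [coeff_weightedHomogeneousComponent]
    split_ifs with h
    · rfl
    · by_contra hb
      have := hmin β (mem_support_iff.2 hb)
      omega

theorem HasInit.le {w : Fin N → ℕ} {f F F' : MvPolynomial (Fin N) ℂ} {e e' : ℕ}
    (h : HasInit w f e F) (h' : HasInit w f e' F') (hF : F ≠ 0) : e' ≤ e := by
  classical
  by_contra hlt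
  obtain ⟨α, hα⟩ := MvPolynomial.ne_zero_iff.1 hF
  have h1 : Finsupp.weight w α = e := by
    by_contra h2
    exact hα (h.1.coeff_eq_zero α h2)
  rw [← h.2 α h1.le, h'.2 α (by omega)] at hα
  exact hα (h'.1.coeff_eq_zero α (by omega))

theorem HasInit.unique {w : Fin N → ℕ} {f F F' : MvPolynomial (Fin N) ℂ} {e e' : ℕ}
    (h : HasInit w f e F) (h' : HasInit w f e' F') (hF : F ≠ 0) (hF' : F' ≠ 0) :
    e = e' ∧ F = F' := by
  classical
  have he : e = e' := le_antisymm (h'.le h hF') (h.le h' hF)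
  subst he
  refine ⟨rfl, ?_⟩
  ext α
  by_cases h1 : Finsupp.weight w α = e
  · rw [← h.2 α h1.le, h'.2 α h1.le]
  · rw [h.1.coeff_eq_zero α h1, h'.1.coeff_eq_zero α h1]

/-- a weighted homogeneous polynomial in at least two variables vanishes outside the origin -/
theorem exists_zero_w (hN : 2 ≤ N) (w : Fin N → ℕ) (hw : ∀ i, 0 < w i)
    (P : MvPolynomial (Fin N) ℂ) (e : ℕ) (he : 0 < e) (hP : IsWeightedHomogeneous w P e) :
    ∃ x : Fin N → ℂ, x ≠ 0 ∧ eval x P = 0 := by
  classical
  set i0 : Fin N := ⟨0, by omega⟩ with hi0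
  set i1 : Fin N := ⟨1, by omega⟩ with hi1
  have h01 : i0 ≠ i1 := by
    rw [hi0, hi1, Ne, Fin.mk.injEq]
    omega
  -- the points `(a, b, 0, ..., 0)`
  let pt : ℂ → ℂ → Fin N → ℂ := fun a b i => if i = i0 then a else if i = i1 then b else 0
  let g : Polynomial ℂ := aeval (fun i => if i = i0 then (1 : Polynomial ℂ) else
    if i = i1 then Polynomial.X else 0) P
  have hg : ∀ t : ℂ, g.eval t = eval (pt 1 t) P := by
    intro t
    have h1 : g.eval t = (Polynomial.evalRingHom t) g := rfl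
    rw [h1]
    change (Polynomial.evalRingHom t) (aeval _ P) = _
    rw [← MvPolynomial.coe_aeval_eq_eval, MvPolynomial.aeval_def, MvPolynomial.hom_eval₂,
      RingHom.coe_coe, MvPolynomial.aeval_def]
    congr 1
    · ext z
      simp
    · funext i
      simp only [pt]
      split_ifs <;> simp
  by_cases hd : g.degree ≤ 0
  · have hc : ∀ t : ℂ, eval (pt 1 t) P = g.coeff 0 := by
      intro t
      rw [← hg t, Polynomial.eq_C_of_degree_le_zero hd, Polynomial.eval_C, Polynomial.coeff_C_zero]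
    refine ⟨pt 0 1, ?_, ?_⟩
    · intro h
      have h1 := congrFun h i1
      simp only [pt, if_neg (Ne.symm h01), if_true, Pi.zero_apply] at h1
      exact one_ne_zero h1
    · let h : Polynomial ℂ := aeval (fun i => if i = i0 then (Polynomial.X ^ w i0 : Polynomial ℂ)
        else if i = i1 then 1 else 0) P - Polynomial.X ^ e * Polynomial.C (g.coeff 0)
      have hh : ∀ s : ℂ, h.eval s = eval (pt (s ^ w i0) 1) P - s ^ e * g.coeff 0 := by
        intro s
        have h1 : h.eval s = (Polynomial.evalRingHom s) (aeval (fun i => if i = i0 then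
            (Polynomial.X ^ w i0 : Polynomial ℂ) else if i = i1 then 1 else 0) P) -
            s ^ e * g.coeff 0 := by
          simp only [h, Polynomial.eval_sub, Polynomial.eval_mul, Polynomial.eval_pow,
            Polynomial.eval_X, Polynomial.eval_C]
          rfl
        rw [h1]
        congr 1
        rw [← MvPolynomial.coe_aeval_eq_eval, MvPolynomial.aeval_def, MvPolynomial.hom_eval₂,
          RingHom.coe_coe, MvPolynomial.aeval_def]
        congr 1
        · ext z
          simp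
        · funext i
          simp only [pt]
          split_ifs <;> simp
      have hz : ∀ s : ℂ, s ≠ 0 → h.eval s = 0 := by
        intro s hs
        rw [hh, ← hc (s⁻¹ ^ w i1), ← eval_orb_hom w P e hP]
        have h1 : (fun i => s ^ w i * pt 1 (s⁻¹ ^ w i1) i) = pt (s ^ w i0) 1 := by
          funext i
          simp only [pt]
          split_ifs with h2 h3
          · rw [h2, mul_one]
          · rw [h3, ← mul_pow, mul_inv_cancel₀ hs, one_pow]
          · rw [mul_zero]
        rw [h1, sub_self]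
      have hzero : h = 0 := by
        refine Polynomial.eq_zero_of_infinite_isRoot h ?_
        refine Set.Infinite.mono (s := ({0} : Set ℂ)ᶜ) (fun s hs => hz s hs) ?_
        exact (Set.finite_singleton (0 : ℂ)).infinite_compl
      have h2 := hh 0
      rw [hzero, Polynomial.eval_zero, zero_pow (hw i0).ne', zero_pow he.ne', zero_mul,
        sub_zero] at h2
      exact h2.symm
  · have h1 : g.degree ≠ 0 := fun h => hd h.le
    obtain ⟨t, ht⟩ := IsAlgClosed.exists_root g h1
    refine ⟨pt 1 t, ?_, ?_⟩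
    · intro h
      have h2 := congrFun h i0
      simp only [pt, if_true, Pi.zero_apply] at h2
      exact one_ne_zero h2
    · rw [← hg t]
      exact ht

theorem HasInit.pos {w : Fin N → ℕ} {p P : MvPolynomial (Fin N) ℂ} {e : ℕ}
    (h : HasInit w p e P) (hP : P ≠ 0) (hw : ∀ i, 0 < w i) (h0 : eval 0 p = 0) : 0 < e := by
  classical
  rcases Nat.eq_zero_or_pos e with he | he
  · subst he
    have h1 := (h.unique (hasInit_unit w hw p) hP)
    exfalso
    have h2 : (C (eval 0 p) : MvPolynomial (Fin N) ℂ) = 0 := by rw [h0, map_zero]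
    have h3 := hasInit_unit w hw p
    apply hP
    ext α
    by_cases h4 : Finsupp.weight w α = 0
    · rw [← h.2 α h4.le, h3.2 α h4.le, h2]
    · rw [h.1.coeff_eq_zero α h4, coeff_zero]
  · exact he

section Primes

variable {ι : Type} [DecidableEq ι] [Fintype ι]

/-- common factors of two of the `f_i` -/
theorem no_common (hN : 2 ≤ N) (w : Fin N → ℕ) (hw : ∀ i, 0 < w i)
    (f F : ι → MvPolynomial (Fin N) ℂ) (e : ι → ℕ) (hf : ∀ i, HasInit w (f i) (e i) (F i))
    (hS : SNC F) (p : MvPolynomial (Fin N) ℂ) (h0 : eval 0 p = 0) (i j : ι) (hij : i ≠ j)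
    (hi : p ∣ f i) (hj : p ∣ f j) : False := by
  classical
  have hFi := F_ne (by omega) F hS i
  have hFj := F_ne (by omega) F hS j
  obtain ⟨g, hg⟩ := hi
  obtain ⟨h, hh⟩ := hj
  have hf0 : ∀ k, f k ≠ 0 := by
    intro k hk
    obtain ⟨α, hα⟩ := MvPolynomial.ne_zero_iff.1 (F_ne (by omega) F hS k)
    have h1 : Finsupp.weight w α = e k := by
      by_contra h2
      exact hα ((hf k).1.coeff_eq_zero α h2)
    rw [← (hf k).2 α h1.le, hk, coeff_zero] at hα
    exact hα rfl
  have hp0 : p ≠ 0 := fun h => hf0 i (by rw [hg, h, zero_mul])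
  have hg0 : g ≠ 0 := fun h => hf0 i (by rw [hg, h, mul_zero])
  have hh0 : h ≠ 0 := fun h' => hf0 j (by rw [hh, h', mul_zero])
  obtain ⟨ep, P, hP0, hP⟩ := exists_init w p hp0
  obtain ⟨eg, G, hG0, hG⟩ := exists_init w g hg0
  obtain ⟨eh, H, hH0, hH⟩ := exists_init w h hh0
  have h1 : F i = P * G := ((hf i).unique (hg ▸ hP.mul hG) hFi (mul_ne_zero hP0 hG0)).2
  have h2 : F j = P * H := ((hf j).unique (hh ▸ hP.mul hH) hFj (mul_ne_zero hP0 hH0)).2
  obtain ⟨x, hx0, hx⟩ := exists_zero_w hN w hw P ep (hP.pos hP0 hw h0) hP.1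
  have h3 := hS {i, j} x hx0 (by
    intro k hk
    rw [Finset.mem_insert, Finset.mem_singleton] at hk
    rcases hk with rfl | rfl
    · rw [h1, map_mul, hx, zero_mul]
    · rw [h2, map_mul, hx, zero_mul])
  have hgi : ∀ l, eval x (pderiv l (F i)) = eval x G * eval x (pderiv l P) := by
    intro l
    rw [h1, pderiv_mul, map_add, map_mul, map_mul, hx, zero_mul, add_zero, mul_comm]
  have hgj : ∀ l, eval x (pderiv l (F j)) = eval x H * eval x (pderiv l P) := by
    intro l
    rw [h2, pderiv_mul, map_add, map_mul, map_mul, hx, zero_mul, add_zero, mul_comm]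
  have hGx : eval x G ≠ 0 := by
    intro h4
    refine h3.ne_zero ⟨i, Finset.mem_insert_self i _⟩ ?_
    funext l
    change eval x (pderiv l (F i)) = 0
    rw [hgi, h4, zero_mul]
  have hne : (⟨i, Finset.mem_insert_self i _⟩ : ({i, j} : Finset ι)) ≠ ⟨j, by simp⟩ := by
    intro h4
    exact hij (congrArg Subtype.val h4)
  have h5 := linearIndependent_iff'.1 h3 {⟨i, Finset.mem_insert_self i _⟩, ⟨j, by simp⟩}
    (fun k => if k = ⟨i, Finset.mem_insert_self i _⟩ then eval x H else - eval x G) (by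
      rw [Finset.sum_pair hne, if_pos rfl, if_neg (Ne.symm hne)]
      funext l
      change eval x H * eval x (pderiv l (F i)) + - eval x G * eval x (pderiv l (F j)) = 0
      rw [hgi, hgj]
      ring) ⟨j, by simp⟩ (by simp)
  simp only [if_neg (Ne.symm hne)] at h5
  exact hGx (neg_eq_zero.1 h5)

theorem no_square (hN : 2 ≤ N) (w : Fin N → ℕ) (hw : ∀ i, 0 < w i)
    (f F : ι → MvPolynomial (Fin N) ℂ) (e : ι → ℕ) (hf : ∀ i, HasInit w (f i) (e i) (F i))
    (hS : SNC F) (p : MvPolynomial (Fin N) ℂ) (h0 : eval 0 p = 0) (i : ι) (hi : p * p ∣ f i) :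
    False := by
  classical
  have hFi := F_ne (by omega) F hS i
  obtain ⟨g, hg⟩ := hi
  have hf0 : f i ≠ 0 := by
    intro hk
    obtain ⟨α, hα⟩ := MvPolynomial.ne_zero_iff.1 hFi
    have h1 : Finsupp.weight w α = e i := by
      by_contra h2
      exact hα ((hf i).1.coeff_eq_zero α h2)
    rw [← (hf i).2 α h1.le, hk, coeff_zero] at hα
    exact hα rfl
  have hp0 : p ≠ 0 := fun h => hf0 (by rw [hg, h, zero_mul, zero_mul])
  have hg0 : g ≠ 0 := fun h => hf0 (by rw [hg, h, mul_zero])
  obtain ⟨ep, P, hP0, hP⟩ := exists_init w p hp0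
  obtain ⟨eg, G, hG0, hG⟩ := exists_init w g hg0
  have h1 : F i = P * P * G := ((hf i).unique (hg ▸ (hP.mul hP).mul hG) hFi
    (mul_ne_zero (mul_ne_zero hP0 hP0) hG0)).2
  obtain ⟨x, hx0, hx⟩ := exists_zero_w hN w hw P ep (hP.pos hP0 hw h0) hP.1
  have h3 := hS {i} x hx0 (by
    intro k hk
    rw [Finset.mem_singleton] at hk
    rw [hk, h1, map_mul, map_mul, hx, zero_mul, zero_mul])
  refine h3.ne_zero ⟨i, Finset.mem_singleton_self i⟩ ?_
  funext l
  change eval x (pderiv l (F i)) = 0
  rw [h1, pderiv_mul, pderiv_mul, map_add, map_mul, map_mul, map_add, map_mul, map_mul, map_mul, hx]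
  ring

theorem f_ne (hN : 2 ≤ N) (w : Fin N → ℕ) (f F : ι → MvPolynomial (Fin N) ℂ) (e : ι → ℕ)
    (hf : ∀ i, HasInit w (f i) (e i) (F i)) (hS : SNC F) (i : ι) : f i ≠ 0 := by
  intro hk
  obtain ⟨α, hα⟩ := MvPolynomial.ne_zero_iff.1 (F_ne (by omega) F hS i)
  have h1 : Finsupp.weight w α = e i := by
    by_contra h2
    exact hα ((hf i).1.coeff_eq_zero α h2)
  rw [← (hf i).2 α h1.le, hk, coeff_zero] at hα
  exact hα rfl

theorem f_zero (w : Fin N → ℕ) (f F : ι → MvPolynomial (Fin N) ℂ) (e : ι → ℕ)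
    (hf : ∀ i, HasInit w (f i) (e i) (F i)) (he : ∀ i, 0 < e i) (i : ι) :
    eval 0 (f i) = 0 := by
  rw [eval_zero, constantCoeff_eq, (hf i).2 0 (by rw [map_zero]; exact Nat.zero_le _),
    (hf i).1.coeff_eq_zero 0 (by rw [map_zero]; exact (he i).ne)]

theorem exists_prime_factor (g : MvPolynomial (Fin N) ℂ) (hg : g ≠ 0) (h0 : eval 0 g = 0) :
    ∃ p, Prime p ∧ eval 0 p = 0 ∧ p ∣ g := by
  classical
  obtain ⟨s, hs, ⟨v, hv⟩⟩ := UniqueFactorizationMonoid.exists_prime_factors g hg
  have h1 : eval 0 s.prod = 0 := by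
    have h2 : eval 0 s.prod * eval 0 (v : MvPolynomial (Fin N) ℂ) = 0 := by
      rw [← map_mul, hv, h0]
    rcases mul_eq_zero.1 h2 with h3 | h3
    · exact h3
    · exact absurd h3 (v.isUnit.map (eval (0 : Fin N → ℂ))).ne_zero
  rw [map_multiset_prod, Multiset.prod_eq_zero_iff, Multiset.mem_map] at h1
  obtain ⟨p, hp, hp0⟩ := h1
  exact ⟨p, hs p hp, hp0, (Multiset.dvd_prod hp).trans ⟨v, hv.symm⟩⟩

/-- **The roots `-1/n_i`.** -/
theorem prime_power (hN : 2 ≤ N) (w : Fin N → ℕ) (hw : ∀ i, 0 < w i)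
    (f F : ι → MvPolynomial (Fin N) ℂ) (e n : ι → ℕ) (hf : ∀ i, HasInit w (f i) (e i) (F i))
    (he : ∀ i, 0 < e i) (hS : SNC F) (u : MvPolynomial (Fin N) ℂ) (hu : eval 0 u ≠ 0) (i : ι) :
    ∃ p q, Prime p ∧ eval 0 p = 0 ∧ u * ∏ i, f i ^ n i = p ^ n i * q ∧ ¬ p ∣ q := by
  classical
  obtain ⟨p, hp, hp0, g, hg⟩ := exists_prime_factor (f i) (f_ne hN w f F e hf hS i)
    (f_zero w f F e hf he i)
  refine ⟨p, u * g ^ n i * ∏ j ∈ Finset.univ.erase i, f j ^ n j, hp, hp0, ?_, fun h => ?_⟩
  · rw [← Finset.mul_prod_erase Finset.univ _ (Finset.mem_univ i), hg, mul_pow]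
    ring
  · rcases hp.dvd_or_dvd h with h1 | h1
    · rcases hp.dvd_or_dvd h1 with h2 | h2
      · obtain ⟨v, rfl⟩ := h2
        rw [map_mul, hp0, zero_mul] at hu
        exact hu rfl
      · have h3 := hp.dvd_of_dvd_pow h2
        exact no_square hN w hw f F e hf hS p hp0 i (by
          rw [hg]
          exact mul_dvd_mul_left p h3)
    · obtain ⟨j, hj, h2⟩ := (hp.dvd_finsetProd_iff _).1 h1
      have h3 := hp.dvd_of_dvd_pow h2
      exact no_common hN w hw f F e hf hS p hp0 i j (Ne.symm (Finset.ne_of_mem_erase hj))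
        ⟨g, hg⟩ h3

/-- the certificate at the origin of a polynomial -/
theorem from_init (w : Fin N → ℕ) (d : ℕ) (φ f : MvPolynomial (Fin N) ℂ)
    (hφ : NonexactForm w d φ) (h1 : HasInit w f d φ) : FromInitialForm f 0 d (∑ i, w i) := by
  classical
  refine ⟨N, 0, w, MvPowerSeries.renameEquiv ℂ (Equiv.sumEmpty (Fin N) (Fin 0)).symm, φ, hφ, ?_,
    rfl⟩
  have htr : tr 0 f = f := by
    have h2 : tr (0 : Fin N → ℂ) = AlgHom.id ℂ _ := by
      ext i
      simp [tr]
    rw [h2]
    rfl
  rw [htr]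
  have hco : ∀ (α : Fin N →₀ ℕ) (β : Fin 0 →₀ ℕ) (g : MvPolynomial (Fin N) ℂ),
      MvPowerSeries.coeff (α.sumElim β) (MvPowerSeries.renameEquiv ℂ
        (Equiv.sumEmpty (Fin N) (Fin 0)).symm ((g : MvPolynomial (Fin N) ℂ) :
          MvPowerSeries (Fin N) ℂ)) = coeff α g := by
    intro α β g
    have h2 : α.sumElim β = Finsupp.embDomain
        ((Equiv.sumEmpty (Fin N) (Fin 0)).symm.toEmbedding) α := by
      ext z
      rcases z with z | z
      · have h3 : (Sum.inl z : Fin N ⊕ Fin 0) =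
          (Equiv.sumEmpty (Fin N) (Fin 0)).symm.toEmbedding z := rfl
        rw [Finsupp.sumElim_inl, h3, Finsupp.embDomain_apply_self]
      · exact z.elim0
    rw [h2]
    have h4 := MvPowerSeries.coeff_embDomain_rename (R := ℂ)
      (Equiv.sumEmpty (Fin N) (Fin 0)).symm.toEmbedding
      ((g : MvPolynomial (Fin N) ℂ) : MvPowerSeries (Fin N) ℂ) α
    rw [MvPolynomial.coeff_coe] at h4
    exact h4
  refine ⟨h1.1, fun α β hα => ?_, fun α hα => ?_⟩
  · rw [hco, h1.2 α hα.le, h1.1.coeff_eq_zero α hα.ne]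
  · rw [hco, h1.2 α hα.le]

/-- the certificate at the origin -/
theorem fromInitialForm {r : ℕ} (hN : 2 ≤ N) (w : Fin N → ℕ) (hw : ∀ i, 0 < w i)
    (f F : Fin r → MvPolynomial (Fin N) ℂ) (e n : Fin r → ℕ)
    (hf : ∀ i, HasInit w (f i) (e i) (F i)) (he : ∀ i, 0 < e i) (hn : ∀ i, 1 ≤ n i) (hS : SNC F)
    (hli : ¬ LinearIndependent ℂ fun (i : Fin r) (j : Fin N) => eval 0 (pderiv j (F i)))
    (u : MvPolynomial (Fin N) ℂ) (hu : eval 0 u ≠ 0) :
    FromInitialForm (u * ∏ i, f i ^ n i) 0 (∑ i, n i * e i) (∑ i, w i) := by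
  classical
  have hr : Nonempty (Fin r) := by
    by_contra hcon
    rw [not_nonempty_iff] at hcon
    exact hli linearIndependent_empty_type
  obtain ⟨i0⟩ := hr
  obtain ⟨a, ha⟩ := IsAlgClosed.exists_pow_nat_eq (eval 0 u) (hn i0)
  have ha0 : a ≠ 0 := by
    rintro rfl
    rw [zero_pow (by have := hn i0; omega)] at ha
    exact hu ha.symm
  let κ : Fin r → ℂ := fun i => if i = i0 then a else 1
  have hκ : ∀ i, κ i ≠ 0 := by
    intro i
    simp only [κ]
    split_ifs
    · exact ha0
    · exact one_ne_zero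
  have hgr : ∀ (x : Fin N → ℂ) (i : Fin r), (fun j => eval x (pderiv j (C (κ i) * F i))) =
      κ i • fun j => eval x (pderiv j (F i)) := by
    intro x i
    funext j
    rw [pderiv_C_mul, Pi.smul_apply, map_mul, eval_C, smul_eq_mul]
  refine from_init w _ (∏ i, (C (κ i) * F i) ^ n i) _ (NormalCrossingForm.nonexact ⟨hN, hw, r,
    fun i => C (κ i) * F i, e, n, ?_, he, hn, ?_, ?_, rfl, rfl⟩) ?_
  · intro i
    have h := (isWeightedHomogeneous_C w (κ i)).mul (hf i).1
    rwa [zero_add] at h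
  · intro I x hx hI
    have h1 := hS I x hx (fun i hi => by
      have h2 := hI i hi
      rw [map_mul, eval_C] at h2
      exact (mul_eq_zero.1 h2).resolve_left (hκ i))
    have h2 := h1.units_smul (fun i : I => Units.mk0 (κ i) (hκ i))
    convert h2 using 1
    funext i
    exact hgr x i
  · intro h
    apply hli
    have h2 := h.units_smul (fun i : Fin r => (Units.mk0 (κ i) (hκ i))⁻¹)
    convert h2 using 1
    funext i
    rw [Pi.smul_apply']
    change _ = (Units.mk0 (κ i) (hκ i))⁻¹ • (fun j => eval 0 (pderiv j (C (κ i) * F i)))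
    rw [hgr 0 i, Units.smul_def, Units.val_inv_eq_inv_val, Units.val_mk0, smul_smul,
      inv_mul_cancel₀ (hκ i), one_smul]
  · have h2 := (hasInit_unit w hw u).mul (HasInit.prod Finset.univ (fun i => f i ^ n i)
      (fun i => F i ^ n i) (fun i => n i * e i) (fun i _ => (hf i).pow (n i)))
    rw [zero_add] at h2
    have h3 : (∏ i, (C (κ i) * F i) ^ n i : MvPolynomial (Fin N) ℂ) =
        C (eval 0 u) * ∏ i, F i ^ n i := by
      simp only [mul_pow]
      rw [Finset.prod_mul_distrib]
      congr 1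
      rw [Finset.prod_eq_single i0]
      · simp only [κ, if_true]
        rw [← C_pow, ha]
      · intro i _ hi
        simp only [κ, if_neg hi, map_one, one_pow]
      · intro h
        exact absurd (Finset.mem_univ _) h
    rw [h3]
    exact h2

end Primes

end Pool.Agent.Helper48.SW
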