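import Pool.Agent.Helper48.SW.PoleW
import Pool.Agent.Helper48.SN.Init

set_option autoImplicit false
set_option linter.unusedSectionVars false

/-! # The starting equation, weighted homogeneous case -/

namespace Pool.Agent.Helper48.SW

open Finset MvPolynomial Pool.Agent.H119.LSS Pool.Agent.Helper48.SN

variable {N : ℕ}

theorem cartan_w (wt : Fin N → ℕ) (ω : Om (Fin N) (MvPolynomial (Fin N) ℂ)) :
    dd (ii (EE wt) ω) + ii (EE wt) (dd ω) =
      ∑ i, (wt i : ℂ) • ex i (ct i ω) + ∑ i, EE wt i • pd i ω := by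
  classical
  have h1 : dd (ii (EE wt) ω) =
      ∑ i, ((wt i : ℂ) • ex i (ct i ω) + ∑ j, EE wt j • ex i (ct j (pd i ω))) := by
    rw [dd_apply]
    refine Finset.sum_congr rfl fun i _ => ?_
    rw [ii_apply, map_sum]
    have h2 : ∀ j, pd i (EE wt j • ct j ω) =
        (if j = i then (wt i : ℂ) • ct i ω else 0) + EE wt j • ct j (pd i ω) := by
      intro j
      rw [pd_smul, pd_ct, EE, pderiv_C_mul, pderiv_X]
      congr 1
      split_ifs with h
      · subst h
        rw [Pi.single_eq_same, mul_one]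
        funext S
        rw [Pi.smul_apply, Pi.smul_apply, smul_eq_mul, C_mul']
      · rw [Pi.single_eq_of_ne h, mul_zero, zero_smul]
    rw [Finset.sum_congr rfl fun j _ => h2 j, Finset.sum_add_distrib, Finset.sum_ite_eq' univ i,
      if_pos (Finset.mem_univ i), map_add, map_sum]
    congr 1
    · exact LinearMap.map_smul_of_tower _ _ _
    · exact Finset.sum_congr rfl fun j _ => by rw [map_smul]
  have h3 : ii (EE wt) (dd ω) =
      ∑ i, ∑ j, EE wt j • ct j (ex i (pd i ω)) := by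
    rw [dd_apply, map_sum]
    exact Finset.sum_congr rfl fun i _ => by rw [ii_apply]
  rw [h1, h3, Finset.sum_add_distrib, add_assoc, ← Finset.sum_add_distrib]
  congr 1
  refine Finset.sum_congr rfl fun i _ => ?_
  rw [← Finset.sum_add_distrib, Finset.sum_eq_single i]
  · rw [← smul_add, ex_ct_self]
  · intro j _ hj
    rw [← smul_add, ex_ct i j (Ne.symm hj), neg_add_cancel, smul_zero]
  · intro h
    exact absurd (Finset.mem_univ i) h

theorem ex_ct_at {R : Type} [CommRing R] (i : Fin N) (ω : Om (Fin N) R) (S : Finset (Fin N)) :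
    ex i (ct i ω) S = if i ∈ S then ω S else 0 := by
  rw [ex_apply]
  split_ifs with h
  · rw [ct_apply, if_neg (Finset.notMem_erase i S), Finset.insert_erase h, sg_erase i i S h,
      if_neg (lt_irrefl i), smul_smul, sg_sq, one_smul]
  · rfl

theorem coeff_X_pderiv (i : Fin N) (p : MvPolynomial (Fin N) ℂ) (m : Fin N →₀ ℕ) :
    coeff m (X i * pderiv i p) = m i * coeff m p := by
  classical
  induction p using MvPolynomial.induction_on' with
  | monomial u a =>
    rw [X_mul_pderiv_monomial, coeff_smul, coeff_monomial]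
    split_ifs with h
    · rw [h, nsmul_eq_mul]
    · rw [smul_zero, mul_zero]
  | add p q hp hq => rw [map_add, mul_add, coeff_add, coeff_add, hp, hq, mul_add]

/-- the form has total weight `n` -/
def IsTot (wt : Fin N → ℕ) (n : ℕ) (ω : Om (Fin N) (MvPolynomial (Fin N) ℂ)) : Prop :=
  ∀ (S : Finset (Fin N)) (m : Fin N →₀ ℕ), coeff m (ω S) ≠ 0 →
    Finsupp.weight wt m + ∑ i ∈ S, wt i = n

theorem euler_tot (wt : Fin N → ℕ) (n : ℕ) (ω : Om (Fin N) (MvPolynomial (Fin N) ℂ))
    (h : IsTot wt n ω) : dd (ii (EE wt) ω) + ii (EE wt) (dd ω) = (n : ℂ) • ω := by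
  rw [cartan_w]
  funext S
  ext m
  rw [Pi.add_apply, Finset.sum_apply, Finset.sum_apply, coeff_add, coeff_sum, coeff_sum,
    Pi.smul_apply, coeff_smul, smul_eq_mul]
  have h1 : ∀ i, coeff m (((wt i : ℂ) • ex i (ct i ω)) S) =
      if i ∈ S then (wt i : ℂ) * coeff m (ω S) else 0 := by
    intro i
    rw [Pi.smul_apply, coeff_smul, ex_ct_at, smul_eq_mul]
    split_ifs
    · rfl
    · rw [coeff_zero, mul_zero]
  have h2 : ∀ i, coeff m ((EE wt i • pd i ω) S) = (wt i : ℂ) * (m i * coeff m (ω S)) := by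
    intro i
    rw [Pi.smul_apply, smul_eq_mul, EE, mul_assoc, coeff_C_mul, pd_apply, coeff_X_pderiv]
  rw [Finset.sum_congr rfl fun i _ => h1 i, Finset.sum_congr rfl fun i _ => h2 i,
    Finset.sum_ite_mem, Finset.univ_inter]
  by_cases h3 : coeff m (ω S) = 0
  · rw [h3]
    simp
  · have h4 := h S m h3
    rw [← h4, Finsupp.weight_apply, Finsupp.sum_fintype _ _ (fun i => by simp)]
    push_cast
    rw [← Finset.sum_mul, add_mul, add_comm]
    congr 1
    rw [Finset.sum_mul]
    exact Finset.sum_congr rfl fun i _ => by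
      rw [smul_eq_mul]
      push_cast
      ring

theorem tot_ii_vol (wt : Fin N → ℕ) (q : ℕ) (v : Fin N → MvPolynomial (Fin N) ℂ)
    (hv : ∀ i, IsWeightedHomogeneous wt (v i) (q + wt i)) :
    IsTot wt (q + ∑ i, wt i) (ii v vol) := by
  classical
  intro S m hm
  rw [ii_apply, Finset.sum_apply, coeff_sum] at hm
  obtain ⟨i, _, hi⟩ := Finset.exists_ne_zero_of_sum_ne_zero hm
  rw [Pi.smul_apply, ct_apply, smul_eq_mul] at hi
  by_cases h1 : i ∈ S
  · rw [if_pos h1, mul_zero, coeff_zero] at hi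
    exact absurd rfl hi
  · rw [if_neg h1, vol] at hi
    by_cases h2 : insert i S = Finset.univ
    · rw [if_pos h2, mul_smul_comm, mul_one] at hi
      have h3 : coeff m (v i) ≠ 0 := by
        intro h3
        apply hi
        rw [zsmul_eq_mul, ← map_intCast (C : ℂ →+* MvPolynomial (Fin N) ℂ), coeff_C_mul, h3,
          mul_zero]
      rw [hv i h3, ← h2, Finset.sum_insert h1, add_assoc]
    · rw [if_neg h2, smul_zero, mul_zero, coeff_zero] at hi
      exact absurd rfl hi

variable {ι : Type} [DecidableEq ι] [Fintype ι]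

theorem copr_w (hN : 2 ≤ N) (wt : Fin N → ℕ) (hwt : ∀ i, 0 < wt i)
    (F : ι → MvPolynomial (Fin N) ℂ) (e : ι → ℕ)
    (hF : ∀ k, IsWeightedHomogeneous wt (F k) (e k)) (he : ∀ k, 0 < e k) (hC : CompW wt F)
    (i l : ι) (hil : i ≠ l) (a : MvPolynomial (Fin N) ℂ) (h : F i ∣ F l * a) : F i ∣ a := by
  rw [← Ideal.mem_span_singleton, ← FI_single]
  refine nzd_w wt hwt F e hF he hC [i] l (by
    rw [List.nodup_cons]
    exact ⟨by simpa using Ne.symm hil, List.nodup_singleton i⟩) (by simpa using hN) a ?_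
  rw [FI_single, Ideal.mem_span_singleton]
  exact h

theorem copr_prod_w (hN : 2 ≤ N) (wt : Fin N → ℕ) (hwt : ∀ i, 0 < wt i)
    (F : ι → MvPolynomial (Fin N) ℂ) (e : ι → ℕ)
    (hF : ∀ k, IsWeightedHomogeneous wt (F k) (e k)) (he : ∀ k, 0 < e k) (hC : CompW wt F) (i : ι)
    (s : Finset ι) (hs : i ∉ s) (a : MvPolynomial (Fin N) ℂ) (h : F i ∣ (∏ l ∈ s, F l) * a) :
    F i ∣ a := by
  induction s using Finset.induction_on generalizing a with
  | empty => simpa using h
  | insert b s hb ih =>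
    rw [Finset.prod_insert hb, mul_assoc] at h
    have h1 : i ≠ b := fun h2 => hs (h2 ▸ Finset.mem_insert_self b s)
    exact ih (fun h2 => hs (Finset.mem_insert_of_mem h2)) a
      (copr_w hN wt hwt F e hF he hC i b h1 _ h)

theorem euler_w (wt : Fin N → ℕ) (p : MvPolynomial (Fin N) ℂ) (k : ℕ)
    (hp : IsWeightedHomogeneous wt p k) : ∑ j, EE wt j * pderiv j p = C (k : ℂ) * p := by
  ext m
  rw [coeff_sum, coeff_C_mul]
  have h2 : ∀ i, coeff m (EE wt i * pderiv i p) = (wt i : ℂ) * (m i * coeff m p) := by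
    intro i
    rw [EE, mul_assoc, coeff_C_mul, coeff_X_pderiv]
  rw [Finset.sum_congr rfl fun i _ => h2 i]
  by_cases h3 : coeff m p = 0
  · rw [h3]
    simp
  · rw [← hp h3, Finsupp.weight_apply, Finsupp.sum_fintype _ _ (fun i => by simp)]
    push_cast
    rw [Finset.sum_mul]
    exact Finset.sum_congr rfl fun i _ => by
      rw [smul_eq_mul]
      push_cast
      ring

theorem init_PW (hN : 2 ≤ N) (wt : Fin N → ℕ) (hwt : ∀ i, 0 < wt i)
    (F : ι → MvPolynomial (Fin N) ℂ) (e : ι → ℕ)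
    (hF : ∀ k, IsWeightedHomogeneous wt (F k) (e k)) (he : ∀ k, 0 < e k) (hS : SNC F)
    (hC : CompW wt F) (n : ι → ℕ) (hn : ∀ i, 1 ≤ n i) (d : ℕ) (hd : d = ∑ i, n i * e i)
    (hd0 : 0 < d) (k : ℕ) (Θ : Fin N → MvPolynomial (Fin N) ℂ)
    (hΘ : ∀ i, IsWeightedHomogeneous wt (Θ i) (d * k + wt i))
    (h1 : ∑ i, Θ i * pderiv i (∏ i, F i ^ n i) = 0)
    (h2 : ∑ i, pderiv i (Θ i) = (∏ i, F i ^ n i) ^ k) :
    PW wt F (fun i => ((∑ j, wt j : ℕ) : ℂ) * n i / d) (fun i => n i * k) := by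
  have hne : ∀ k, F k ≠ 0 := F_ne (by omega) F hS
  set D : Derivation ℂ (MvPolynomial (Fin N) ℂ) (MvPolynomial (Fin N) ℂ) :=
    ∑ i, Θ i • pderiv i with hD
  have hDa : ∀ p, D p = ∑ i, Θ i * pderiv i p := by
    intro p
    have h := map_sum (Derivation.coeFnAddMonoidHom (R := ℂ) (A := MvPolynomial (Fin N) ℂ)
      (M := MvPolynomial (Fin N) ℂ)) (fun i => Θ i • pderiv i) Finset.univ
    have h' := congrFun h p
    rw [Finset.sum_apply] at h'
    exact h'
  have h3 := deriv_prod D F n hn Finset.univ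
  rw [hDa, h1] at h3
  have h4 : ∑ i, ((n i : ℕ) : MvPolynomial (Fin N) ℂ) * (D (F i) * ∏ l ∈ Finset.univ.erase i, F l)
      = 0 := by
    rcases mul_eq_zero.1 h3.symm with h5 | h5
    · rw [Finset.prod_eq_zero_iff] at h5
      obtain ⟨i, _, hi⟩ := h5
      exact absurd (eq_zero_of_pow_eq_zero hi) (hne i)
    · exact h5
  -- divisibility
  have h5 : ∀ i, F i ∣ D (F i) := by
    intro i
    have h6 : F i ∣ (∏ l ∈ Finset.univ.erase i, F l) *
        (((n i : ℕ) : MvPolynomial (Fin N) ℂ) * D (F i)) := by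
      have h7 := h4
      rw [← Finset.add_sum_erase Finset.univ _ (Finset.mem_univ i)] at h7
      have h8 : F i ∣ ∑ x ∈ Finset.univ.erase i, ((n x : ℕ) : MvPolynomial (Fin N) ℂ) *
          (D (F x) * ∏ l ∈ Finset.univ.erase x, F l) := by
        refine Finset.dvd_sum fun x hx => ?_
        refine Dvd.dvd.mul_left (Dvd.dvd.mul_left (Finset.dvd_prod_of_mem _ ?_) _) _
        rw [Finset.mem_erase]
        exact ⟨Ne.symm (Finset.ne_of_mem_erase hx), Finset.mem_univ i⟩
      have h9 := (Dvd.dvd.neg_right h8)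
      rw [← eq_neg_iff_add_eq_zero.2 h7] at h9
      convert h9 using 1
      ring
    have h7 := copr_prod_w hN wt hwt F e hF he hC i _ (Finset.notMem_erase i _) _ h6
    obtain ⟨c, hc⟩ := h7
    refine ⟨C ((n i : ℂ)⁻¹) * c, ?_⟩
    have h8 : (n i : ℂ) ≠ 0 := by
      have := hn i
      exact_mod_cast (by omega : n i ≠ 0)
    have h9 : (C ((n i : ℂ)⁻¹) : MvPolynomial (Fin N) ℂ) * ((n i : ℕ) : MvPolynomial (Fin N) ℂ) = 1 := by
      rw [← map_natCast (C : ℂ →+* MvPolynomial (Fin N) ℂ), ← map_mul, inv_mul_cancel₀ h8, map_one]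
    calc D (F i) = (C ((n i : ℂ)⁻¹) * ((n i : ℕ) : MvPolynomial (Fin N) ℂ)) * D (F i) := by
          rw [h9, one_mul]
      _ = C ((n i : ℂ)⁻¹) * (((n i : ℕ) : MvPolynomial (Fin N) ℂ) * D (F i)) := by ring
      _ = _ := by rw [hc]; ring
  choose θ hθ using h5
  have h6 : ∑ i, ((n i : ℕ) : MvPolynomial (Fin N) ℂ) * θ i = 0 := by
    have h7 : (∏ l, F l) * ∑ i, ((n i : ℕ) : MvPolynomial (Fin N) ℂ) * θ i = 0 := by
      rw [← h4, Finset.mul_sum]
      refine Finset.sum_congr rfl fun i _ => ?_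
      rw [hθ i, ← Finset.mul_prod_erase Finset.univ F (Finset.mem_univ i)]
      ring
    rcases mul_eq_zero.1 h7 with h8 | h8
    · rw [Finset.prod_eq_zero_iff] at h8
      obtain ⟨i, _, hi⟩ := h8
      exact absurd hi (hne i)
    · exact h8
  set η := ii Θ (vol : Om (Fin N) (MvPolynomial (Fin N) ℂ)) with hη
  have hηq : IsTot wt (d * k + ∑ i, wt i) η := tot_ii_vol wt (d * k) Θ hΘ
  have hdη : dd η = (∏ i, F i ^ n i) ^ k • vol := by
    rw [hη, dd_ii_vol, h2]
  have h7 := euler_tot wt _ η hηq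
  rw [hdη, map_smul] at h7
  refine PW_of wt F _ _ (ii (EE wt) η) (fun i => ((e i : ℕ) : ℂ) • η - θ i • OmW wt)
    (fun i => ?_) ?_
  · change ee (grad (F i)) _ = _
    have h8 := ii_ee (EE wt) (grad (F i)) η
    rw [hη, ee_ii_vol, ← hη] at h8
    have h9 : ∑ j, Θ j * grad (F i) j = F i * θ i := by
      rw [← hθ i, hDa]
      rfl
    have h10 : ∑ j, EE wt j * grad (F i) j = C (e i : ℂ) * F i := euler_w wt (F i) (e i) (hF i)
    rw [h9, h10, map_smul] at h8
    have h11 : ee (grad (F i)) (ii (EE wt) η) =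
        (C (e i : ℂ) * F i) • η - (F i * θ i) • ii (EE wt) vol := by
      rw [h8]
      abel
    rw [h11, smul_sub, mul_smul]
    congr 1
    · rw [smul_comm]
      congr 1
      funext S
      rw [Pi.smul_apply, Pi.smul_apply, smul_eq_mul, C_mul']
    · rw [mul_smul]
      rfl
  · have h8 : ∑ i, (((∑ j, wt j : ℕ) : ℂ) * n i / d + ((n i * k : ℕ) : ℂ)) •
        (((e i : ℕ) : ℂ) • η - θ i • OmW wt) =
        (((∑ j, wt j : ℕ) : ℂ) + d * k) • η := by
      have hd1 : (d : ℂ) ≠ 0 := by exact_mod_cast hd0.ne'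
      set W : ℂ := ((∑ j, wt j : ℕ) : ℂ) with hW
      have h9 : ∀ i, (W * n i / d + ((n i * k : ℕ) : ℂ)) •
          (((e i : ℕ) : ℂ) • η - θ i • OmW wt) =
          ((W / d + k) * (n i * e i)) • η - (W / d + k) • ((n i : ℂ) • θ i • OmW wt) := by
        intro i
        rw [smul_sub, smul_smul, smul_smul]
        congr 2
        · push_cast
          ring
        · push_cast
          ring
      rw [Finset.sum_congr rfl fun i _ => h9 i, Finset.sum_sub_distrib, ← Finset.sum_smul,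
        ← Finset.mul_sum, ← Finset.smul_sum]
      have h10 : ∑ i, (n i : ℂ) • θ i • OmW wt = 0 := by
        have h11 : ∑ i, (n i : ℂ) • θ i • OmW wt =
            (∑ i, ((n i : ℕ) : MvPolynomial (Fin N) ℂ) * θ i) • OmW wt := by
          rw [Finset.sum_smul]
          refine Finset.sum_congr rfl fun i _ => ?_
          rw [mul_smul, Nat.cast_smul_eq_nsmul, Nat.cast_smul_eq_nsmul]
        rw [h11, h6, zero_smul]
      rw [h10, smul_zero, sub_zero]
      congr 1
      have h12 : ∑ i, (n i : ℂ) * (e i : ℂ) = d := by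
        rw [hd]
        push_cast
        rfl
      rw [h12, add_mul, div_mul_cancel₀ _ hd1]
      ring
    rw [h8]
    have h9 : ((d * k + ∑ i, wt i : ℕ) : ℂ) = ((∑ j, wt j : ℕ) : ℂ) + d * k := by
      push_cast
      ring
    rw [h9] at h7
    rw [← h7]
    have h10 : ∏ i, F i ^ (n i * k) = (∏ i, F i ^ n i) ^ k := by
      rw [← Finset.prod_pow]
      exact Finset.prod_congr rfl fun i _ => by rw [pow_mul]
    rw [h10, OmW]
    abel

end Pool.Agent.Helper48.SW
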