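import Pool.Agent.Helper48.SN.Koszul

set_option autoImplicit false
set_option linter.unusedSectionVars false

/-! # Weighted homogeneous polynomials without common zeros are regular sequences -/

namespace Pool.Agent.Helper48.SW

open Finset MvPolynomial Pool.Agent.H119.LSS Pool.Agent.Helper48.SN

variable {N : ℕ}

/-- the exponent `w m` -/
noncomputable def mw (w : Fin N → ℕ) (m : Fin N →₀ ℕ) : Fin N →₀ ℕ :=
  Finsupp.equivFunOnFinite.symm fun i => w i * m i

/-- the exponent `m / w` -/
noncomputable def dw (w : Fin N → ℕ) (m : Fin N →₀ ℕ) : Fin N →₀ ℕ :=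
  Finsupp.equivFunOnFinite.symm fun i => m i / w i

theorem mw_apply (w : Fin N → ℕ) (m : Fin N →₀ ℕ) (i : Fin N) : mw w m i = w i * m i := rfl

theorem dw_apply (w : Fin N → ℕ) (m : Fin N →₀ ℕ) (i : Fin N) : dw w m i = m i / w i := rfl

/-- the substitution `x_i ↦ x_i ^ w_i` -/
noncomputable def xp (w : Fin N → ℕ) : MvPolynomial (Fin N) ℂ →ₐ[ℂ] MvPolynomial (Fin N) ℂ :=
  aeval fun i => X i ^ w i

theorem xp_monomial (w : Fin N → ℕ) (m : Fin N →₀ ℕ) (c : ℂ) :
    xp w (monomial m c) = monomial (mw w m) c := by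
  rw [xp, aeval_monomial, monomial_eq, Finsupp.prod_fintype _ _ (fun i => by simp),
    Finsupp.prod_fintype _ _ (fun i => by simp)]
  congr 1
  exact Finset.prod_congr rfl fun i _ => by rw [mw_apply, pow_mul]

theorem eval_xp (w : Fin N → ℕ) (x : Fin N → ℂ) (p : MvPolynomial (Fin N) ℂ) :
    eval x (xp w p) = eval (fun i => x i ^ w i) p := by
  induction p using MvPolynomial.induction_on with
  | C a =>
    have h : xp w (C a) = C a := aeval_C _ _
    rw [h, eval_C, eval_C]
  | add p q hp hq => rw [map_add, map_add, map_add, hp, hq]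
  | mul_X p n hp =>
    have h : xp w (X n) = X n ^ w n := aeval_X _ _
    rw [map_mul, map_mul, map_mul, hp, h, map_pow, eval_X, eval_X]

theorem xp_hom (w : Fin N → ℕ) (p : MvPolynomial (Fin N) ℂ) (k : ℕ)
    (hp : IsWeightedHomogeneous w p k) : (xp w p).IsHomogeneous k := by
  rw [p.as_sum, map_sum]
  refine IsHomogeneous.sum _ _ _ fun m hm => ?_
  rw [xp_monomial]
  refine isHomogeneous_monomial _ ?_
  have h1 := hp (mem_support_iff.1 hm)
  rw [← h1, Finsupp.weight_apply, Finsupp.sum_fintype _ _ (fun i => by simp),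
    Finsupp.degree_eq_sum]
  exact Finset.sum_congr rfl fun i _ => by rw [mw_apply, smul_eq_mul, mul_comm]

/-- the retraction -/
noncomputable def rt (w : Fin N → ℕ) : MvPolynomial (Fin N) ℂ →ₗ[ℂ] MvPolynomial (Fin N) ℂ := by
  classical
  exact (basisMonomials (Fin N) ℂ).constr ℂ fun m =>
    if ∀ i, w i ∣ m i then monomial (dw w m) (1 : ℂ) else 0

theorem rt_monomial (w : Fin N → ℕ) (m : Fin N →₀ ℕ) [Decidable (∀ i, w i ∣ m i)] :
    rt w (monomial m 1) = if ∀ i, w i ∣ m i then monomial (dw w m) (1 : ℂ) else 0 := by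
  classical
  have h : (monomial m (1 : ℂ) : MvPolynomial (Fin N) ℂ) = basisMonomials (Fin N) ℂ m := by
    rw [coe_basisMonomials]
  rw [h, rt, Module.Basis.constr_basis]
  congr

theorem rt_mul (w : Fin N → ℕ) (hw : ∀ i, 0 < w i) (a p : MvPolynomial (Fin N) ℂ) :
    rt w (xp w a * p) = a * rt w p := by
  classical
  have key : ∀ m m' : Fin N →₀ ℕ, rt w (xp w (monomial m 1) * monomial m' 1) =
      monomial m 1 * rt w (monomial m' 1) := by
    intro m m'
    rw [xp_monomial, monomial_mul, one_mul, rt_monomial, rt_monomial]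
    have h1 : (∀ i, w i ∣ (mw w m + m') i) ↔ ∀ i, w i ∣ m' i := by
      refine forall_congr' fun i => ?_
      rw [Finsupp.add_apply, mw_apply]
      exact (Nat.dvd_add_right (dvd_mul_right _ _))
    by_cases h2 : ∀ i, w i ∣ m' i
    · have h4 : dw w (mw w m + m') = m + dw w m' := by
        ext i
        rw [dw_apply, Finsupp.add_apply, Finsupp.add_apply, mw_apply, dw_apply,
          Nat.mul_add_div (hw i)]
      rw [if_pos (h1.2 h2), if_pos h2, monomial_mul, one_mul, h4]
    · rw [if_neg (fun h => h2 (h1.1 h)), if_neg h2, mul_zero]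
  have h3 : ∀ (m : Fin N →₀ ℕ) (c : ℂ), (monomial m c : MvPolynomial (Fin N) ℂ) =
      c • monomial m 1 := by
    intro m c
    rw [smul_monomial, smul_eq_mul, mul_one]
  conv_lhs => rw [a.as_sum]
  conv_rhs => rw [a.as_sum]
  rw [map_sum (xp w), Finset.sum_mul, map_sum (rt w), Finset.sum_mul]
  refine Finset.sum_congr rfl fun m _ => ?_
  conv_lhs => rw [p.as_sum]
  conv_rhs => rw [p.as_sum]
  rw [Finset.mul_sum, map_sum (rt w), map_sum (rt w), Finset.mul_sum]
  refine Finset.sum_congr rfl fun m' _ => ?_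
  rw [h3 m, h3 m', map_smul, smul_mul_assoc, mul_smul_comm, map_smul, map_smul, key, map_smul,
    smul_mul_assoc, mul_smul_comm]

theorem rt_xp (w : Fin N → ℕ) (hw : ∀ i, 0 < w i) (a : MvPolynomial (Fin N) ℂ) :
    rt w (xp w a) = a := by
  classical
  have h := rt_mul w hw a 1
  rw [mul_one] at h
  rw [h]
  have h1 : (1 : MvPolynomial (Fin N) ℂ) = monomial 0 1 := rfl
  rw [h1, rt_monomial, if_pos (fun i => by simp)]
  have h2 : dw w 0 = 0 := by
    ext i
    rw [dw_apply]
    simp
  rw [h2]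
  exact mul_one a

theorem reg_of_zero_w (w : Fin N → ℕ) (hw : ∀ i, 0 < w i) (f : Fin N → MvPolynomial (Fin N) ℂ)
    (hf : ∀ i, ∃ k, 0 < k ∧ IsWeightedHomogeneous w (f i) k)
    (h : ∀ x : Fin N → ℂ, (∀ i, eval x (f i) = 0) → x = 0) : RegPart f := by
  choose k hk hk' using hf
  have h1 : RegPart fun i => xp w (f i) := by
    refine reg_of_zero _ k (fun i => xp_hom w _ _ (hk' i)) hk fun x hx => ?_
    have h2 := h (fun i => x i ^ w i) fun i => by rw [← eval_xp, hx i]
    funext i
    have h3 := congrFun h2 i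
    exact eq_zero_of_pow_eq_zero h3
  intro i a ha
  have h2 : ∀ (S : Set (MvPolynomial (Fin N) ℂ)) (b : MvPolynomial (Fin N) ℂ),
      b ∈ Ideal.span S → xp w b ∈ Ideal.span (xp w '' S) := by
    intro S b hb
    rw [← Ideal.map_span (xp w)]
    exact Ideal.mem_map_of_mem _ hb
  have h3 := h2 _ _ ha
  rw [map_mul, Set.image_image] at h3
  have h4 := h1 i (xp w a) h3
  -- descend
  have h5 : ∀ b ∈ Ideal.span ((fun i => xp w (f i)) '' {j | j < i}),
      ∀ c, rt w (c * b) ∈ Ideal.span (f '' {j | j < i}) := by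
    intro b hb
    induction hb using Submodule.span_induction with
    | mem b hb =>
      intro c
      obtain ⟨j, hj, rfl⟩ := hb
      beta_reduce
      rw [mul_comm, rt_mul w hw]
      exact Ideal.mul_mem_right _ _ (Ideal.subset_span ⟨j, hj, rfl⟩)
    | zero => intro c; rw [mul_zero, map_zero]; exact Ideal.zero_mem _
    | add b b' _ _ hb hb' =>
      intro c
      rw [mul_add, map_add]
      exact Ideal.add_mem _ (hb c) (hb' c)
    | smul c' b _ hb' =>
      intro c
      rw [smul_eq_mul, ← mul_assoc]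
      exact hb' _
  have h6 := h5 _ h4 1
  rwa [one_mul, rt_xp w hw] at h6

end Pool.Agent.Helper48.SW
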