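import Pool.Agent.Helper48.SW.InitW

set_option autoImplicit false
set_option linter.unusedSectionVars false

/-! # The vector field of weight zero -/

namespace Pool.Agent.Helper48.SW

open Finset MvPolynomial Pool.Agent.H119.LSS Pool.Agent.Helper48.SN

variable {N : ℕ}

/-- the component of weight `n` -/
noncomputable def wcz (wt : Fin N → ℕ) (n : ℤ) :
    MvPolynomial (Fin N) ℂ →ₗ[ℂ] MvPolynomial (Fin N) ℂ :=
  if 0 ≤ n then weightedHomogeneousComponent wt n.toNat else 0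

theorem coeff_wcz (wt : Fin N → ℕ) (n : ℤ) (p : MvPolynomial (Fin N) ℂ) (m : Fin N →₀ ℕ) :
    coeff m (wcz wt n p) = if (Finsupp.weight wt m : ℤ) = n then coeff m p else 0 := by
  rw [wcz]
  split_ifs with h1 h2 h2
  · rw [coeff_weightedHomogeneousComponent, if_pos (by omega)]
  · rw [coeff_weightedHomogeneousComponent, if_neg (by omega)]
  · omega
  · rfl

theorem wcz_hom (wt : Fin N → ℕ) (n : ℕ) (p : MvPolynomial (Fin N) ℂ) :
    IsWeightedHomogeneous wt (wcz wt n p) n := by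
  intro m hm
  rw [coeff_wcz] at hm
  by_contra h
  rw [if_neg (by exact_mod_cast h)] at hm
  exact hm rfl

theorem wcz_pderiv (wt : Fin N → ℕ) (n : ℤ) (i : Fin N) (p : MvPolynomial (Fin N) ℂ) :
    wcz wt n (pderiv i p) = pderiv i (wcz wt (n + wt i) p) := by
  ext m
  rw [coeff_wcz, coeff_pderiv, coeff_pderiv, coeff_wcz, map_add, Finsupp.weight_single]
  have h : ((Finsupp.weight wt m + 1 • wt i : ℕ) : ℤ) = n + wt i ↔
      (Finsupp.weight wt m : ℤ) = n := by
    push_cast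
    rw [one_smul]
    omega
  by_cases h1 : (Finsupp.weight wt m : ℤ) = n
  · rw [if_pos h1, if_pos (h.2 h1)]
  · rw [if_neg h1, if_neg (fun h2 => h1 (h.1 h2)), zero_mul]

theorem wcz_mul (wt : Fin N → ℕ) (n : ℤ) (e : ℕ) (F g : MvPolynomial (Fin N) ℂ)
    (hF : IsWeightedHomogeneous wt F e) : wcz wt (n + e) (F * g) = F * wcz wt n g := by
  classical
  ext m
  rw [coeff_wcz, coeff_mul, coeff_mul]
  have h1 : ∀ q ∈ Finset.HasAntidiagonal.antidiagonal m, coeff q.1 F * coeff q.2 (wcz wt n g) =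
      if (Finsupp.weight wt m : ℤ) = n + e then coeff q.1 F * coeff q.2 g else 0 := by
    intro q hq
    rw [Finset.HasAntidiagonal.mem_antidiagonal] at hq
    by_cases h2 : coeff q.1 F = 0
    · rw [h2, zero_mul, zero_mul, ite_self]
    · have h3 := hF h2
      have h4 : Finsupp.weight wt m = e + Finsupp.weight wt q.2 := by
        rw [← hq, map_add, h3]
      rw [coeff_wcz, h4]
      by_cases h5 : (Finsupp.weight wt q.2 : ℤ) = n
      · rw [if_pos h5, if_pos (by push_cast; omega)]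
      · rw [if_neg h5, if_neg (by push_cast; omega), mul_zero]
  rw [Finset.sum_congr rfl h1]
  split_ifs
  · rfl
  · rw [Finset.sum_const_zero]

/-- the component of total weight `n` of a form -/
noncomputable def tcm (wt : Fin N → ℕ) (n : ℤ) :
    Om (Fin N) (MvPolynomial (Fin N) ℂ) →ₗ[ℂ] Om (Fin N) (MvPolynomial (Fin N) ℂ) where
  toFun ω S := wcz wt (n - ((∑ i ∈ S, wt i : ℕ) : ℤ)) (ω S)
  map_add' ω η := by
    funext S
    simp only [Pi.add_apply, map_add]
  map_smul' c ω := by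
    funext S
    simp only [Pi.smul_apply, map_smul, RingHom.id_apply]

theorem tcm_apply (wt : Fin N → ℕ) (n : ℤ) (ω : Om (Fin N) (MvPolynomial (Fin N) ℂ))
    (S : Finset (Fin N)) : tcm wt n ω S = wcz wt (n - ((∑ i ∈ S, wt i : ℕ) : ℤ)) (ω S) := rfl

theorem tcm_ex (wt : Fin N → ℕ) (n : ℤ) (i : Fin N) (ω : Om (Fin N) (MvPolynomial (Fin N) ℂ)) :
    tcm wt n (ex i ω) = ex i (tcm wt (n - wt i) ω) := by
  funext S
  rw [tcm_apply, ex_apply, ex_apply, tcm_apply]
  split_ifs with h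
  · have h1 : n - wt i - ((∑ j ∈ S.erase i, wt j : ℕ) : ℤ) = n - ((∑ j ∈ S, wt j : ℕ) : ℤ) := by
      rw [← Finset.add_sum_erase S wt h]
      push_cast
      ring
    rw [map_zsmul, h1]
  · rw [map_zero]

theorem tcm_pd (wt : Fin N → ℕ) (n : ℤ) (i : Fin N) (ω : Om (Fin N) (MvPolynomial (Fin N) ℂ)) :
    tcm wt n (pd i ω) = pd i (tcm wt (n + wt i) ω) := by
  funext S
  rw [tcm_apply, pd_apply, pd_apply, tcm_apply, wcz_pderiv]
  congr 2
  ring

theorem tcm_dd (wt : Fin N → ℕ) (n : ℤ) (ω : Om (Fin N) (MvPolynomial (Fin N) ℂ)) :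
    tcm wt n (dd ω) = dd (tcm wt n ω) := by
  rw [dd_apply, dd_apply, map_sum]
  exact Finset.sum_congr rfl fun i _ => by rw [tcm_ex, tcm_pd, sub_add_cancel]

theorem tcm_smul (wt : Fin N → ℕ) (n : ℤ) (e : ℕ) (p : MvPolynomial (Fin N) ℂ)
    (hp : IsWeightedHomogeneous wt p e) (ω : Om (Fin N) (MvPolynomial (Fin N) ℂ)) :
    tcm wt (n + e) (p • ω) = p • tcm wt n ω := by
  funext S
  rw [tcm_apply, Pi.smul_apply, Pi.smul_apply, tcm_apply, smul_eq_mul, smul_eq_mul,
    ← wcz_mul wt _ e p _ hp]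
  congr 1
  ring_nf

theorem pderiv_zero_of_lt (wt : Fin N → ℕ) (e : ℕ) (p : MvPolynomial (Fin N) ℂ)
    (hp : IsWeightedHomogeneous wt p e) (i : Fin N) (hi : e < wt i) : pderiv i p = 0 := by
  ext m
  rw [coeff_pderiv, coeff_zero]
  by_cases h : coeff (m + Finsupp.single i 1) p = 0
  · rw [h, zero_mul]
  · have h1 := hp h
    rw [map_add, Finsupp.weight_single, one_smul] at h1
    omega

theorem tcm_ee_grad (wt : Fin N → ℕ) (n : ℤ) (e : ℕ) (p : MvPolynomial (Fin N) ℂ)
    (hp : IsWeightedHomogeneous wt p e) (ω : Om (Fin N) (MvPolynomial (Fin N) ℂ)) :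
    tcm wt (n + e) (ee (grad p) ω) = ee (grad p) (tcm wt n ω) := by
  rw [ee_apply, ee_apply, map_sum]
  refine Finset.sum_congr rfl fun i _ => ?_
  rcases Nat.lt_or_ge e (wt i) with h | h
  · have h1 : grad p i = 0 := pderiv_zero_of_lt wt e p hp i h
    rw [h1, zero_smul, zero_smul, map_zero]
  · obtain ⟨k, hk⟩ := Nat.exists_eq_add_of_le' h
    have h1 : IsWeightedHomogeneous wt (grad p i) k := hp.pderiv hk.symm
    have h2 : n + (e : ℤ) = (n + wt i) + k := by
      rw [hk]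
      push_cast
      ring
    rw [h2, tcm_smul wt _ k _ h1, tcm_ex, add_sub_cancel_right]

theorem pr_tcm (wt : Fin N → ℕ) (p : ℤ) (n : ℤ) (ω : Om (Fin N) (MvPolynomial (Fin N) ℂ)) :
    pr p (tcm wt n ω) = tcm wt n (pr p ω) := by
  funext S
  rw [pr_apply, tcm_apply, tcm_apply, pr_apply]
  split_ifs
  · rfl
  · rw [map_zero]

theorem tcm_self (wt : Fin N → ℕ) (n : ℕ) (ω : Om (Fin N) (MvPolynomial (Fin N) ℂ))
    (h : IsTot wt n ω) : tcm wt n ω = ω := by
  funext S
  ext m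
  rw [tcm_apply, coeff_wcz]
  by_cases h1 : coeff m (ω S) = 0
  · rw [h1, ite_self]
  · rw [if_pos]
    have := h S m h1
    omega

variable {ι : Type} [DecidableEq ι] [Fintype ι]

theorem weight_zero (wt : Fin N → ℕ) (hwt : ∀ i, 0 < wt i) (m : Fin N →₀ ℕ)
    (h : Finsupp.weight wt m = 0) : m = 0 := by
  rw [Finsupp.weight_apply, Finsupp.sum_fintype _ _ (fun i => by simp)] at h
  ext i
  have h1 := (Finset.sum_eq_zero_iff.1 h) i (Finset.mem_univ i)
  rw [smul_eq_mul, mul_eq_zero] at h1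
  rcases h1 with h1 | h1
  · exact h1
  · exact absurd h1 (hwt i).ne'

theorem PW_linear (hN : 2 ≤ N) (wt : Fin N → ℕ) (hwt : ∀ i, 0 < wt i)
    (F : ι → MvPolynomial (Fin N) ℂ) (e : ι → ℕ)
    (hF : ∀ k, IsWeightedHomogeneous wt (F k) (e k)) (hS : SNC F)
    (lam : ι → ℂ) (h : PW wt F lam 0) :
    ∃ (A : Fin N → MvPolynomial (Fin N) ℂ) (μ : ι → ℂ),
      (∀ j, IsWeightedHomogeneous wt (A j) (wt j)) ∧
      ∑ j, pderiv j (A j) = 0 ∧ (∀ i, ∑ j, A j * pderiv j (F i) = C (μ i) * F i) ∧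
      ∑ i, lam i * μ i = - ((∑ j, wt j : ℕ) : ℂ) := by
  have hne : ∀ k, F k ≠ 0 := F_ne (by omega) F hS
  obtain ⟨ζ', τ', hζ', hτ', heq'⟩ := h
  set W : ℕ := ∑ j, wt j with hW
  set ζ := tcm wt W ζ' with hζ
  set τ : ι → Om (Fin N) (MvPolynomial (Fin N) ℂ) := fun i => tcm wt W (τ' i) with hτ
  have h1 : ∀ i, TT F i ζ = F i • τ i := by
    intro i
    have h3 := tcm_ee_grad wt W (e i) (F i) (hF i) ζ'
    have h4 := tcm_smul wt W (e i) (F i) (hF i) (τ' i)
    rw [hζ, hτ]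
    change ee (grad (F i)) _ = _
    rw [← h3]
    change tcm wt (W + e i) (TT F i ζ') = _
    rw [hτ' i, h4]
  have hOm : tcm wt W (OmW wt) = OmW wt := by
    refine tcm_self wt W _ ?_
    have h2 := tot_ii_vol wt 0 (EE wt) (fun i => by
      rw [zero_add]
      exact (isWeightedHomogeneous_X ℂ wt i).C_mul _)
    rwa [zero_add] at h2
  have heq : dd ζ - ∑ i, lam i • τ i = - OmW wt := by
    have h2 := congrArg (tcm wt W) heq'
    rw [map_sub, tcm_dd, map_sum, map_neg] at h2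
    simp only [Pi.zero_apply, Nat.cast_zero, add_zero, pow_zero, Finset.prod_const_one, one_smul,
      map_smul] at h2
    rw [hOm] at h2
    exact h2
  have hpr : pr ((Fintype.card (Fin N) : ℤ) - 1) (dd ζ) = dd ζ := by
    rw [Fintype.card_fin]
    have h2 := pr_dd ((N : ℤ) - 2) ζ
    rw [show (N : ℤ) - 2 + 1 = N - 1 by ring] at h2
    rw [h2, hζ, pr_tcm, hζ']
  have hA := exists_ii (dd ζ) hpr
  set A : Fin N → MvPolynomial (Fin N) ℂ := fun i =>
    sg i (Finset.univ.erase i) • dd ζ (Finset.univ.erase i) with hAdef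
  have hdd : dd ζ = tcm wt W (dd ζ') := by rw [hζ, tcm_dd]
  have hA1 : ∀ j, IsWeightedHomogeneous wt (A j) (wt j) := by
    intro j
    rw [hAdef]
    beta_reduce
    rw [zsmul_eq_mul, ← map_intCast (C : ℂ →+* MvPolynomial (Fin N) ℂ)]
    refine IsWeightedHomogeneous.C_mul ?_ _
    rw [hdd, tcm_apply]
    have h2 : (W : ℤ) - ((∑ i ∈ Finset.univ.erase j, wt i : ℕ) : ℤ) = (wt j : ℤ) := by
      rw [hW, ← Finset.add_sum_erase Finset.univ wt (Finset.mem_univ j)]
      push_cast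
      ring
    rw [h2]
    exact wcz_hom wt _ _
  have hvu : (vol : Om (Fin N) (MvPolynomial (Fin N) ℂ)) Finset.univ = 1 := if_pos rfl
  have hdiv : ∑ j, pderiv j (A j) = 0 := by
    have h2 := dd_ii_vol A
    rw [← hA, dd_dd] at h2
    have h3 := congrFun h2 Finset.univ
    rw [Pi.zero_apply, Pi.smul_apply, hvu, smul_eq_mul, mul_one] at h3
    exact h3.symm
  set μ : ι → ℂ := fun i => - coeff 0 (dd (τ' i) Finset.univ) with hμ
  have hdτ : ∀ i, dd (τ i) Finset.univ = - C (μ i) := by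
    intro i
    rw [hτ, hμ]
    beta_reduce
    rw [map_neg, neg_neg, ← tcm_dd, tcm_apply]
    ext m
    rw [coeff_wcz, coeff_C]
    have h2 : (W : ℤ) - ((∑ i, wt i : ℕ) : ℤ) = 0 := by rw [hW, sub_self]
    rw [h2]
    by_cases hm : m = 0
    · subst hm
      rw [if_pos rfl, if_pos (by simp)]
    · rw [if_neg (Ne.symm hm)]
      rw [if_neg]
      intro h3
      exact hm (weight_zero wt hwt m (by exact_mod_cast h3))
  refine ⟨A, μ, hA1, hdiv, fun i => ?_, ?_⟩
  · have h2 : TT F i (τ i) = 0 := by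
      refine smul_cancel (hne i) ?_
      rw [← map_smul, ← h1, TT_self, smul_zero]
    have h3 := dd_ee (F i) ζ
    change dd (TT F i ζ) = - ee (grad (F i)) (dd ζ) at h3
    rw [h1 i, dd_smul] at h3
    change TT F i (τ i) + _ = _ at h3
    rw [h2, zero_add, hA, ee_ii_vol] at h3
    have h4 := congrFun h3 Finset.univ
    rw [Pi.smul_apply, Pi.neg_apply, Pi.smul_apply, hvu, hdτ, smul_eq_mul, smul_eq_mul,
      mul_one] at h4
    have h5 : ∑ j, A j * pderiv j (F i) = ∑ j, A j * grad (F i) j := rfl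
    rw [h5]
    linear_combination h4
  · have h2 := congrArg dd heq
    rw [map_sub, dd_dd, map_sum, map_neg, OmW, dd_ii_vol] at h2
    have h3 := congrFun h2 Finset.univ
    rw [Pi.sub_apply, Pi.zero_apply, Finset.sum_apply, Pi.neg_apply, Pi.smul_apply, hvu,
      smul_eq_mul, mul_one] at h3
    have h4 : ∀ i, dd (lam i • τ i) Finset.univ = - C (lam i * μ i) := by
      intro i
      rw [map_smul, Pi.smul_apply, hdτ, smul_neg, map_mul, C_mul']
    rw [Finset.sum_congr rfl fun i _ => h4 i] at h3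
    have h5 : ∑ i : Fin N, pderiv i (EE wt i) = C ((W : ℕ) : ℂ) := by
      have h6 : ∀ i : Fin N, pderiv i (EE wt i) = C (wt i : ℂ) := by
        intro i
        rw [EE, pderiv_C_mul, pderiv_X_self, mul_one]
      rw [Finset.sum_congr rfl fun i _ => h6 i, ← map_sum, hW]
      push_cast
      rfl
    rw [h5, Finset.sum_neg_distrib, zero_sub, neg_neg, ← map_sum, ← map_neg] at h3
    exact C_injective _ _ h3

end Pool.Agent.Helper48.SW
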