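import Pool.Agent.Helper48.SW.DiviW
import Pool.Agent.Helper48.SN.Log

set_option autoImplicit false
set_option linter.unusedSectionVars false

/-! # Logarithmic forms, weighted homogeneous case -/

namespace Pool.Agent.Helper48.SW

open Finset MvPolynomial Pool.Agent.H119.LSS Pool.Agent.Helper48.SN

variable {N : ℕ} {ι : Type} [DecidableEq ι]

/-- **Logarithmic forms.** -/
theorem glemma_w (wt : Fin N → ℕ) (hwt : ∀ i, 0 < wt i) (F : ι → MvPolynomial (Fin N) ℂ)
    (e : ι → ℕ) (hF : ∀ k, IsWeightedHomogeneous wt (F k) (e k))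
    (he : ∀ k, 0 < e k) (hS : SNC F) (hC : CompW wt F) (B : List ι) :
    ∀ (l : List ι) (p : ℤ), (B ++ l).Nodup → p + 2 + l.length ≤ N →
      ∀ ζ : Om (Fin N) (MvPolynomial (Fin N) ℂ), pr p ζ = ζ →
      (∀ j ∈ B, WW (TT F) (j :: l) ζ ∈ cf (FI F (j :: l))) →
      ζ ∈ LL F B ⊔ (IM (TT F) l ⊔ cf (FI F l)) := by
  induction B with
  | nil =>
    intro l p _ _ ζ _ _
    exact Submodule.mem_sup_left Submodule.mem_top
  | cons b B ih =>
    intro l p hnd hpN ζ hζ hcond
    rcases lt_or_ge p 0 with hp0 | hp0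
    · rw [← hζ, pr_neg p hp0]
      exact Submodule.zero_mem _
    have hnd' : b ∉ B ++ l ∧ (B ++ l).Nodup := by
      rw [List.cons_append, List.nodup_cons] at hnd
      exact hnd
    have hbB : b ∉ B := fun h => hnd'.1 (List.mem_append_left _ h)
    have hbl : b ∉ l := fun h => hnd'.1 (List.mem_append_right _ h)
    have hlnd : l.Nodup := (List.nodup_append.1 hnd'.2).2.1
    have hBl : ∀ j ∈ B, j ∉ l := fun j hj hjl => (List.nodup_append.1 hnd'.2).2.2 j hj j hjl rfl
    -- step 1
    have h1 := division_w wt hwt F e hF he hS hC (b :: l) (List.nodup_cons.2 ⟨hbl, hlnd⟩)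
      (by rw [List.length_cons]; omega) p (by rw [List.length_cons]; push_cast; omega) ζ hζ
      (hcond b (List.mem_cons_self ..))
    obtain ⟨u, hu, z, hz, hsum⟩ := Submodule.mem_sup.1 h1
    rw [IM] at hu
    obtain ⟨_, ⟨ρ0, rfl⟩, y0, hy0, rfl⟩ := Submodule.mem_sup.1 hu
    obtain ⟨ζ0, z0, hz0, rfl⟩ := mem_cf_cons F b l z hz
    set ρ := pr (p - 1) ρ0 with hρ
    set w0 := pr p y0 + pr p z0 with hw0
    have hw0m : w0 ∈ IM (TT F) l ⊔ cf (FI F l) :=
      Submodule.add_mem_sup (pr_IM (TT F) (fun p => pr p) (fun p k x => pr_ee p _ x) l p y0 hy0)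
        (pr_cf p hz0)
    have h2 : ζ = TT F b ρ + F b • pr p ζ0 + w0 := by
      rw [hρ, hw0, ← pr_ee, sub_add_cancel, ← hζ, ← hsum]
      simp only [map_add, map_smul, pr_pr]
      abel
    -- step 2
    have h3 : ∀ j ∈ B, WW (TT F) (j :: b :: l) ρ ∈ cf (FI F (j :: b :: l)) := by
      intro j hj
      have h4 : WW (TT F) (j :: b :: l) ρ =
          - (WW (TT F) (j :: l) ζ - F b • WW (TT F) (j :: l) (pr p ζ0) -
            WW (TT F) (j :: l) w0) := by
        rw [h2, map_add, map_add, map_smul]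
        change WW (TT F) l (TT F b (TT F j ρ)) = - (WW (TT F) l (TT F j (TT F b ρ)) + _ + _ - _ - _)
        rw [TT_anti F b j, map_neg]
        abel
      rw [h4]
      refine Submodule.neg_mem _ (Submodule.sub_mem _ (Submodule.sub_mem _ ?_ ?_) ?_)
      · exact cf_le (FI_le F fun k hk => by
          rcases List.mem_cons.1 hk with rfl | hk
          · exact List.mem_cons_self ..
          · exact List.mem_cons_of_mem _ (List.mem_cons_of_mem _ hk))
          (hcond j (List.mem_cons_of_mem _ hj))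
      · intro S
        rw [Pi.smul_apply, smul_eq_mul]
        exact Ideal.mul_mem_right _ _ (FI_mem F (List.mem_cons_of_mem _ (List.mem_cons_self ..)))
      · exact cf_le (FI_le F fun k hk => List.mem_cons_of_mem _ (List.mem_cons_of_mem _ hk))
          (WW_stuff F l j w0 hw0m)
    have h5 := ih (b :: l) (p - 1) (by
        rw [List.nodup_append]
        refine ⟨(List.nodup_append.1 hnd'.2).1, List.nodup_cons.2 ⟨hbl, hlnd⟩, ?_⟩
        intro x hx y hy hxy
        subst hxy
        rcases List.mem_cons.1 hy with rfl | hy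
        · exact hbB hx
        · exact hBl x hx hy) (by rw [List.length_cons]; push_cast; omega) ρ (pr_pr _ _) h3
    obtain ⟨ρ1, hρ1, u, hu, hsum2⟩ := Submodule.mem_sup.1 h5
    obtain ⟨u', hu', z1, hz1, rfl⟩ := Submodule.mem_sup.1 hu
    rw [IM] at hu'
    obtain ⟨_, ⟨α, rfl⟩, y1, hy1, rfl⟩ := Submodule.mem_sup.1 hu'
    obtain ⟨ρ', z1', hz1', rfl⟩ := mem_cf_cons F b l z1 hz1
    -- step 3
    set ζ2 := pr p (pr p ζ0 + TT F b ρ') with hζ2
    set ρ2 := pr (p - 1) ρ1 with hρ2
    have hρ2m : ρ2 ∈ LL F B := pr_LL F B _ ρ1 hρ1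
    set w := w0 + (pr p (TT F b y1) + pr p (TT F b z1')) with hw
    have hwm : w ∈ IM (TT F) l ⊔ cf (FI F l) :=
      Submodule.add_mem _ hw0m (Submodule.add_mem_sup
        (pr_IM (TT F) (fun p => pr p) (fun p k x => pr_ee p _ x) l p _
          (T_IM (TT F) (TT_anti F) l b y1 hy1)) (pr_cf p (ee_cf _ hz1')))
    have h6 : ζ = TT F b ρ2 + F b • ζ2 + w := by
      have h7 : TT F b ρ = pr p (TT F b ρ) := by
        rw [show pr p (TT F b ρ) = pr ((p - 1) + 1) (TT F b ρ) by rw [sub_add_cancel], pr_ee, hρ,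
          pr_pr]
      have h8 : pr p (TT F b ρ) = TT F b ρ2 + pr p (TT F b y1) + F b • pr p (TT F b ρ') +
          pr p (TT F b z1') := by
        have h9 : TT F b ρ = TT F b ρ1 + (TT F b y1 + (F b • TT F b ρ' + TT F b z1')) := by
          rw [← hsum2, map_add, map_add, map_add, map_add, TT_self, zero_add, map_smul]
        have h10 : pr p (TT F b ρ1) = TT F b ρ2 := by
          rw [hρ2, ← pr_ee, sub_add_cancel]
        rw [h9, map_add, map_add, map_add, map_smul, h10]
        abel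
      conv_lhs => rw [h2, h7, h8]
      rw [hw, hζ2, map_add, pr_pr, smul_add]
      abel
    have h11 : ∀ j ∈ B, WW (TT F) (j :: l) ζ2 ∈ cf (FI F (j :: l)) := by
      intro j hj
      have h12 : F b • WW (TT F) (j :: l) ζ2 = WW (TT F) (j :: l) ζ -
          WW (TT F) (j :: l) (TT F b ρ2) - WW (TT F) (j :: l) w := by
        rw [h6, map_add, map_add, map_smul]
        abel
      have h13 : F b • WW (TT F) (j :: l) ζ2 ∈ cf (FI F (j :: l)) := by
        rw [h12]
        refine Submodule.sub_mem _ (Submodule.sub_mem _ (hcond j (List.mem_cons_of_mem _ hj)) ?_)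
          (cf_le (FI_le F fun k hk => List.mem_cons_of_mem _ hk) (WW_stuff F l j w hwm))
        change WW (TT F) l (TT F j (TT F b ρ2)) ∈ _
        rw [TT_anti]
        obtain ⟨y, hy⟩ := LL_log F B j hj ρ2 hρ2m
        rw [hy, map_neg, map_smul, map_smul]
        refine Submodule.neg_mem _ fun S => ?_
        rw [Pi.smul_apply, smul_eq_mul]
        exact Ideal.mul_mem_right _ _ (FI_mem F (List.mem_cons_self ..))
      intro S
      have h14 := h13 S
      rw [Pi.smul_apply, smul_eq_mul] at h14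
      refine nzd_w wt hwt F e hF he hC (j :: l) b ?_ (by rw [List.length_cons]; omega) _ h14
      rw [List.nodup_cons, List.nodup_cons]
      refine ⟨?_, hBl j hj, hlnd⟩
      rw [List.mem_cons]
      rintro (rfl | h)
      · exact hbB hj
      · exact hbl h
    have h15 := ih l p hnd'.2 hpN ζ2 (pr_pr _ _) h11
    obtain ⟨ζ3, hζ3, w3, hw3, h16⟩ := Submodule.mem_sup.1 h15
    rw [h6, ← h16, smul_add]
    have h17 : TT F b ρ2 + (F b • ζ3 + F b • w3) + w = (TT F b ρ2 + F b • ζ3) + (F b • w3 + w) := by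
      abel
    rw [h17]
    refine Submodule.add_mem_sup ?_ (Submodule.add_mem _ (Submodule.smul_mem _ _ hw3) hwm)
    rw [mem_LL_cons]
    exact ⟨ρ2, hρ2m, ζ3, hζ3, rfl⟩

/-- the case without restriction -/
theorem glemma0_w (wt : Fin N → ℕ) (hwt : ∀ i, 0 < wt i) (F : ι → MvPolynomial (Fin N) ℂ)
    (e : ι → ℕ) (hF : ∀ k, IsWeightedHomogeneous wt (F k) (e k))
    (he : ∀ k, 0 < e k) (hS : SNC F) (hC : CompW wt F) (B : List ι) (hB : B.Nodup)
    (ζ : Om (Fin N) (MvPolynomial (Fin N) ℂ)) (hζ : pr ((N : ℤ) - 2) ζ = ζ)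
    (hcond : ∀ j ∈ B, ∃ y, TT F j ζ = F j • y) : ζ ∈ LL F B := by
  have h1 := glemma_w wt hwt F e hF he hS hC B [] ((N : ℤ) - 2) (by simpa using hB) (by simp) ζ hζ
    (fun j hj => by
      obtain ⟨y, hy⟩ := hcond j hj
      change TT F j ζ ∈ _
      rw [hy]
      intro S
      rw [Pi.smul_apply, smul_eq_mul]
      exact Ideal.mul_mem_right _ _ (FI_mem F (List.mem_singleton_self j)))
  obtain ⟨u, hu, v, hv, rfl⟩ := Submodule.mem_sup.1 h1
  obtain ⟨y, hy, z, hz, rfl⟩ := Submodule.mem_sup.1 hv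
  rw [IM, Submodule.mem_bot] at hy
  have hz0 : z = 0 := by
    funext S
    have := hz S
    rw [FI] at this
    simpa using this
  rw [hy, hz0, add_zero, add_zero]
  exact hu

end Pool.Agent.Helper48.SW
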