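import Pool.Agent.Helper48.SW.SliceW

set_option autoImplicit false
set_option linter.unusedSectionVars false

/-! # The functional equation and the weighted initial form along a smooth centre -/

namespace Pool.Agent.Helper48.SW

open Finset MvPolynomial Pool.Agent.K3h38.SM Pool.Agent.Helper48.SN

variable {σ τ : Type} [Fintype σ] [Fintype τ]

theorem pderiv_zero_of_lt' (w : σ → ℕ) (e : ℕ) (p : MvPolynomial σ ℂ)
    (hp : IsWeightedHomogeneous w p e) (i : σ) (hi : e < w i) : pderiv i p = 0 := by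
  ext m
  rw [coeff_pderiv, coeff_zero]
  by_cases h : coeff (m + Finsupp.single i 1) p = 0
  · rw [h, zero_mul]
  · have h1 := hp h
    rw [map_add, Finsupp.weight_single, one_smul] at h1
    omega

theorem exact_of_identity_w (w : σ → ℕ) (f : MvPolynomial σ ℂ) (d : ℕ) (hd : 0 < d)
    (hf : IsWeightedHomogeneous w f d) (s0 : ℂ) (hs0 : s0 = -((∑ i, w i : ℕ) : ℂ) / d) (c : ℂ)
    (hc : c ≠ 0) (R : ℕ) (V : σ → MvPolynomial σ ℂ)
    (h : C c * f ^ (R + 1) = ∑ i, (C (s0 - R) * pderiv i f * V i + f * pderiv i (V i))) :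
    ∃ (k : ℕ) (Θ : σ → MvPolynomial σ ℂ), (∀ i, IsWeightedHomogeneous w (Θ i) (d * k + w i)) ∧
      ∑ i, Θ i * pderiv i f = 0 ∧ ∑ i, pderiv i (Θ i) = f ^ k := by
  classical
  have hdC : (d : ℂ) ≠ 0 := by exact_mod_cast hd.ne'
  set W : σ → MvPolynomial σ ℂ := fun i => pc w (d * R + w i) (V i) with hW
  have hWh : ∀ i, IsWeightedHomogeneous w (W i) (d * R + w i) := fun i =>
    weightedHomogeneousComponent_isWeightedHomogeneous _ _
  have hfp : ∀ k, IsWeightedHomogeneous w (f ^ k) (d * k) := by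
    intro k
    have := hf.pow k
    rwa [smul_eq_mul, mul_comm] at this
  have hCm : ∀ (a : ℂ) (p : MvPolynomial σ ℂ) (n : ℕ), IsWeightedHomogeneous w p n →
      IsWeightedHomogeneous w (C a * p) n := fun a p n hp => hp.C_mul a
  -- the homogeneous identity
  have h1 : C c * f ^ (R + 1) = ∑ i, (C (s0 - R) * pderiv i f * W i + f * pderiv i (W i)) := by
    have h2 := congrArg (pc w (d * (R + 1))) h
    rw [pc_self w _ _ (hCm c _ _ (hfp (R + 1))), map_sum] at h2
    rw [h2]
    refine Finset.sum_congr rfl fun i _ => ?_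
    rw [map_add]
    congr 1
    · rcases Nat.lt_or_ge d (w i) with h3 | h3
      · rw [pderiv_zero_of_lt' w d f hf i h3, mul_zero, zero_mul, zero_mul, map_zero]
      · obtain ⟨k, hk⟩ := Nat.exists_eq_add_of_le' h3
        have h4 : IsWeightedHomogeneous w (C (s0 - R) * pderiv i f) k := by
          refine hCm _ _ _ (hf.pderiv ?_)
          rw [hk]
        have h5 : d * (R + 1) = k + (d * R + w i) := by
          have : d * (R + 1) = d * R + d := by ring
          omega
        rw [h5, pc_mul w _ _ h4]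
    · have h5 : d * (R + 1) = d + d * R := by ring
      rw [h5, pc_mul w _ _ hf, pc_pderiv]
  set u : MvPolynomial σ ℂ := ∑ i, pderiv i f * W i with hu
  have huh : IsWeightedHomogeneous w u (d * (R + 1)) := by
    refine IsWeightedHomogeneous.sum _ _ _ fun i _ => ?_
    rcases Nat.lt_or_ge d (w i) with h3 | h3
    · rw [pderiv_zero_of_lt' w d f hf i h3, zero_mul]
      exact isWeightedHomogeneous_zero _ _ _
    · obtain ⟨k, hk⟩ := Nat.exists_eq_add_of_le' h3
      have h4 : IsWeightedHomogeneous w (pderiv i f) k := hf.pderiv (by rw [hk])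
      have h5 : d * (R + 1) = k + (d * R + w i) := by
        have : d * (R + 1) = d * R + d := by ring
        omega
      rw [h5]
      exact h4.mul (hWh i)
  have heul : ∀ (p : MvPolynomial σ ℂ) (n : ℕ), IsWeightedHomogeneous w p n →
      ∑ i, C (w i : ℂ) * (X i * pderiv i p) = C (n : ℂ) * p := by
    intro p n hp
    have h2 := hp.sum_weight_X_mul_pderiv
    rw [nsmul_eq_mul] at h2
    rw [map_natCast, ← h2]
    exact Finset.sum_congr rfl fun i _ => by rw [map_natCast, nsmul_eq_mul]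
  set Θ0 : σ → MvPolynomial σ ℂ := fun i =>
    f * W i - C ((d : ℂ)⁻¹) * u * (C (w i : ℂ) * X i) with hΘ0
  have hΘh : ∀ i, IsWeightedHomogeneous w (Θ0 i) (d * (R + 1) + w i) := by
    intro i
    have h5 : d * (R + 1) + w i = d + (d * R + w i) := by ring
    have h6 : IsWeightedHomogeneous w (f * W i) (d * (R + 1) + w i) := by
      rw [h5]
      exact hf.mul (hWh i)
    have h7 : IsWeightedHomogeneous w (C ((d : ℂ)⁻¹) * u * (C (w i : ℂ) * X i))
        (d * (R + 1) + w i) :=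
      (hCm _ _ _ huh).mul (hCm _ _ _ (isWeightedHomogeneous_X ℂ w i))
    rw [hΘ0]
    beta_reduce
    rw [sub_eq_add_neg]
    refine IsWeightedHomogeneous.add h6 ?_
    have h8 := hCm (-1) _ _ h7
    rwa [map_neg, map_one, neg_one_mul] at h8
  have hΘf : ∑ i, Θ0 i * pderiv i f = 0 := by
    have h7 : ∑ i, Θ0 i * pderiv i f =
        f * u - C ((d : ℂ)⁻¹) * u * (∑ i, C (w i : ℂ) * (X i * pderiv i f)) := by
      rw [hu, Finset.mul_sum, Finset.mul_sum, ← Finset.sum_sub_distrib]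
      refine Finset.sum_congr rfl fun i _ => ?_
      rw [hΘ0, hu]
      ring
    rw [h7, heul f d hf]
    have h8 : (C ((d : ℂ)⁻¹) : MvPolynomial σ ℂ) * C ((d : ℕ) : ℂ) = 1 := by
      rw [← map_mul, inv_mul_cancel₀ hdC, map_one]
    linear_combination - f * u * h8
  have hdiv : ∑ i, pderiv i (Θ0 i) = C c * f ^ (R + 1) := by
    have h7 : ∀ i, pderiv i (Θ0 i) = pderiv i f * W i + f * pderiv i (W i)
        - C ((d : ℂ)⁻¹) * (C (w i : ℂ) * (X i * pderiv i u)) -
          C ((d : ℂ)⁻¹) * C (w i : ℂ) * u := by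
      intro i
      rw [hΘ0]
      simp only [map_sub, pderiv_mul, pderiv_C, pderiv_X_self]
      ring
    rw [Finset.sum_congr rfl fun i _ => h7 i, Finset.sum_sub_distrib, Finset.sum_sub_distrib,
      ← Finset.mul_sum, heul u _ huh, h1, ← Finset.sum_mul, ← Finset.mul_sum]
    have h8 : ∑ i, (C (s0 - R) * pderiv i f * W i + f * pderiv i (W i))
        = C (s0 - R) * u + ∑ i, f * pderiv i (W i) := by
      rw [hu, Finset.mul_sum, ← Finset.sum_add_distrib]
      refine Finset.sum_congr rfl fun i _ => ?_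
      ring
    rw [h8, Finset.sum_add_distrib, ← hu]
    have h9 : (C (s0 - R) : MvPolynomial σ ℂ) = 1 - C ((d : ℂ)⁻¹) * C ((d * (R + 1) : ℕ) : ℂ)
        - C ((d : ℂ)⁻¹) * ∑ i, C (w i : ℂ) := by
      rw [← map_sum, ← map_mul, ← map_mul, ← C_1, ← map_sub, ← map_sub]
      congr 1
      rw [hs0]
      push_cast
      field_simp
      ring
    rw [h9]
    ring
  refine ⟨R + 1, fun i => C c⁻¹ * Θ0 i, fun i => hCm _ _ _ (hΘh i), ?_, ?_⟩
  · simp only [mul_assoc]
    rw [← Finset.mul_sum, hΘf, mul_zero]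
  · have h7 : ∀ i, pderiv i (C c⁻¹ * Θ0 i) = C c⁻¹ * pderiv i (Θ0 i) := by
      intro i
      rw [pderiv_mul, pderiv_C, zero_mul, zero_add]
    rw [Finset.sum_congr rfl fun i _ => h7 i, ← Finset.mul_sum, hdiv, ← mul_assoc, ← map_mul,
      inv_mul_cancel₀ hc, map_one, one_mul]

/-- **If `-|w|/d` is not a root of a functional equation of a power series `f` of weight `d` along
a smooth centre, then the form `φ ^ (-|w|/d) Ω` is exact, where `φ` is the initial form
of `f` on the normal space.** -/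
theorem stepW (w : σ → ℕ) (hw : ∀ i, 0 < w i) (f : PS (σ ⊕ τ)) (d : ℕ) (hd : 0 < d)
    (φ : MvPolynomial σ ℂ) (h : IsConeW w f d φ)
    (hφ : φ ≠ 0) (b : Polynomial ℂ) (hb : IsFormalB f b)
    (hne : b.eval (-((∑ i, w i : ℕ) : ℂ) / d) ≠ 0) :
    ∃ (k : ℕ) (Θ : σ → MvPolynomial σ ℂ), (∀ i, IsWeightedHomogeneous w (Θ i) (d * k + w i)) ∧
      ∑ i, Θ i * pderiv i φ = 0 ∧ ∑ i, pderiv i (Θ i) = φ ^ k := by
  classical
  obtain ⟨P, hP⟩ := hb
  choose Fi hFi1 hFi2 using fun m : ℕ => splitF_w w hw f d hd φ h _ (slice_op (P m).2 0)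
  set T : σ → ℕ → MvPolynomial σ ℂ := fun i s => ∑ m ∈ P.support,
    C (s : ℂ) ^ m * wz w (d * s + w i) (Fi m i (f ^ (s + 1))) with hT
  have hTr : ∀ i, Rat φ (T i) := by
    intro i
    refine Rat.sum _ _ fun m _ => ?_
    exact ((tameF_w w hw f d φ h _ (hFi1 m i)).2 (w i)).mulPS (fun s => C s ^ m) (IsPS.id.pow m)
  choose R0 V0 hV0 h0 using hTr
  set R := ∑ i, R0 i with hR
  have hRi : ∀ i, R0 i ≤ R := fun i => Finset.single_le_sum (fun _ _ => Nat.zero_le _)
    (Finset.mem_univ i)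
  set V : σ → ℂ → MvPolynomial σ ℂ := fun i s => φ ^ (R - R0 i) * V0 i s with hVd
  have hV : ∀ i, IsPS (V i) := fun i => (IsPS.const _).mul (hV0 i)
  have h1 : ∀ i (s : ℕ), φ ^ R * T i s = φ ^ s * V i s := by
    intro i s
    have h2 : φ ^ R = φ ^ (R - R0 i) * φ ^ R0 i := by
      rw [← pow_add, Nat.sub_add_cancel (hRi i)]
    rw [h2, hVd]
    linear_combination φ ^ (R - R0 i) * h0 i s
  have h2 : ∀ s : ℕ, C (b.eval (s : ℂ)) * φ ^ s = ∑ i, pderiv i (T i s) := by
    intro s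
    have h3 : wz w (d * s) (slice (0 : τ →₀ ℕ) ((b.eval (s : ℂ)) • f ^ s)) = _ :=
      congrArg (fun g => wz w (d * s) (slice (0 : τ →₀ ℕ) g)) (hP s)
    beta_reduce at h3
    rw [map_smul, wz_smul, lowest_w w hw f d φ h s, Finsupp.sum, map_sum, wz_sum, ← C_mul'] at h3
    rw [h3, hT]
    simp only [map_sum]
    rw [Finset.sum_comm]
    refine Finset.sum_congr rfl fun m _ => ?_
    rw [map_smul, wz_smul]
    change ((s : ℂ) ^ m) • wz w (d * s) ((slice 0 ∘ₗ (P m : Module.End ℂ (PS (σ ⊕ τ))))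
      (f ^ (s + 1))) = _
    rw [hFi2 m s, Finset.smul_sum]
    refine Finset.sum_congr rfl fun i _ => ?_
    rw [← map_pow, pderiv_C_mul, C_mul']
  set s0 : ℂ := -((∑ i, w i : ℕ) : ℂ) / d with hs0
  have key := IsPS.eq_of_nat (g := fun s => C (b.eval s) * φ ^ (R + 1))
    (h := fun s => ∑ i, (C (s - R) * pderiv i φ * V i s + φ * pderiv i (V i s)))
    ((isPS_eval b).mul (IsPS.const _)) ?_ ?_ s0
  · exact exact_of_identity_w w φ d hd h.1 s0 hs0 _ hne R (fun i => V i s0) key
  · refine IsPS.sum _ fun i _ => ?_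
    refine IsPS.add ((IsPS.mul ?_ (IsPS.const _)).mul (hV i)) ((IsPS.const _).mul ((hV i).pderiv i))
    simp only [map_sub]
    exact IsPS.id.sub (IsPS.const _)
  · intro s
    beta_reduce
    apply mul_left_cancel₀ (pow_ne_zero s hφ)
    have h4 : φ ^ s * (C (b.eval (s : ℂ)) * φ ^ (R + 1)) = φ ^ (R + 1) * ∑ i, pderiv i (T i s) := by
      rw [← h2 s]
      ring
    rw [h4, Finset.mul_sum, Finset.mul_sum]
    exact Finset.sum_congr rfl fun i _ => deriv_aux φ (T i s) (V i s) i R s (h1 i s)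

end Pool.Agent.Helper48.SW
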