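import Pool.Agent.Helper48.SW.EndW
import Pool.Agent.Helper48.SW.StepLW
import Pool.Agent.Helper48.SN.Poly
import Pool.Graph.R_seed8.W574.MO.Alg
import Pool.Graph.R_seed8.W574.MO.FormDefs

set_option autoImplicit false
set_option linter.unusedSectionVars false

/-! # Contributions of the weighted initial forms with normal crossings -/

namespace Pool.Agent.Helper48.SW

open Finset MvPolynomial Pool.Agent.H628R4.TP Pool.Agent.K3h38.SM Pool.Agent.Helper48.SN
  Pool.Agent.W574.MO

/-- `φ = ∏ F_i ^ n_i` is weighted homogeneous of weight `d`, the `F_i` are weighted homogeneous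
of positive weights, the hypersurfaces `F_i = 0` have normal crossings outside the origin (`SNC`), and
not outright normal crossings: the linear parts of the `F_i` at the origin are linearly dependent (this
holds for example if an `F_i` has no linear part, or if there are more than `c` of the `F_i`). -/
def NormalCrossingForm {c : ℕ} (w : Fin c → ℕ) (d : ℕ) (φ : MvPolynomial (Fin c) ℂ) : Prop :=
  2 ≤ c ∧ (∀ i, 0 < w i) ∧ ∃ (r : ℕ) (F : Fin r → MvPolynomial (Fin c) ℂ) (e n : Fin r → ℕ),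
    (∀ i, IsWeightedHomogeneous w (F i) (e i)) ∧ (∀ i, 0 < e i) ∧ (∀ i, 1 ≤ n i) ∧ SNC F ∧
    (¬ LinearIndependent ℂ fun (i : Fin r) (j : Fin c) => eval 0 (pderiv j (F i))) ∧
    φ = ∏ i, F i ^ n i ∧ d = ∑ i, n i * e i

/-- With `ν = ∑ w_i` and `Ω = ∑_i (-1) ^ i w_i x_i dx_0 ∧ .. (without dx_i) .. ∧ dx_(c-1)`, the twisted
form `φ ^ (-ν/d) Ω` on the complement of `φ = 0` (in the weighted projective space) is not exact: there is no
polynomial vector field `Θ` of weight `d k` with `Θ φ = 0` and `div Θ = φ ^ k` (the primitive would be the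
form `φ ^ (-ν/d-k) ι_E ι_Θ dx`, where `E` is the Euler vector field). -/
def NonexactForm {c : ℕ} (w : Fin c → ℕ) (d : ℕ) (φ : MvPolynomial (Fin c) ℂ) : Prop :=
  (∀ i, 0 < w i) ∧ 0 < d ∧ ¬ ∃ (k : ℕ) (Θ : Fin c → MvPolynomial (Fin c) ℂ),
    (∀ i, IsWeightedHomogeneous w (Θ i) (d * k + w i)) ∧
      ∑ i, Θ i * pderiv i φ = 0 ∧ ∑ i, pderiv i (Θ i) = φ ^ k

/-- **The root of a power series.** -/
theorem root_nonexact {c : ℕ} {τ : Type} [Fintype τ] (w : Fin c → ℕ) (d : ℕ)
    (φ : MvPolynomial (Fin c) ℂ) (hφ : NonexactForm w d φ) (f : PS (Fin c ⊕ τ))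
    (hf : IsConeW w f d φ) (b : Polynomial ℂ) (hb : IsFormalB f b) :
    b.eval (-((∑ i, w i : ℕ) : ℂ) / d) = 0 := by
  by_contra hne
  obtain ⟨hw, hd, hφ⟩ := hφ
  refine hφ (stepW w hw f d hd φ hf ?_ b hb hne)
  rintro rfl
  refine hφ ⟨1, fun _ => 0, fun i => isWeightedHomogeneous_zero ℂ w _, ?_, ?_⟩
  · simp
  · simp

/-- Forms with normal crossings outside the origin. -/
theorem NormalCrossingForm.nonexact {c : ℕ} {w : Fin c → ℕ} {d : ℕ} {φ : MvPolynomial (Fin c) ℂ}
    (hφ : NormalCrossingForm w d φ) : NonexactForm w d φ := by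
  obtain ⟨hc, hw, r, F, e, n, hF, he, hn, hS, hli, rfl, hd⟩ := hφ
  have hr : Nonempty (Fin r) := by
    by_contra hcon
    rw [not_nonempty_iff] at hcon
    exact hli linearIndependent_empty_type
  refine ⟨hw, ?_, not_exact_w hc w hw F e hF he hS hli n hn d hd⟩
  obtain ⟨i⟩ := hr
  rw [hd]
  exact Finset.sum_pos (fun i _ => Nat.mul_pos (hn i) (he i)) ⟨i, Finset.mem_univ i⟩

/-- The numerical data `(d, ν)` come from an initial form at the point `p`: in suitable formal
coordinates `x_1, ..., x_c, y_1, ..., y_k` at `p`, all monomials `x ^ α y ^ β` of `f` have weight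
`w · α ≥ d`, and the part `φ(x)` of `f(x, 0)` of weight `d` is non-exact (`NonexactForm`; for example,
it is a `NormalCrossingForm`); `ν = ∑ w_i`. In geometric terms: `(d, ν)` are the numerical data
`(N, ν)` of the exceptional divisor of the weighted blow-up with the centre `x = 0`. -/
def FromInitialForm {N : ℕ} (f : MvPolynomial (Fin N) ℂ) (p : Fin N → ℂ) (d ν : ℕ) : Prop :=
  ∃ (c k : ℕ) (w : Fin c → ℕ)
    (Ψ : MvPowerSeries (Fin N) ℂ ≃ₐ[ℂ] MvPowerSeries (Fin c ⊕ Fin k) ℂ)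
    (φ : MvPolynomial (Fin c) ℂ), NonexactForm w d φ ∧
    IsConeW w (Ψ ((tr p f : MvPolynomial (Fin N) ℂ) : MvPowerSeries (Fin N) ℂ)) d φ ∧
    ν = ∑ i, w i

theorem NonexactForm.pos {c : ℕ} {w : Fin c → ℕ} {d : ℕ} {φ : MvPolynomial (Fin c) ℂ}
    (h : NonexactForm w d φ) (hφ : IsWeightedHomogeneous w φ d) : 0 < d ∧ 0 < ∑ i, w i := by
  obtain ⟨hw, hd, h⟩ := h
  refine ⟨hd, ?_⟩
  rcases Nat.eq_zero_or_pos c with rfl | hc
  · exfalso
    refine h ⟨1, fun _ => 0, fun i => i.elim0, by simp, ?_⟩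
    have h1 : φ = 0 := by
      ext α
      rw [coeff_zero, hφ.coeff_eq_zero α]
      rw [Subsingleton.elim α 0, map_zero]
      omega
    rw [h1]
    simp
  · exact Finset.sum_pos (fun j _ => hw j) ⟨⟨0, hc⟩, Finset.mem_univ _⟩

theorem root_feq {N : ℕ} (f H : MvPolynomial (Fin N) ℂ) (p : Fin N → ℂ) (d ν : ℕ)
    (h : FromInitialForm f p d ν) (hp : eval p H ≠ 0) (b : Polynomial ℂ) (hb : FEq f H b) :
    RootPair b d ν := by
  obtain ⟨c, k, w, Ψ, φ, hφ, hcone, rfl⟩ := h
  exact root_nonexact w d φ hφ _ hcone b (formal_equiv Ψ _ b (formal_of_feq f H b hb p hp))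

section Zeta

variable {M : Type} [CommRing M] (L : Mˣ)

/-- The sum `∑_I c_I ∏_{i ∈ I} (L - 1) L^(-ν_i) T^(N_i) / (1 - L^(-ν_i) T^(N_i))` over the sets `I` of
the divisors `E_i` with the numerical data `(N_i, ν_i)`. The motivic zeta function has this form for
every embedded resolution, and (with coefficients `c_I ∈ M[T]`) for every embedded resolution with
abelian quotient singularities, for example a weighted blow-up. -/
noncomputable def resSum {S : Type} [Fintype S] [DecidableEq S] (Nν : S → ℕ × ℕ)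
    (c : Finset S → Polynomial M) : PowerSeries M :=
  ∑ I : Finset S, (c I : PowerSeries M) * ∏ i ∈ I, mf L (Nν i).1 (Nν i).2

theorem resSum_mem {S : Type} [Fintype S] [DecidableEq S] (Nν : S → ℕ × ℕ)
    (c : Finset S → Polynomial M) (K : ℕ → ℕ → Prop) (hν : ∀ i, 1 ≤ (Nν i).2)
    (h : ∀ i, 1 ≤ (Nν i).1 → K (Nν i).1 (Nν i).2) : resSum L Nν c ∈ DenRing L K := by
  refine Subring.sum_mem _ fun I _ => Subring.mul_mem _ ?_ ?_
  · exact Subring.subset_closure (Or.inl ⟨c I, rfl⟩)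
  · exact Subring.prod_mem _ fun i _ => mf_mem (hν i) (h i)

end Zeta

end Pool.Agent.Helper48.SW
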