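import Pool.Agent.Helper48.SN.StepL

set_option autoImplicit false
set_option linter.unusedSectionVars false

/-! # Weighted components of power series -/

namespace Pool.Agent.Helper48.SW

open Finset MvPolynomial Pool.Agent.K3h38.SM Pool.Agent.Helper48.SN

variable {σ : Type} [Fintype σ]

theorem weight_sum (w : σ → ℕ) (m : σ →₀ ℕ) : Finsupp.weight w m = ∑ i, m i * w i := by
  rw [Finsupp.weight_apply, Finsupp.sum_fintype _ _ (fun i => by simp)]
  exact Finset.sum_congr rfl fun i _ => by rw [smul_eq_mul]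

theorem degree_le_weight (w : σ → ℕ) (hw : ∀ i, 0 < w i) (m : σ →₀ ℕ) :
    m.degree ≤ Finsupp.weight w m := by
  rw [Finsupp.degree_eq_sum, weight_sum]
  exact Finset.sum_le_sum fun i _ => Nat.le_mul_of_pos_right _ (hw i)

/-- the component of weight `n` -/
noncomputable def wcp (w : σ → ℕ) (n : ℕ) : PS σ →ₗ[ℂ] MvPolynomial σ ℂ :=
  (weightedHomogeneousComponent w n).comp (MvPowerSeries.truncTotal (n + 1))

theorem coeff_wcp (w : σ → ℕ) (hw : ∀ i, 0 < w i) (n : ℕ) (g : PS σ) (m : σ →₀ ℕ) :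
    coeff m (wcp w n g) = if Finsupp.weight w m = n then MvPowerSeries.coeff m g else 0 := by
  rw [wcp, LinearMap.comp_apply, coeff_weightedHomogeneousComponent]
  split_ifs with h
  · have := degree_le_weight w hw m
    rw [MvPowerSeries.coeff_truncTotal _ (by omega)]
  · rfl

theorem wcp_hom (w : σ → ℕ) (n : ℕ) (g : PS σ) : IsWeightedHomogeneous w (wcp w n g) n := by
  rw [wcp, LinearMap.comp_apply]
  exact weightedHomogeneousComponent_isWeightedHomogeneous n _

/-- the component of weight `n`, which may be negative -/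
noncomputable def wz (w : σ → ℕ) (n : ℤ) (g : PS σ) : MvPolynomial σ ℂ :=
  if 0 ≤ n then wcp w n.toNat g else 0

theorem coeff_wz (w : σ → ℕ) (hw : ∀ i, 0 < w i) (n : ℤ) (g : PS σ) (m : σ →₀ ℕ) :
    coeff m (wz w n g) = if (Finsupp.weight w m : ℤ) = n then MvPowerSeries.coeff m g else 0 := by
  rw [wz]
  split_ifs with h1 h2 h2
  · rw [coeff_wcp w hw, if_pos (by omega)]
  · rw [coeff_wcp w hw, if_neg (by omega)]
  · omega
  · rw [coeff_zero]

theorem wz_nat (w : σ → ℕ) (n : ℕ) (g : PS σ) : wz w (n : ℤ) g = wcp w n g := by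
  rw [wz, if_pos (Int.natCast_nonneg n), Int.toNat_natCast]

theorem wz_neg (w : σ → ℕ) (n : ℤ) (hn : n < 0) (g : PS σ) : wz w n g = 0 := if_neg (not_le.2 hn)

theorem wz_add (w : σ → ℕ) (n : ℤ) (g h : PS σ) : wz w n (g + h) = wz w n g + wz w n h := by
  rw [wz, wz, wz]
  split_ifs
  · rw [map_add]
  · rw [add_zero]

theorem wz_smul (w : σ → ℕ) (n : ℤ) (c : ℂ) (g : PS σ) : wz w n (c • g) = c • wz w n g := by
  rw [wz, wz]
  split_ifs
  · rw [map_smul]
  · rw [smul_zero]

theorem wz_zero (w : σ → ℕ) (n : ℤ) : wz w n (0 : PS σ) = 0 := by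
  rw [wz]
  split_ifs
  · rw [map_zero]
  · rfl

theorem wz_sum {κ : Type} (w : σ → ℕ) (n : ℤ) (s : Finset κ) (g : κ → PS σ) :
    wz w n (∑ i ∈ s, g i) = ∑ i ∈ s, wz w n (g i) := by
  classical
  induction s using Finset.induction_on with
  | empty => exact wz_zero w n
  | insert a s ha ih => rw [Finset.sum_insert ha, Finset.sum_insert ha, wz_add, ih]

theorem wz_pp (w : σ → ℕ) (hw : ∀ i, 0 < w i) (n : ℤ) (i : σ) (g : PS σ) :
    wz w n (pp i g) = pderiv i (wz w (n + w i) g) := by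
  ext m
  rw [coeff_wz w hw, coeff_pderiv, coeff_wz w hw, pp_apply, MvPowerSeries.coeff_pderiv, map_add,
    Finsupp.weight_single, one_smul]
  push_cast
  by_cases h1 : (Finsupp.weight w m : ℤ) = n
  · rw [if_pos h1, if_pos (by rw [h1])]
  · rw [if_neg h1, if_neg (fun h => h1 (by linarith)), zero_mul]

theorem wcp_mul (w : σ → ℕ) (hw : ∀ i, 0 < w i) (n : ℕ) (h g : PS σ) :
    wcp w n (h * g) =
      ∑ p ∈ Finset.HasAntidiagonal.antidiagonal n, wcp w p.1 h * wcp w p.2 g := by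
  classical
  ext m
  rw [coeff_wcp w hw, coeff_sum]
  have h1 : ∀ p ∈ Finset.HasAntidiagonal.antidiagonal n, coeff m (wcp w p.1 h * wcp w p.2 g) =
      ∑ q ∈ Finset.HasAntidiagonal.antidiagonal m,
        (if Finsupp.weight w q.1 = p.1 then MvPowerSeries.coeff q.1 h else 0) *
        (if Finsupp.weight w q.2 = p.2 then MvPowerSeries.coeff q.2 g else 0) := by
    intro p _
    rw [coeff_mul]
    exact Finset.sum_congr rfl fun q _ => by rw [coeff_wcp w hw, coeff_wcp w hw]
  rw [Finset.sum_congr rfl h1, Finset.sum_comm]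
  split_ifs with h2
  · rw [MvPowerSeries.coeff_mul]
    refine Finset.sum_congr rfl fun q hq => ?_
    rw [Finset.HasAntidiagonal.mem_antidiagonal] at hq
    have h3 : Finsupp.weight w q.1 + Finsupp.weight w q.2 = n := by
      rw [← map_add, hq, h2]
    rw [Finset.sum_eq_single (Finsupp.weight w q.1, Finsupp.weight w q.2)]
    · rw [if_pos rfl, if_pos rfl]
    · rintro ⟨a, b⟩ _ hne
      by_cases h4 : Finsupp.weight w q.1 = a
      · by_cases h5 : Finsupp.weight w q.2 = b
        · exact absurd (by rw [h4, h5]) hne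
        · rw [if_neg h5, mul_zero]
      · rw [if_neg h4, zero_mul]
    · intro h4
      exact absurd (Finset.HasAntidiagonal.mem_antidiagonal.2 h3) h4
  · rw [eq_comm]
    refine Finset.sum_eq_zero fun q hq => Finset.sum_eq_zero fun p hp => ?_
    rw [Finset.HasAntidiagonal.mem_antidiagonal] at hq hp
    by_cases h4 : Finsupp.weight w q.1 = p.1
    · by_cases h5 : Finsupp.weight w q.2 = p.2
      · exfalso
        apply h2
        rw [← hq, map_add, h4, h5, hp]
      · rw [if_neg h5, mul_zero]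
    · rw [if_neg h4, zero_mul]

theorem wz_mul (w : σ → ℕ) (hw : ∀ i, 0 < w i) (h g : PS σ) (n : ℤ) (M : ℕ)
    (hM : ∀ j : ℤ, j ≤ n - M → wz w j g = 0) :
    wz w n (h * g) = ∑ i ∈ Finset.range M, wcp w i h * wz w (n - i) g := by
  rcases lt_or_ge n 0 with hn | hn
  · rw [wz_neg w n hn, Finset.sum_eq_zero]
    intro i _
    rw [wz_neg w _ (by omega), mul_zero]
  · obtain ⟨k, rfl⟩ := Int.eq_ofNat_of_zero_le hn
    rw [wz_nat, wcp_mul w hw, Finset.Nat.sum_antidiagonal_eq_sum_range_succ_mk]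
    have h1 : ∑ i ∈ Finset.range k.succ, wcp w i h * wcp w (k - i) g =
        ∑ i ∈ Finset.range (max k.succ M), wcp w i h * wz w ((k : ℤ) - i) g := by
      rw [← Finset.sum_subset (Finset.range_subset_range.2 (le_max_left k.succ M))]
      · refine Finset.sum_congr rfl fun i hi => ?_
        rw [Finset.mem_range] at hi
        have h2 : (k : ℤ) - i = ((k - i : ℕ) : ℤ) := by omega
        rw [h2, wz_nat]
      · intro i _ hi
        rw [Finset.mem_range] at hi
        rw [wz_neg w _ (by omega), mul_zero]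
    rw [h1, eq_comm]
    refine Finset.sum_subset (Finset.range_subset_range.2 (le_max_right k.succ M)) ?_
    intro i _ hi
    rw [Finset.mem_range] at hi
    rw [hM _ (by omega), mul_zero]

theorem wcp_coe_hom (w : σ → ℕ) (hw : ∀ i, 0 < w i) (e : ℕ) (p : MvPolynomial σ ℂ)
    (hp : IsWeightedHomogeneous w p e) (n : ℕ) : wcp w n (p : PS σ) = if n = e then p else 0 := by
  ext m
  rw [coeff_wcp w hw, MvPolynomial.coeff_coe]
  by_cases h1 : coeff m p = 0
  · split_ifs
    · rfl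
    · rw [h1, coeff_zero]
    · rw [h1]
    · rw [coeff_zero]
  · have h2 := hp h1
    rw [h2]
    by_cases h3 : e = n
    · rw [if_pos h3, if_pos h3.symm]
    · rw [if_neg h3, if_neg (Ne.symm h3), coeff_zero]

theorem wz_hom_mul (w : σ → ℕ) (hw : ∀ i, 0 < w i) (p : MvPolynomial σ ℂ) (e : ℕ)
    (hp : IsWeightedHomogeneous w p e) (x : PS σ) (n : ℤ) :
    wz w n ((p : PS σ) * x) = p * wz w (n - e) x := by
  rw [wz_mul w hw _ x n (max e n.toNat + 1) (fun j hj => wz_neg w _ (by
    have h1 := Int.self_le_toNat n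
    have h2 : n.toNat ≤ max e n.toNat := le_max_right _ _
    omega) _), Finset.sum_eq_single e]
  · rw [wcp_coe_hom w hw e p hp, if_pos rfl]
  · intro i _ hi
    rw [wcp_coe_hom w hw e p hp, if_neg hi, zero_mul]
  · intro h
    exact absurd (Finset.mem_range.2 (Nat.lt_succ_of_le (le_max_left _ _))) h

/-- a family of power series with components of the form `Rat` -/
def TameW (w : σ → ℕ) (φ : MvPolynomial σ ℂ) (d : ℕ) (g : ℕ → PS σ) : Prop :=
  (∃ K : ℤ, ∀ (s : ℕ) (j : ℤ), j < d * s + K → wz w j (g s) = 0) ∧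
  ∀ δ : ℤ, Rat φ fun s => wz w (d * s + δ) (g s)

theorem TameW.add {w : σ → ℕ} {φ : MvPolynomial σ ℂ} {d : ℕ} {g h : ℕ → PS σ}
    (hg : TameW w φ d g) (hh : TameW w φ d h) : TameW w φ d fun s => g s + h s := by
  obtain ⟨⟨K, hK⟩, h1⟩ := hg
  obtain ⟨⟨K', hK'⟩, h2⟩ := hh
  refine ⟨⟨min K K', fun s j hj => ?_⟩, fun δ => ?_⟩
  · have h3 : min K K' ≤ K := min_le_left _ _
    have h4 : min K K' ≤ K' := min_le_right _ _
    rw [wz_add, hK s j (by omega), hK' s j (by omega), add_zero]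
  · simp only [wz_add]
    exact (h1 δ).add (h2 δ)

theorem TameW.smul {w : σ → ℕ} {φ : MvPolynomial σ ℂ} {d : ℕ} {g : ℕ → PS σ}
    (hg : TameW w φ d g) (c : ℂ) : TameW w φ d fun s => c • g s := by
  obtain ⟨⟨K, hK⟩, h1⟩ := hg
  refine ⟨⟨K, fun s j hj => ?_⟩, fun δ => ?_⟩
  · rw [wz_smul, hK s j hj, smul_zero]
  · simp only [wz_smul, ← C_mul']
    exact (h1 δ).mulPS (fun _ => C c) (IsPS.const _)

theorem TameW.zero (w : σ → ℕ) (φ : MvPolynomial σ ℂ) (d : ℕ) : TameW w φ d fun _ => 0 := by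
  refine ⟨⟨0, fun s j hj => wz_zero w _⟩, fun δ => ?_⟩
  simp only [wz_zero]
  exact Rat.zero φ

theorem TameW.ml {w : σ → ℕ} (hw : ∀ i, 0 < w i) {φ : MvPolynomial σ ℂ} {d : ℕ} {g : ℕ → PS σ}
    (hg : TameW w φ d g) (h : PS σ) : TameW w φ d fun s => ml h (g s) := by
  obtain ⟨⟨K, hK⟩, h1⟩ := hg
  refine ⟨⟨K, fun s j hj => ?_⟩, fun δ => ?_⟩
  · beta_reduce
    rw [ml_apply, wz_mul w hw h (g s) j 0 fun i hi => hK s i (by omega), Finset.sum_range_zero]
  · have h2 : ∀ s : ℕ, wz w (d * s + δ) (Pool.Agent.Helper48.SN.ml h (g s)) =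
        ∑ i ∈ Finset.range (δ - K + 1).toNat, wcp w i h * wz w (d * s + (δ - i)) (g s) := by
      intro s
      rw [ml_apply, wz_mul w hw h (g s) (d * s + δ) (δ - K + 1).toNat fun j hj => hK s j (by
        have := Int.self_le_toNat (δ - K + 1)
        omega)]
      refine Finset.sum_congr rfl fun i _ => ?_
      rw [add_sub_assoc]
    simp only [h2]
    exact Rat.sum _ _ fun i _ => (h1 (δ - i)).mulPS (fun _ => wcp w i h) (IsPS.const _)

theorem TameW.pp {w : σ → ℕ} (hw : ∀ i, 0 < w i) {φ : MvPolynomial σ ℂ} {d : ℕ} {g : ℕ → PS σ}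
    (hg : TameW w φ d g) (i : σ) : TameW w φ d fun s => pp i (g s) := by
  obtain ⟨⟨K, hK⟩, h1⟩ := hg
  refine ⟨⟨K - w i, fun s j hj => ?_⟩, fun δ => ?_⟩
  · beta_reduce
    rw [wz_pp w hw, hK s (j + w i) (by omega), map_zero]
  · simp only [wz_pp w hw, add_assoc]
    exact (h1 (δ + w i)).pderiv i

theorem TameW.op {w : σ → ℕ} (hw : ∀ i, 0 < w i) {φ : MvPolynomial σ ℂ} {d : ℕ}
    {Q : Module.End ℂ (PS σ)} (hQ : Q ∈ dS σ) :
    ∀ g : ℕ → PS σ, TameW w φ d g → TameW w φ d fun s => Q (g s) := by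
  induction hQ using Algebra.adjoin_induction with
  | mem Q hQ =>
    intro g hg
    rcases hQ with ⟨a, rfl⟩ | ⟨i, rfl⟩
    · exact hg.ml hw a
    · exact hg.pp hw i
  | algebraMap a =>
    intro g hg
    have h1 : (fun s => (algebraMap ℂ (Module.End ℂ (PS σ)) a) (g s)) = fun s => a • g s := by
      funext s
      rw [Module.algebraMap_end_apply]
    rw [h1]
    exact hg.smul a
  | add Q Q' _ _ ih ih' =>
    intro g hg
    have h1 : (fun s => (Q + Q') (g s)) = fun s => Q (g s) + Q' (g s) := by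
      funext s
      rw [LinearMap.add_apply]
    rw [h1]
    exact (ih g hg).add (ih' g hg)
  | mul Q Q' _ _ ih ih' =>
    intro g hg
    exact ih _ (ih' g hg)

end Pool.Agent.Helper48.SW
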