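import Pool.Agent.Helper48.SW.SerW
import Pool.Agent.Helper48.SW.LinW

set_option autoImplicit false
set_option linter.unusedSectionVars false

/-! # The weighted initial form along a smooth centre -/

namespace Pool.Agent.Helper48.SW

open Finset MvPolynomial Pool.Agent.K3h38.SM Pool.Agent.Helper48.SN

variable {σ τ : Type} [Fintype σ] [Fintype τ]

/-- `φ` is the restriction to the normal space at the origin of the initial form (of weight `d`) of
the power series `g(x, y)` along the centre `x = 0`: all monomials `x ^ α y ^ β` of `g` have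
`w · α ≥ d`, and the part of weight `d` of `g(x, 0)` is `φ(x)`. -/
def IsConeW (w : σ → ℕ) (g : PS (σ ⊕ τ)) (d : ℕ) (φ : MvPolynomial σ ℂ) : Prop :=
  IsWeightedHomogeneous w φ d ∧
  (∀ (α : σ →₀ ℕ) (β : τ →₀ ℕ), Finsupp.weight w α < d →
    MvPowerSeries.coeff (α.sumElim β) g = 0) ∧
  ∀ α : σ →₀ ℕ, Finsupp.weight w α = d → MvPowerSeries.coeff (α.sumElim 0) g = coeff α φ

/-- the terms of the expansion -/
noncomputable def XW (w : σ → ℕ) (f : PS (σ ⊕ τ)) (d : ℕ) (φ : MvPolynomial σ ℂ) (γ : τ →₀ ℕ)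
    (δ : ℤ) (k : ℕ) : MvPolynomial σ ℂ := wz w (δ + d * k) (slice γ ((f - emb τ φ) ^ k))

theorem rest_order_w (w : σ → ℕ) (f : PS (σ ⊕ τ)) (d : ℕ) (φ : MvPolynomial σ ℂ)
    (h : IsConeW w f d φ) :
    Wo (fun m => ∑ i : σ, m (Sum.inl i) * w i + ∑ j : τ, m (Sum.inr j)) (f - emb τ φ) (d + 1) := by
  classical
  intro m hm
  obtain ⟨α, β, rfl⟩ : ∃ (α : σ →₀ ℕ) (β : τ →₀ ℕ), m = α.sumElim β :=
    ⟨m.comapDomain Sum.inl Sum.inl_injective.injOn, m.comapDomain Sum.inr
      Sum.inr_injective.injOn, (Finsupp.comapDomain_sumElim_comapDomain ..).symm⟩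
  obtain ⟨hφ, h1, h2⟩ := h
  simp only [Finsupp.sumElim_inl, Finsupp.sumElim_inr] at hm
  rw [← weight_sum, ← Finsupp.degree_eq_sum] at hm
  rw [map_sub, coeff_emb]
  rcases Nat.lt_or_ge (Finsupp.weight w α) d with h3 | h3
  · rw [h1 α β h3]
    split_ifs
    · rw [hφ.coeff_eq_zero α (by omega), sub_zero]
    · rw [sub_zero]
  · have h4 : Finsupp.weight w α = d := by omega
    have h5 : β.degree = 0 := by omega
    have h6 : β = 0 := (Finsupp.degree_eq_zero_iff β).1 h5
    rw [if_pos h6, h6, h2 α h4, sub_self]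

theorem XW_zero (w : σ → ℕ) (hw : ∀ i, 0 < w i) (f : PS (σ ⊕ τ)) (d : ℕ) (φ : MvPolynomial σ ℂ)
    (h : IsConeW w f d φ) (γ : τ →₀ ℕ) (δ : ℤ) (k : ℕ) (hk : δ + γ.degree < k) :
    XW w f d φ γ δ k = 0 := by
  rw [XW]
  ext α
  rw [coeff_wz w hw, coeff_zero]
  split_ifs with h2
  · rw [coeff_slice]
    refine (rest_order_w w f d φ h).pow (fun a b => ?_) k _ ?_
    · simp only [Finsupp.add_apply, add_mul, Finset.sum_add_distrib]
      ring
    · simp only [Finsupp.sumElim_inl, Finsupp.sumElim_inr]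
      rw [← weight_sum, ← Finsupp.degree_eq_sum]
      have h3 : ((Finsupp.weight w α + γ.degree : ℕ) : ℤ) < (((d + 1) * k : ℕ) : ℤ) := by
        push_cast
        rw [h2, add_mul, one_mul]
        linarith
      exact_mod_cast h3
  · rfl

/-- **The expansion of the powers.** -/
theorem expand_w (w : σ → ℕ) (hw : ∀ i, 0 < w i) (f : PS (σ ⊕ τ)) (d : ℕ)
    (φ : MvPolynomial σ ℂ) (h : IsConeW w f d φ) (γ : τ →₀ ℕ)
    (δ : ℤ) (n : ℕ) : wz w (d * n + δ) (slice γ (f ^ n)) =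
      ∑ k ∈ Finset.range ((δ + γ.degree).toNat + 1), C (n.choose k : ℂ) * φ ^ (n - k) *
        XW w f d φ γ δ k := by
  have h1 : f ^ n = ∑ k ∈ Finset.range (n + 1),
      (n.choose k : ℂ) • (emb τ φ ^ (n - k) * (f - emb τ φ) ^ k) := by
    have h2 : f = (f - emb τ φ) + emb τ φ := by ring
    conv_lhs => rw [h2]
    rw [add_pow]
    refine Finset.sum_congr rfl fun k _ => ?_
    rw [Nat.cast_smul_eq_nsmul, nsmul_eq_mul]
    ring
  have h2 : wz w (d * n + δ) (slice γ (f ^ n)) = ∑ k ∈ Finset.range (n + 1),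
      C (n.choose k : ℂ) * φ ^ (n - k) * XW w f d φ γ δ k := by
    rw [h1, map_sum, wz_sum]
    refine Finset.sum_congr rfl fun k hk => ?_
    rw [Finset.mem_range] at hk
    have h3 : IsWeightedHomogeneous w (φ ^ (n - k)) (d * (n - k)) := by
      have := h.1.pow (n - k)
      rwa [smul_eq_mul, mul_comm] at this
    rw [map_smul, wz_smul, slice_emb_pow, wz_hom_mul w hw _ _ h3, XW, ← C_mul', mul_assoc]
    congr 3
    rw [Nat.cast_mul, Nat.cast_sub (by omega)]
    ring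
  rw [h2]
  have h3 : ∀ k, k ∉ Finset.range (n + 1) → C (n.choose k : ℂ) * φ ^ (n - k) *
      XW w f d φ γ δ k = 0 := by
    intro k hk
    rw [Finset.mem_range] at hk
    rw [Nat.choose_eq_zero_of_lt (by omega), Nat.cast_zero, map_zero, zero_mul, zero_mul]
  have h4 : ∀ k, k ∉ Finset.range ((δ + γ.degree).toNat + 1) → C (n.choose k : ℂ) * φ ^ (n - k) *
      XW w f d φ γ δ k = 0 := by
    intro k hk
    rw [Finset.mem_range] at hk
    rw [XW_zero w hw f d φ h γ δ k (by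
      have := Int.self_le_toNat (δ + γ.degree)
      omega), mul_zero]
  rw [Finset.sum_subset (Finset.range_subset_range.2 (le_max_left (n + 1)
      ((δ + γ.degree).toNat + 1))) (fun k _ hk => h3 k hk),
    Finset.sum_subset (Finset.range_subset_range.2 (le_max_right (n + 1)
      ((δ + γ.degree).toNat + 1))) (fun k _ hk => h4 k hk)]

theorem lowest_w (w : σ → ℕ) (hw : ∀ i, 0 < w i) (f : PS (σ ⊕ τ)) (d : ℕ) (φ : MvPolynomial σ ℂ)
    (h : IsConeW w f d φ) (s : ℕ) :
    wz w (d * s) (slice (0 : τ →₀ ℕ) (f ^ s)) = φ ^ s := by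
  classical
  have h1 := expand_w w hw f d φ h 0 0 s
  rw [add_zero] at h1
  rw [h1]
  have h2 : (0 + ((0 : τ →₀ ℕ).degree : ℤ)).toNat + 1 = 1 := by simp
  rw [h2, Finset.sum_range_one, Nat.choose_zero_right, Nat.cast_one, map_one, one_mul,
    Nat.sub_zero, XW, pow_zero]
  have h3 : slice (0 : τ →₀ ℕ) (1 : PS (σ ⊕ τ)) = (1 : PS σ) := by
    ext α
    rw [coeff_slice, MvPowerSeries.coeff_one, MvPowerSeries.coeff_one]
    by_cases h4 : α = 0
    · subst h4
      rw [if_pos (by simp), if_pos rfl]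
    · rw [if_neg, if_neg h4]
      intro h5
      apply h4
      rw [← Finsupp.sumElim_zero_zero] at h5
      exact (sumElim_inj h5).1
  have h4 : (0 : ℤ) + d * ((0 : ℕ) : ℤ) = ((0 : ℕ) : ℤ) := by simp
  rw [h3, h4, wz_nat]
  have h5 : wcp w 0 (1 : PS σ) = 1 := by
    rw [← MvPolynomial.coe_one, wcp_coe_hom w hw 0 1 (isWeightedHomogeneous_one ℂ w), if_pos rfl]
  rw [h5, mul_one]

theorem slice_vanish_w (w : σ → ℕ) (hw : ∀ i, 0 < w i) (f : PS (σ ⊕ τ)) (d : ℕ)
    (φ : MvPolynomial σ ℂ) (h : IsConeW w f d φ)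
    (γ : τ →₀ ℕ) (s : ℕ) (j : ℤ) (hj : j < d * s + d) : wz w j (slice γ (f ^ (s + 1))) = 0 := by
  ext α
  rw [coeff_wz w hw, coeff_zero]
  split_ifs with h2
  · rw [coeff_slice]
    have h3 : Wo (fun m : σ ⊕ τ →₀ ℕ => ∑ i : σ, m (Sum.inl i) * w i) f d := by
      intro m hm
      obtain ⟨α, β, rfl⟩ : ∃ (α : σ →₀ ℕ) (β : τ →₀ ℕ), m = α.sumElim β :=
        ⟨m.comapDomain Sum.inl Sum.inl_injective.injOn, m.comapDomain Sum.inr
          Sum.inr_injective.injOn, (Finsupp.comapDomain_sumElim_comapDomain ..).symm⟩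
      refine h.2.1 α β ?_
      rw [weight_sum]
      simpa using hm
    refine h3.pow (fun a b => ?_) (s + 1) _ ?_
    · simp only [Finsupp.add_apply, add_mul, Finset.sum_add_distrib]
    · simp only [Finsupp.sumElim_inl]
      rw [← weight_sum]
      have h4 : ((Finsupp.weight w α : ℕ) : ℤ) < ((d * (s + 1) : ℕ) : ℤ) := by
        rw [h2]
        push_cast
        rw [mul_add, mul_one]
        exact hj
      exact_mod_cast h4
  · rfl

theorem tame_slice_w (w : σ → ℕ) (hw : ∀ i, 0 < w i) (f : PS (σ ⊕ τ)) (d : ℕ)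
    (φ : MvPolynomial σ ℂ) (h : IsConeW w f d φ)
    (γ : τ →₀ ℕ) : TameW w φ d fun s => slice γ (f ^ (s + 1)) := by
  refine ⟨⟨d, fun s j hj => slice_vanish_w w hw f d φ h γ s j hj⟩, fun δ => ?_⟩
  · have h1 : ∀ s : ℕ, wz w (d * s + δ) (slice γ (f ^ (s + 1))) =
        ∑ k ∈ Finset.range ((δ - d + γ.degree).toNat + 1), C ((s + 1).choose k : ℂ) *
          φ ^ (s + 1 - k) * XW w f d φ γ (δ - d) k := by
      intro s
      rw [← expand_w w hw f d φ h γ (δ - d) (s + 1)]
      congr 1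
      push_cast
      ring
    simp only [h1]
    refine Rat.sum _ _ fun k _ => ?_
    obtain ⟨c, hc, hcs⟩ := isPS_choose (σ := σ) k
    refine ⟨k, fun s => φ * c s * XW w f d φ γ (δ - d) k,
      ((IsPS.const _).mul hc).mul (IsPS.const _), fun s => ?_⟩
    beta_reduce
    rcases Nat.lt_or_ge (s + 1) k with h2 | h2
    · rw [hcs, Nat.choose_eq_zero_of_lt h2, Nat.cast_zero, map_zero]
      ring
    · rw [hcs]
      have h3 : φ ^ k * φ ^ (s + 1 - k) = φ ^ s * φ := by
        rw [← pow_add, ← pow_succ]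
        congr 1
        omega
      linear_combination (C (((s + 1).choose k : ℕ) : ℂ) * XW w f d φ γ (δ - d) k) * h3

theorem tameF_w (w : σ → ℕ) (hw : ∀ i, 0 < w i) (f : PS (σ ⊕ τ)) (d : ℕ) (φ : MvPolynomial σ ℂ)
    (h : IsConeW w f d φ) : ∀ F ∈ Fset σ τ, TameW w φ d fun s => F (f ^ (s + 1)) := by
  intro F hF
  rw [Fset] at hF
  induction hF using Submodule.span_induction with
  | mem F hF =>
    obtain ⟨q, hq, γ, rfl⟩ := hF
    exact TameW.op hw hq _ (tame_slice_w w hw f d φ h γ)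
  | zero => exact TameW.zero w φ d
  | add F G _ _ ihF ihG => exact ihF.add ihG
  | smul c F _ ihF => exact ihF.smul c

theorem splitF_w (w : σ → ℕ) (hw : ∀ i, 0 < w i) (f : PS (σ ⊕ τ)) (d : ℕ) (hd : 0 < d)
    (φ : MvPolynomial σ ℂ) (h : IsConeW w f d φ) :
    ∀ F ∈ Fset σ τ, ∃ Fi : σ → (PS (σ ⊕ τ) →ₗ[ℂ] PS σ), (∀ i, Fi i ∈ Fset σ τ) ∧
      ∀ s : ℕ, wz w (d * s) (F (f ^ (s + 1))) =
        ∑ i, pderiv i (wz w (d * s + w i) (Fi i (f ^ (s + 1)))) := by
  intro F hF
  rw [Fset] at hF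
  induction hF using Submodule.span_induction with
  | mem F hF =>
    obtain ⟨q, hq, γ, rfl⟩ := hF
    obtain ⟨Qi, p, h1, h2⟩ := splitS_of_mem hq
    refine ⟨fun i => Qi i ∘ₗ slice γ, fun i => Submodule.subset_span ⟨Qi i, h1 i, γ, rfl⟩,
      fun s => ?_⟩
    rw [LinearMap.comp_apply, h2, wz_add, wz_sum, wz_mul w hw p _ (d * s) 0 (fun j hj =>
      slice_vanish_w w hw f d φ h γ s j (by
        push_cast at hj
        have : (0 : ℤ) < d := by exact_mod_cast hd
        linarith)), Finset.sum_range_zero, add_zero]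
    refine Finset.sum_congr rfl fun i _ => ?_
    rw [wz_pp w hw]
    rfl
  | zero =>
    refine ⟨fun _ => 0, fun _ => Submodule.zero_mem _, fun s => ?_⟩
    simp [wz_zero]
  | add F G _ _ ihF ihG =>
    obtain ⟨Fi, h1, h2⟩ := ihF
    obtain ⟨Gi, h3, h4⟩ := ihG
    refine ⟨fun i => Fi i + Gi i, fun i => Submodule.add_mem _ (h1 i) (h3 i), fun s => ?_⟩
    rw [LinearMap.add_apply, wz_add, h2, h4, ← Finset.sum_add_distrib]
    refine Finset.sum_congr rfl fun i _ => ?_
    rw [LinearMap.add_apply, wz_add, map_add]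
  | smul c F _ ihF =>
    obtain ⟨Fi, h1, h2⟩ := ihF
    refine ⟨fun i => c • Fi i, fun i => Submodule.smul_mem _ c (h1 i), fun s => ?_⟩
    rw [LinearMap.smul_apply, wz_smul, h2, Finset.smul_sum]
    refine Finset.sum_congr rfl fun i _ => ?_
    rw [LinearMap.smul_apply, wz_smul]
    exact ((pderiv i).map_smul c _).symm

/-- the component of weight `n` -/
noncomputable def pc (w : σ → ℕ) (n : ℕ) : MvPolynomial σ ℂ →ₗ[ℂ] MvPolynomial σ ℂ :=
  weightedHomogeneousComponent w n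

theorem coeff_pc (w : σ → ℕ) (n : ℕ) (p : MvPolynomial σ ℂ) (m : σ →₀ ℕ) :
    coeff m (pc w n p) = if Finsupp.weight w m = n then coeff m p else 0 := by
  rw [pc, coeff_weightedHomogeneousComponent]

theorem pc_self (w : σ → ℕ) (n : ℕ) (p : MvPolynomial σ ℂ) (hp : IsWeightedHomogeneous w p n) :
    pc w n p = p := by
  ext m
  rw [coeff_pc]
  by_cases h : coeff m p = 0
  · rw [h, ite_self]
  · rw [if_pos (hp h)]

theorem pc_mul (w : σ → ℕ) (a : MvPolynomial σ ℂ) (e : ℕ) (ha : IsWeightedHomogeneous w a e)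
    (n : ℕ) (p : MvPolynomial σ ℂ) : pc w (e + n) (a * p) = a * pc w n p := by
  classical
  ext m
  rw [coeff_pc, coeff_mul, coeff_mul]
  have h1 : ∀ q ∈ Finset.HasAntidiagonal.antidiagonal m, coeff q.1 a * coeff q.2 (pc w n p) =
      if Finsupp.weight w m = e + n then coeff q.1 a * coeff q.2 p else 0 := by
    intro q hq
    rw [Finset.HasAntidiagonal.mem_antidiagonal] at hq
    by_cases h2 : coeff q.1 a = 0
    · rw [h2, zero_mul, zero_mul, ite_self]
    · have h3 := ha h2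
      have h4 : Finsupp.weight w m = e + Finsupp.weight w q.2 := by
        rw [← hq, map_add, h3]
      rw [coeff_pc, h4]
      by_cases h5 : Finsupp.weight w q.2 = n
      · rw [if_pos h5, if_pos (by omega)]
      · rw [if_neg h5, if_neg (by omega), mul_zero]
  rw [Finset.sum_congr rfl h1]
  split_ifs
  · rfl
  · rw [Finset.sum_const_zero]

theorem pc_pderiv (w : σ → ℕ) (n : ℕ) (i : σ) (p : MvPolynomial σ ℂ) :
    pc w n (pderiv i p) = pderiv i (pc w (n + w i) p) := by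
  ext m
  rw [coeff_pc, coeff_pderiv, coeff_pderiv, coeff_pc, map_add, Finsupp.weight_single, one_smul]
  by_cases h1 : Finsupp.weight w m = n
  · rw [if_pos h1, if_pos (by omega)]
  · rw [if_neg h1, if_neg (by omega), zero_mul]

end Pool.Agent.Helper48.SW
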